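import Pool.Agent.Helper78.CP.Defs

set_option autoImplicit false

/-! Module CP-2: atoms of structures.  Everywhere: the sets `U p` are pairwise disjoint and
`f p ∈ U p`, hence `f p = f' p'` implies `p = p'`. -/

namespace Pool.Agent.Helper78.CP

open Finset

variable {N : ℕ} {V : Type*} [Fintype V] [DecidableEq V]

theorem mem_Gr {γ : V → V} {g : V} : g ∈ Gr γ ↔ γ g = g := by simp [Gr]

theorem mem_fib {γ : V → V} {g p : V} : p ∈ fib γ g ↔ γ p = g := by simp [fib]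

theorem pos_eq {U : V → Finset (Fin N)} (hU : ∀ p p', p ≠ p' → Disjoint (U p) (U p'))
    {f f' : V → Fin N} (hf : ∀ p, f p ∈ U p) (hf' : ∀ p, f' p ∈ U p) {p p' : V}
    (h : f p = f' p') : p = p' := by
  by_contra hne
  exact Finset.disjoint_left.1 (hU p p' hne) (hf p) (h ▸ hf' p')

/-- Proof: `f g ∈ atm γ f g` since `γ g = g`, so `f g = f' p'` for some `p'` with `γ p' = g'`;
`pos_eq`: `g = p'`, so `g = γ g = g'`.  For `γ p = g`: `f p ∈ atm γ f' g`, `f p = f' p''`, `p = p''`. -/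
theorem atm_inj {U : V → Finset (Fin N)} (hU : ∀ p p', p ≠ p' → Disjoint (U p) (U p'))
    {γ : V → V} {f f' : V → Fin N} (hf : ∀ p, f p ∈ U p) (hf' : ∀ p, f' p ∈ U p) {g g' : V}
    (hg : g ∈ Gr γ) (h : atm γ f g = atm γ f' g') : g = g' ∧ ∀ p, γ p = g → f p = f' p := by
  have hg1 : γ g = g := mem_Gr.1 hg
  have h1 : f g ∈ atm γ f' g' := by
    rw [← h]
    exact Finset.mem_image.2 ⟨g, mem_fib.2 hg1, rfl⟩
  obtain ⟨p', hp', hp'2⟩ := Finset.mem_image.1 h1
  have h2 : g = p' := pos_eq hU hf hf' hp'2.symm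
  have hgg : g = g' := by
    rw [mem_fib, ← h2, hg1] at hp'
    exact hp'
  refine ⟨hgg, fun p hp => ?_⟩
  have h3 : f p ∈ atm γ f' g' := by
    rw [← h]
    exact Finset.mem_image.2 ⟨p, mem_fib.2 hp, rfl⟩
  obtain ⟨p'', hp'', hp''2⟩ := Finset.mem_image.1 h3
  have h4 : p = p'' := pos_eq hU hf hf' hp''2.symm
  rw [← hp''2, ← h4]

/-- Proof: `⊇`: `g ∈ D`, `a = atm γ f g`, `x = f g`, `p = g`.  `⊆`: `x = f p'` with `γ p' = g' ∈ D`,
`x ∈ U p`, `γ p = g`: `p = p'`, so `g = g'`. -/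
theorem dm_ats {U : V → Finset (Fin N)} (hU : ∀ p p', p ≠ p' → Disjoint (U p) (U p'))
    {γ : V → V} {f : V → Fin N} (hf : ∀ p, f p ∈ U p) {D : Finset V} (hD : D ⊆ Gr γ) :
    dm U γ (ats γ f D) = D := by
  classical
  ext g
  simp only [dm, Finset.mem_filter]
  constructor
  · rintro ⟨hg, a, ha, x, hx, p, hp, hxU⟩
    obtain ⟨g', hg', rfl⟩ := Finset.mem_image.1 ha
    obtain ⟨p', hp', rfl⟩ := Finset.mem_image.1 hx
    have hpp : p = p' := by
      by_contra hne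
      exact Finset.disjoint_left.1 (hU p p' hne) hxU (hf p')
    subst hpp
    rw [mem_fib] at hp hp'
    rw [← hp, hp']
    exact hg'
  · intro hg
    have hg1 : γ g = g := mem_Gr.1 (hD hg)
    refine ⟨hD hg, atm γ f g, Finset.mem_image.2 ⟨g, hg, rfl⟩, f g,
      Finset.mem_image.2 ⟨g, mem_fib.2 hg1, rfl⟩, g, mem_fib.2 hg1, hf g⟩

/-- `atm_inj`. -/
theorem card_ats {U : V → Finset (Fin N)} (hU : ∀ p p', p ≠ p' → Disjoint (U p) (U p'))
    {γ : V → V} {f : V → Fin N} (hf : ∀ p, f p ∈ U p) {D : Finset V} (hD : D ⊆ Gr γ) :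
    (ats γ f D).card = D.card := by
  refine Finset.card_image_of_injOn ?_
  intro g hg g' _ h
  exact (atm_inj hU hf hf (hD (Finset.mem_coe.1 hg)) h).1

/-- `atm_inj`. -/
theorem ats_sub_iff {U : V → Finset (Fin N)} (hU : ∀ p p', p ≠ p' → Disjoint (U p) (U p'))
    {γ : V → V} {f f' : V → Fin N} (hf : ∀ p, f p ∈ U p) (hf' : ∀ p, f' p ∈ U p)
    {D : Finset V} (hD : D ⊆ Gr γ) :
    ats γ f D ⊆ ats γ f' (Gr γ) ↔ ∀ p, γ p ∈ D → f' p = f p := by
  constructor
  · intro h p hp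
    have h1 : atm γ f (γ p) ∈ ats γ f' (Gr γ) := h (Finset.mem_image.2 ⟨γ p, hp, rfl⟩)
    obtain ⟨g', _, hg'2⟩ := Finset.mem_image.1 h1
    exact ((atm_inj hU hf hf' (hD hp) hg'2.symm).2 p rfl).symm
  · intro h a ha
    obtain ⟨g, hg, rfl⟩ := Finset.mem_image.1 ha
    refine Finset.mem_image.2 ⟨g, hD hg, ?_⟩
    refine Finset.image_congr ?_
    intro p hp
    have hp' : γ p = g := mem_fib.1 (Finset.mem_coe.1 hp)
    exact h p (hp'.symm ▸ hg)

/-- `Finset.subset_image_iff`. -/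
theorem exists_of_sub {γ : V → V} {f : V → Fin N} {W : Finset (Finset (Fin N))}
    (h : W ⊆ ats γ f (Gr γ)) : ∃ D ⊆ Gr γ, W = ats γ f D := by
  obtain ⟨D, hD, hD2⟩ := Finset.subset_image_iff.1 h
  exact ⟨D, hD, hD2.symm⟩

/-- Every position belongs to a group (`hγ`), so `ats_sub_iff` with `D = Gr γ` gives `f' = f`. -/
theorem str_inj {U : V → Finset (Fin N)} (hU : ∀ p p', p ≠ p' → Disjoint (U p) (U p'))
    {γ : V → V} (hγ : ∀ p, γ (γ p) = γ p) {f f' : V → Fin N} (hf : ∀ p, f p ∈ U p)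
    (hf' : ∀ p, f' p ∈ U p) (h : ats γ f (Gr γ) = ats γ f' (Gr γ)) : f = f' := by
  have h1 := (ats_sub_iff hU hf hf' (Finset.Subset.refl (Gr γ))).1 h.subset
  funext p
  exact (h1 p (mem_Gr.2 (hγ p))).symm

/-- Two atoms of coherent structures are equal or disjoint.
Proof: let `x = f p = f' p'` be a common element; `p = p'` (`pos_eq`), so `g = γ p = g'`, and
by coherence `f = f'` on the fibre of `g`. -/
theorem atm_eq_or_disj {U : V → Finset (Fin N)} (hU : ∀ p p', p ≠ p' → Disjoint (U p) (U p'))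
    {γ : V → V} {f f' : V → Fin N} (hf : ∀ p, f p ∈ U p) (hf' : ∀ p, f' p ∈ U p)
    (hcoh : ∀ p p', γ p = γ p' → f p = f' p → f p' = f' p') (g g' : V) :
    atm γ f g = atm γ f' g' ∨ Disjoint (atm γ f g) (atm γ f' g') := by
  by_cases hd : Disjoint (atm γ f g) (atm γ f' g')
  · exact Or.inr hd
  · left
    rw [Finset.not_disjoint_iff] at hd
    obtain ⟨x, hx, hx'⟩ := hd
    obtain ⟨p, hp, rfl⟩ := Finset.mem_image.1 hx
    obtain ⟨p', hp', hp'2⟩ := Finset.mem_image.1 hx'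
    have hpp : p = p' := pos_eq hU hf hf' hp'2.symm
    subst hpp
    rw [mem_fib] at hp hp'
    have hgg : g = g' := by rw [← hp, hp']
    subst hgg
    refine Finset.image_congr ?_
    intro q hq
    have hq' : γ q = g := mem_fib.1 (Finset.mem_coe.1 hq)
    exact hcoh p q (hp.trans hq'.symm) hp'2.symm

end Pool.Agent.Helper78.CP
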