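import Mathlib

set_option autoImplicit false

/-! Module BP-1: families of permutations with prescribed values.  Mathlib only. -/

namespace Pool.Agent.Helper78.CP

open Finset

/-- `n` times the number of the permutations with `σ a = b` is `n!`.
Proof: `(σ ↦ swap b b' * σ)` is a bijection from `{σ | σ a = b}` to `{σ | σ a = b'}`, and the
sets `{σ | σ a = b'}`, `b' : Fin n`, are a partition of all permutations. -/
theorem perm_one {n : ℕ} (a b : Fin n) :
    (n : ℝ) * ((univ.filter (fun σ : Equiv.Perm (Fin n) => σ a = b)).card : ℝ) =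
      (n.factorial : ℝ) := by
  have key : ∀ b' : Fin n, (univ.filter (fun σ : Equiv.Perm (Fin n) => σ a = b')).card =
      (univ.filter (fun σ : Equiv.Perm (Fin n) => σ a = b)).card := by
    intro b'
    apply Finset.card_bij (fun σ _ => Equiv.swap b b' * σ)
    · intro σ hσ
      have h1 := (Finset.mem_filter.1 hσ).2
      simp [h1]
    · intro σ _ τ _ h
      exact mul_left_cancel h
    · intro τ hτ
      have h1 := (Finset.mem_filter.1 hτ).2
      refine ⟨Equiv.swap b b' * τ, ?_, ?_⟩
      · simp [h1]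
      · rw [← mul_assoc, Equiv.swap_mul_self, one_mul]
  have h2 : (univ : Finset (Equiv.Perm (Fin n))).card =
      ∑ b' : Fin n, (univ.filter (fun σ : Equiv.Perm (Fin n) => σ a = b')).card :=
    Finset.card_eq_sum_card_fiberwise (fun _ _ => Finset.mem_coe.2 (Finset.mem_univ _))
  rw [Finset.sum_congr rfl (fun b' _ => key b'), Finset.sum_const, Finset.card_univ,
    Finset.card_univ, Fintype.card_perm, Fintype.card_fin, smul_eq_mul] at h2
  rw [h2]
  push_cast
  ring

/-- Proof: if `b = b'` the set is empty (and `0 ≤ n!`).  Otherwise: for fixed `a ≠ a'` the sets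
`{σ | σ a = b ∧ σ a' = b'}`, `b ≠ b'`, are a partition of all permutations in `n (n - 1)` sets of
the same size (compose with a permutation which moves the pair `(b, b')` to the other pair:
`swap`s).  Or: `Fintype.card_embedding_eq`, `Equiv.Perm` acts transitively. -/
theorem perm_two {n : ℕ} (a a' b b' : Fin n) (h : a ≠ a') :
    (n : ℝ) * ((n : ℝ) - 1) *
      ((univ.filter (fun σ : Equiv.Perm (Fin n) => σ a = b ∧ σ a' = b')).card : ℝ) ≤
      (n.factorial : ℝ) := by
  have hn1 : (1 : ℝ) ≤ (n : ℝ) := by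
    have : 1 ≤ n := by
      have := a.2
      omega
    exact_mod_cast this
  by_cases hb : b = b'
  · subst hb
    have h0 : univ.filter (fun σ : Equiv.Perm (Fin n) => σ a = b ∧ σ a' = b) = ∅ := by
      apply Finset.filter_false_of_mem
      rintro σ - ⟨h1, h2⟩
      exact h (σ.injective (h1.trans h2.symm))
    rw [h0, Finset.card_empty]
    simp
  have key : ∀ c : Fin n, c ≠ b →
      (univ.filter (fun σ : Equiv.Perm (Fin n) => σ a = b ∧ σ a' = c)).card =
      (univ.filter (fun σ : Equiv.Perm (Fin n) => σ a = b ∧ σ a' = b')).card := by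
    intro c hc
    have hsw : Equiv.swap c b' b = b := Equiv.swap_apply_of_ne_of_ne hc.symm hb
    apply Finset.card_bij (fun σ _ => Equiv.swap c b' * σ)
    · intro σ hσ
      obtain ⟨h1, h2⟩ := (Finset.mem_filter.1 hσ).2
      refine Finset.mem_filter.2 ⟨Finset.mem_univ _, ?_, ?_⟩
      · rw [Equiv.Perm.mul_apply, h1, hsw]
      · rw [Equiv.Perm.mul_apply, h2, Equiv.swap_apply_left]
    · intro σ _ τ _ h
      exact mul_left_cancel h
    · intro τ hτ
      obtain ⟨h1, h2⟩ := (Finset.mem_filter.1 hτ).2
      refine ⟨Equiv.swap c b' * τ, ?_, ?_⟩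
      · refine Finset.mem_filter.2 ⟨Finset.mem_univ _, ?_, ?_⟩
        · rw [Equiv.Perm.mul_apply, h1, hsw]
        · rw [Equiv.Perm.mul_apply, h2, Equiv.swap_apply_right]
      · rw [← mul_assoc, Equiv.swap_mul_self, one_mul]
  have h2 : (univ.filter (fun σ : Equiv.Perm (Fin n) => σ a = b)).card =
      ∑ c ∈ univ.erase b, ((univ.filter (fun σ : Equiv.Perm (Fin n) => σ a = b)).filter
        (fun σ => σ a' = c)).card := by
    apply Finset.card_eq_sum_card_fiberwise
    intro σ hσ
    have h1 := (Finset.mem_filter.1 (Finset.mem_coe.1 hσ)).2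
    refine Finset.mem_coe.2 (Finset.mem_erase.2 ⟨?_, Finset.mem_univ _⟩)
    intro h3
    exact h (σ.injective (h1.trans h3.symm))
  have h3 : ∀ c ∈ univ.erase b, ((univ.filter (fun σ : Equiv.Perm (Fin n) => σ a = b)).filter
        (fun σ => σ a' = c)).card =
      (univ.filter (fun σ : Equiv.Perm (Fin n) => σ a = b ∧ σ a' = b')).card := by
    intro c hc
    rw [Finset.filter_filter, ← key c (Finset.ne_of_mem_erase hc)]
  rw [Finset.sum_congr rfl h3, Finset.sum_const, smul_eq_mul,
    Finset.card_erase_of_mem (Finset.mem_univ _), Finset.card_univ, Fintype.card_fin] at h2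
  have h4 := perm_one a b
  rw [h2] at h4
  have hn : 1 ≤ n := by exact_mod_cast hn1
  rw [← h4]
  push_cast [Nat.cast_sub hn]
  apply le_of_eq
  ring

variable {V : Type*} [Fintype V] [DecidableEq V]

/-- Proof: `Fintype.piFinset`, `Fintype.card_piFinset`, `perm_one` for `p ∈ P`, all permutations
for `p ∉ P`. -/
theorem card_comp1 {n : ℕ} (P : Finset V) (a b : V → Fin n) :
    (n : ℝ) ^ P.card *
      ((univ.filter (fun τ : V → Equiv.Perm (Fin n) => ∀ p ∈ P, τ p (a p) = b p)).card : ℝ) =
      (n.factorial : ℝ) ^ Fintype.card V := by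
  have h1 : univ.filter (fun τ : V → Equiv.Perm (Fin n) => ∀ p ∈ P, τ p (a p) = b p) =
      Fintype.piFinset (fun p => if p ∈ P then
        univ.filter (fun σ : Equiv.Perm (Fin n) => σ (a p) = b p) else univ) := by
    ext τ
    rw [Finset.mem_filter, Fintype.mem_piFinset]
    constructor
    · rintro ⟨-, h⟩ p
      by_cases hp : p ∈ P
      · rw [if_pos hp]
        exact Finset.mem_filter.2 ⟨Finset.mem_univ _, h p hp⟩
      · rw [if_neg hp]
        exact Finset.mem_univ _
    · intro h
      refine ⟨Finset.mem_univ _, fun p hp => ?_⟩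
      have := h p
      rw [if_pos hp] at this
      exact (Finset.mem_filter.1 this).2
  have h2 : (n : ℝ) ^ P.card = ∏ p : V, (if p ∈ P then (n : ℝ) else 1) := by
    rw [Finset.prod_ite_mem, Finset.univ_inter, Finset.prod_const]
  rw [h1, Fintype.card_piFinset, h2, Nat.cast_prod, ← Finset.prod_mul_distrib,
    ← Finset.card_univ, ← Finset.prod_const]
  apply Finset.prod_congr rfl
  intro p _
  by_cases hp : p ∈ P
  · rw [if_pos hp, if_pos hp]
    exact perm_one (a p) (b p)
  · rw [if_neg hp, if_neg hp, one_mul, Finset.card_univ, Fintype.card_perm, Fintype.card_fin]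

/-- Proof: if there is `p ∈ P` with `a p = a' p`, `b p ≠ b' p` the set is empty.  Otherwise it is
a `Fintype.piFinset`: `perm_two` for `p ∈ K`, at most `perm_one` for `p ∈ P \ K`, everything for
`p ∉ P` (`Finset.prod_le_prod`, `Finset.prod_ite_mem`; all factors are nonnegative; if `n = 0`
then `V` is empty or there is nothing to prove since `a p : Fin 0`). -/
theorem card_comp2 {n : ℕ} (hn : 1 ≤ n) (P K : Finset V) (hK : K ⊆ P) (a b a' b' : V → Fin n)
    (h : (∀ p ∈ K, a p ≠ a' p) ∨ ∃ p ∈ P, a p = a' p ∧ b p ≠ b' p) :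
    (n : ℝ) ^ P.card * ((n : ℝ) - 1) ^ K.card *
      ((univ.filter (fun τ : V → Equiv.Perm (Fin n) =>
        (∀ p ∈ P, τ p (a p) = b p) ∧ ∀ p ∈ P, τ p (a' p) = b' p)).card : ℝ) ≤
      (n.factorial : ℝ) ^ Fintype.card V := by
  have hn1 : (0 : ℝ) ≤ (n : ℝ) - 1 := by
    have : (1 : ℝ) ≤ (n : ℝ) := by exact_mod_cast hn
    linarith
  rcases h with h | ⟨p, hp, hpa, hpb⟩
  · have h1 : univ.filter (fun τ : V → Equiv.Perm (Fin n) =>
          (∀ p ∈ P, τ p (a p) = b p) ∧ ∀ p ∈ P, τ p (a' p) = b' p) ⊆
        Fintype.piFinset (fun p => if p ∈ P then (if p ∈ K then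
          univ.filter (fun σ : Equiv.Perm (Fin n) => σ (a p) = b p ∧ σ (a' p) = b' p) else
          univ.filter (fun σ : Equiv.Perm (Fin n) => σ (a p) = b p)) else univ) := by
      intro τ hτ
      obtain ⟨h1, h2⟩ := (Finset.mem_filter.1 hτ).2
      rw [Fintype.mem_piFinset]
      intro p
      by_cases hp : p ∈ P
      · rw [if_pos hp]
        by_cases hk : p ∈ K
        · rw [if_pos hk]
          exact Finset.mem_filter.2 ⟨Finset.mem_univ _, h1 p hp, h2 p hp⟩
        · rw [if_neg hk]
          exact Finset.mem_filter.2 ⟨Finset.mem_univ _, h1 p hp⟩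
      · rw [if_neg hp]
        exact Finset.mem_univ _
    have h2 : (n : ℝ) ^ P.card = ∏ p : V, (if p ∈ P then (n : ℝ) else 1) := by
      rw [Finset.prod_ite_mem, Finset.univ_inter, Finset.prod_const]
    have h3 : ((n : ℝ) - 1) ^ K.card = ∏ p : V, (if p ∈ K then ((n : ℝ) - 1) else 1) := by
      rw [Finset.prod_ite_mem, Finset.univ_inter, Finset.prod_const]
    have h4 := Finset.card_le_card h1
    rw [Fintype.card_piFinset] at h4
    have h5 : ((univ.filter (fun τ : V → Equiv.Perm (Fin n) =>
          (∀ p ∈ P, τ p (a p) = b p) ∧ ∀ p ∈ P, τ p (a' p) = b' p)).card : ℝ) ≤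
        ∏ p : V, (((if p ∈ P then (if p ∈ K then
          univ.filter (fun σ : Equiv.Perm (Fin n) => σ (a p) = b p ∧ σ (a' p) = b' p) else
          univ.filter (fun σ : Equiv.Perm (Fin n) => σ (a p) = b p)) else univ).card : ℕ) : ℝ) := by
      rw [← Nat.cast_prod]
      exact_mod_cast h4
    refine (mul_le_mul_of_nonneg_left h5 (by positivity)).trans ?_
    rw [h2, h3, ← Finset.prod_mul_distrib, ← Finset.prod_mul_distrib, ← Finset.card_univ,
      ← Finset.prod_const]
    apply Finset.prod_le_prod
    · intro p _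
      apply mul_nonneg
      · apply mul_nonneg <;> split_ifs <;> first | positivity | exact hn1
      · positivity
    · intro p _
      by_cases hp : p ∈ P
      · rw [if_pos hp, if_pos hp]
        by_cases hk : p ∈ K
        · rw [if_pos hk, if_pos hk]
          exact perm_two (a p) (a' p) (b p) (b' p) (h p hk)
        · rw [if_neg hk, if_neg hk, mul_one]
          exact (perm_one (a p) (b p)).le
      · have hk : p ∉ K := fun hk => hp (hK hk)
        rw [if_neg hp, if_neg hp, if_neg hk, one_mul, one_mul, Finset.card_univ,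
          Fintype.card_perm, Fintype.card_fin]
  · have h0 : univ.filter (fun τ : V → Equiv.Perm (Fin n) =>
        (∀ p ∈ P, τ p (a p) = b p) ∧ ∀ p ∈ P, τ p (a' p) = b' p) = ∅ := by
      apply Finset.filter_false_of_mem
      rintro τ - ⟨h1, h2⟩
      apply hpb
      rw [← h1 p hp, ← h2 p hp, hpa]
    rw [h0, Finset.card_empty]
    simp

end Pool.Agent.Helper78.CP
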