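import Pool.Agent.Helper78.CP.BLift
import Pool.Agent.Helper78.CP.BPerm

set_option autoImplicit false

/-! Module BP-3: compatible structures. -/

namespace Pool.Agent.Helper78.CP

open Finset

variable {N : ℕ} {V : Type*} [Fintype V] [DecidableEq V]

/-- The positions of the blocks which are not representatives. -/
def Pp (γ' : V → V) (S : Finset V) : Finset V := S.filter (fun p => γ' p ≠ p)

private theorem bp3_card_gen {γ γ' : V → V} {S : Finset V} {m : ℕ} (h : Glue γ γ' S m)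
    {T : Finset V} (hT : T ⊆ Rp γ' S) :
    ((Pp γ' S).filter (fun p => γ' p ∈ T)).card = (m - 1) * T.card := by
  have hmap : ∀ p ∈ (Pp γ' S).filter (fun p => γ' p ∈ T), γ' p ∈ T := fun p hp =>
    (Finset.mem_filter.1 hp).2
  rw [Finset.card_eq_sum_card_fiberwise hmap]
  have hfib : ∀ g ∈ T, (((Pp γ' S).filter (fun p => γ' p ∈ T)).filter (fun p => γ' p = g)).card =
      m - 1 := by
    intro g hg
    obtain ⟨hgS, hgg⟩ := mem_Rp.1 (hT hg)
    have heq : ((Pp γ' S).filter (fun p => γ' p ∈ T)).filter (fun p => γ' p = g) =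
        (fib γ' g).erase g := by
      ext p
      simp only [Pp, fib, Finset.mem_filter, Finset.mem_erase, Finset.mem_univ, true_and]
      constructor
      · rintro ⟨⟨⟨_, h2⟩, _⟩, h4⟩
        exact ⟨fun h5 => h2 (by rw [h4, h5]), h4⟩
      · rintro ⟨h2, h3⟩
        refine ⟨⟨⟨?_, ?_⟩, ?_⟩, h3⟩
        · rw [← h.mem_iff, h3]
          exact hgS
        · rw [h3]
          exact fun h5 => h2 h5.symm
        · rw [h3]
          exact hg
    have hmem : g ∈ fib γ' g := by simp [fib, hgg]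
    rw [heq, Finset.card_erase_of_mem hmem, h.size g hgS hgg]
  rw [Finset.sum_congr rfl hfib, Finset.sum_const, smul_eq_mul, mul_comm]

private theorem bp3_mapRp {γ γ' : V → V} {S : Finset V} {m : ℕ} (h : Glue γ γ' S m) {p : V}
    (hp : p ∈ S) : γ' p ∈ Rp γ' S := mem_Rp.2 ⟨h.inn p hp, h.idem' p⟩

/-- `Pp` is the union of `fib γ' g \ {g}`, `g ∈ Rp γ' S`; each has `m - 1` elements. -/
theorem Glue.card_Pp {γ γ' : V → V} {S : Finset V} {m : ℕ} (h : Glue γ γ' S m) :
    (Pp γ' S).card = (m - 1) * (Rp γ' S).card := by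
  have h1 := bp3_card_gen h (Finset.Subset.refl (Rp γ' S))
  rw [← h1]
  congr 1
  symm
  rw [Finset.filter_eq_self]
  intro p hp
  exact bp3_mapRp h (Finset.mem_filter.1 hp).1

/-- As `card_Pp`. -/
theorem Glue.card_Pp_filter {γ γ' : V → V} {S : Finset V} {m : ℕ} (h : Glue γ γ' S m)
    {J : Finset V} (hJ : J ⊆ Rp γ' S) :
    ((Pp γ' S).filter (fun p => γ' p ∉ J)).card = (m - 1) * ((Rp γ' S).card - J.card) := by
  have h1 := bp3_card_gen h (T := Rp γ' S \ J) Finset.sdiff_subset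
  rw [← Finset.card_sdiff_of_subset hJ, ← h1]
  congr 1
  ext p
  simp only [Finset.mem_filter, Finset.mem_sdiff]
  constructor
  · rintro ⟨h2, h3⟩
    exact ⟨h2, bp3_mapRp h (Finset.mem_filter.1 h2).1, h3⟩
  · rintro ⟨h2, _, h3⟩
    exact ⟨h2, h3⟩

/-- Compatible structures are coherent for `γ'`.
Proof: let `i = γ' p = γ' p'`.  If `p ∉ S` then `p' ∉ S` (`mem_iff`) and `γ p = γ' p = γ' p' = γ p'`:
`hcoh`.  If `p ∈ S`: `f i = f' i` (for `p ≠ i`: `τ p (en i (f i)) = en p (f p) = en p (f' p)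
= τ p (en i (f' i))`, and `en i` is injective on `U i`), then in the same way `f p' = f' p'`. -/
theorem comp_coh {γ γ' : V → V} {S : Finset V} {m n : ℕ} (h : Glue γ γ' S m)
    {U : V → Finset (Fin N)} {en : V → Fin N → Fin n}
    (hen : ∀ p ∈ S, Set.InjOn (en p) (U p)) {τ : V → Equiv.Perm (Fin n)}
    {f f' : V → Fin N} (hf : ∀ p, f p ∈ U p) (hf' : ∀ p, f' p ∈ U p)
    (hcoh : ∀ p p', γ p = γ p' → f p = f' p → f p' = f' p')
    (hc : comp γ' S en τ f) (hc' : comp γ' S en τ f') :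
    ∀ p p', γ' p = γ' p' → f p = f' p → f p' = f' p' := by
  intro p p' hpp hfp
  by_cases hS : p ∈ S
  · have hS' : p' ∈ S := by
      rw [← h.mem_iff, ← hpp, h.mem_iff]
      exact hS
    have hi : f (γ' p) = f' (γ' p) := by
      by_cases hpi : γ' p = p
      · rw [hpi]
        exact hfp
      · have h1 := hc p hS hpi
        have h2 := hc' p hS hpi
        rw [← hfp, ← h1] at h2
        have h3 := (τ p).injective h2
        exact (hen (γ' p) (h.inn p hS) (hf' _) (hf _) h3).symm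
    by_cases hpi : γ' p' = p'
    · rw [← hpi, ← hpp]
      exact hi
    · have h1 := hc p' hS' hpi
      have h2 := hc' p' hS' hpi
      rw [← hpp] at h1 h2
      rw [← hi, h1] at h2
      exact hen p' hS' (hf _) (hf' _) h2
  · have hS' : p' ∉ S := by
      rw [← h.mem_iff, ← hpp, h.mem_iff]
      exact hS
    apply hcoh p p' _ hfp
    rw [← h.out p hS, ← h.out p' hS', hpp]

private theorem bp3_comp_iff {γ' : V → V} {S : Finset V} {n : ℕ}
    (en : V → Fin N → Fin n) (f : V → Fin N) (τ : V → Equiv.Perm (Fin n)) :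
    comp γ' S en τ f ↔ ∀ p ∈ Pp γ' S, τ p (en (γ' p) (f (γ' p))) = en p (f p) := by
  unfold comp Pp
  constructor
  · intro h p hp
    exact h p (Finset.mem_filter.1 hp).1 (Finset.mem_filter.1 hp).2
  · intro h p hp1 hp2
    exact h p (Finset.mem_filter.2 ⟨hp1, hp2⟩)

open Classical in
/-- `card_comp1` with `P = Pp γ' S`, `a p = en (γ' p) (f (γ' p))`, `b p = en p (f p)`, and
`card_Pp`. -/
theorem card_comp {γ γ' : V → V} {S : Finset V} {m n : ℕ} (h : Glue γ γ' S m)
    (en : V → Fin N → Fin n) (f : V → Fin N) :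
    (n : ℝ) ^ ((m - 1) * (Rp γ' S).card) *
      ((univ.filter (fun τ : V → Equiv.Perm (Fin n) => comp γ' S en τ f)).card : ℝ) =
      (n.factorial : ℝ) ^ Fintype.card V := by
  have h1 := card_comp1 (Pp γ' S) (fun p => en (γ' p) (f (γ' p))) (fun p => en p (f p))
  rw [h.card_Pp] at h1
  rw [← h1]
  congr 3
  ext τ
  simp only [Finset.mem_filter, Finset.mem_univ, true_and]
  exact bp3_comp_iff en f τ

open Classical in
/-- Two structures which agree on all positions of the blocks of `J` (and on no other whole block).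
Proof: `card_comp2` with `P = Pp γ' S`, `K = P.filter (γ' p ∉ J)`, `card_Pp`, `card_Pp_filter`.
If `f i ≠ f' i` for all `i ∈ Rp γ' S \ J` then `a p ≠ a' p` for `p ∈ K` (`hen`).  Otherwise take
`i ∈ Rp γ' S \ J` with `f i = f' i`; by `hJ` there is `p ∈ S`, `γ' p = i`, `f p ≠ f' p`, so `p ≠ i`,
`p ∈ P`, `a p = a' p`, `b p ≠ b' p`. -/
theorem card_comp_two {γ γ' : V → V} {S : Finset V} {m n : ℕ} (hn : 1 ≤ n) (h : Glue γ γ' S m)
    {U : V → Finset (Fin N)} {en : V → Fin N → Fin n}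
    (hen : ∀ p ∈ S, Set.InjOn (en p) (U p)) {f f' : V → Fin N} (hf : ∀ p, f p ∈ U p)
    (hf' : ∀ p, f' p ∈ U p) {J : Finset V} (hJR : J ⊆ Rp γ' S)
    (hJ : ∀ i ∈ Rp γ' S, i ∉ J → ∃ p, γ' p = i ∧ f p ≠ f' p) :
    (n : ℝ) ^ ((m - 1) * (Rp γ' S).card) * ((n : ℝ) - 1) ^ ((m - 1) * ((Rp γ' S).card - J.card)) *
      ((univ.filter (fun τ : V → Equiv.Perm (Fin n) =>
        comp γ' S en τ f ∧ comp γ' S en τ f')).card : ℝ) ≤
      (n.factorial : ℝ) ^ Fintype.card V := by
  have hcond : (∀ p ∈ (Pp γ' S).filter (fun p => γ' p ∉ J),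
      (fun p => en (γ' p) (f (γ' p))) p ≠ (fun p => en (γ' p) (f' (γ' p))) p) ∨
      ∃ p ∈ Pp γ' S, (fun p => en (γ' p) (f (γ' p))) p = (fun p => en (γ' p) (f' (γ' p))) p ∧
        (fun p => en p (f p)) p ≠ (fun p => en p (f' p)) p := by
    by_cases hex : ∃ i ∈ Rp γ' S, i ∉ J ∧ f i = f' i
    · right
      obtain ⟨i, hi1, hi2, hi3⟩ := hex
      obtain ⟨p, hp1, hp2⟩ := hJ i hi1 hi2
      have hpi : p ≠ i := fun h5 => hp2 (by rw [h5, hi3])
      have hpS : p ∈ S := by
        rw [← h.mem_iff, hp1]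
        exact (mem_Rp.1 hi1).1
      refine ⟨p, Finset.mem_filter.2 ⟨hpS, by rw [hp1]; exact fun h5 => hpi h5.symm⟩, ?_, ?_⟩
      · simp only [hp1, hi3]
      · intro h5
        exact hp2 (hen p hpS (hf _) (hf' _) h5)
    · left
      intro p hp h5
      obtain ⟨hp1, hp2⟩ := Finset.mem_filter.1 hp
      have hpS := (Finset.mem_filter.1 hp1).1
      apply hex
      exact ⟨γ' p, bp3_mapRp h hpS, hp2, hen (γ' p) (h.inn p hpS) (hf _) (hf' _) h5⟩
  have h1 := card_comp2 hn (Pp γ' S) ((Pp γ' S).filter (fun p => γ' p ∉ J))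
    (Finset.filter_subset _ _) (fun p => en (γ' p) (f (γ' p))) (fun p => en p (f p))
    (fun p => en (γ' p) (f' (γ' p))) (fun p => en p (f' p)) hcond
  rw [h.card_Pp, h.card_Pp_filter hJR] at h1
  refine le_trans (le_of_eq ?_) h1
  congr 3
  ext τ
  simp only [Finset.mem_filter, Finset.mem_univ, true_and]
  rw [bp3_comp_iff en f τ, bp3_comp_iff en f' τ]

open Classical in
/-- **The conditional mean.**
Proof: for `f'` in the sum put `J f' = (Rp γ' S).filter (fun i => ∀ p, γ' p = i → f' p = f p)`.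
Then `D ∩ S ⊆ J f'` (`D ∩ S ⊆ Rp γ' S` by `mem_Gr`), `card_comp_two` bounds the term by
`(n!) ^ |V| / (n ^ .. (n - 1) ^ ..)`, and `f'` is counted in `cnt F γ f (lift γ' S (D ∪ J f'))`
(`lift_iff`: `γ p ∈ lift (D ∪ J)` iff `γ' p ∈ D ∪ J`).  Sum over the possible values of `J f'`
(`Finset.sum_fiberwise_of_maps_to` or `sum_le_sum_of ...`). -/
theorem cond_mean {γ γ' : V → V} {S : Finset V} {m n : ℕ} (hn : 2 ≤ n) (h : Glue γ γ' S m)
    {U : V → Finset (Fin N)} {en : V → Fin N → Fin n}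
    (hen : ∀ p ∈ S, Set.InjOn (en p) (U p)) {F : Finset (V → Fin N)}
    (hF : ∀ f ∈ F, ∀ p, f p ∈ U p) {f : V → Fin N} (hf : f ∈ F) {D : Finset V}
    (hD : D ⊆ Gr γ') :
    (n : ℝ) ^ ((m - 1) * (Rp γ' S).card) *
      ∑ f' ∈ F.filter (fun f' => ∀ p, γ' p ∈ D → f' p = f p),
        ((univ.filter (fun τ : V → Equiv.Perm (Fin n) =>
          comp γ' S en τ f ∧ comp γ' S en τ f')).card : ℝ) ≤
      (n.factorial : ℝ) ^ Fintype.card V *
        ∑ J ∈ (Rp γ' S).powerset.filter (fun J => D ∩ S ⊆ J),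
          (((n : ℝ) - 1) ^ ((m - 1) * ((Rp γ' S).card - J.card)))⁻¹ *
            (cnt F γ f (lift γ' S (D ∪ J)) : ℝ) := by
  set JJ : (V → Fin N) → Finset V := fun f' =>
    (Rp γ' S).filter (fun i => ∀ p, γ' p = i → f' p = f p) with hJJ
  have hn1 : (0 : ℝ) < (n : ℝ) - 1 := by
    have : (2 : ℝ) ≤ n := by exact_mod_cast hn
    linarith
  set A : ℝ := (n : ℝ) ^ ((m - 1) * (Rp γ' S).card) with hA
  set B : ℝ := (n.factorial : ℝ) ^ Fintype.card V with hB
  have hB0 : 0 ≤ B := pow_nonneg (Nat.cast_nonneg _) _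
  set Fd := F.filter (fun f' => ∀ p, γ' p ∈ D → f' p = f p) with hFd
  set w : Finset V → ℝ := fun J => (((n : ℝ) - 1) ^ ((m - 1) * ((Rp γ' S).card - J.card)))⁻¹ with hw
  have hw0 : ∀ J, 0 ≤ w J := fun J => inv_nonneg.2 (pow_nonneg hn1.le _)
  have hterm : ∀ f' ∈ Fd, A * ((univ.filter (fun τ : V → Equiv.Perm (Fin n) =>
      comp γ' S en τ f ∧ comp γ' S en τ f')).card : ℝ) ≤ B * w (JJ f') := by
    intro f' hf'
    have hf'F := (Finset.mem_filter.1 hf').1
    have h1 := card_comp_two (n := n) (by omega) h hen (hF f hf) (hF f' hf'F) (J := JJ f')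
      (Finset.filter_subset _ _) (by
        intro i hi hiJ
        by_contra hcon
        push Not at hcon
        apply hiJ
        rw [hJJ]
        exact Finset.mem_filter.2 ⟨hi, fun p hp => (hcon p hp).symm⟩)
    have hpos : 0 < ((n : ℝ) - 1) ^ ((m - 1) * ((Rp γ' S).card - (JJ f').card)) :=
      pow_pos hn1 _
    simp only [hw]
    rw [← div_eq_mul_inv, le_div_iff₀ hpos]
    refine le_trans (le_of_eq ?_) h1
    ring
  have hmaps : ∀ f' ∈ Fd, JJ f' ∈ (Rp γ' S).powerset.filter (fun J => D ∩ S ⊆ J) := by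
    intro f' hf'
    rw [Finset.mem_filter, Finset.mem_powerset]
    refine ⟨Finset.filter_subset _ _, fun i hi => ?_⟩
    obtain ⟨hiD, hiS⟩ := Finset.mem_inter.1 hi
    have hig : γ' i = i := by
      have := hD hiD
      simpa [Gr] using this
    refine Finset.mem_filter.2 ⟨mem_Rp.2 ⟨hiS, hig⟩, fun p hp => ?_⟩
    exact (Finset.mem_filter.1 hf').2 p (by rw [hp]; exact hiD)
  rw [Finset.mul_sum]
  refine (Finset.sum_le_sum hterm).trans ?_
  rw [← Finset.mul_sum]
  refine mul_le_mul_of_nonneg_left ?_ hB0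
  rw [← Finset.sum_fiberwise_of_maps_to hmaps]
  refine Finset.sum_le_sum fun J hJ => ?_
  have hsum : ∑ f' ∈ Fd.filter (fun f' => JJ f' = J), w (JJ f') =
      w J * ((Fd.filter (fun f' => JJ f' = J)).card : ℝ) := by
    rw [Finset.sum_congr rfl (fun f' hf' => by rw [(Finset.mem_filter.1 hf').2]),
      Finset.sum_const, nsmul_eq_mul, mul_comm]
  rw [hsum]
  refine mul_le_mul_of_nonneg_left ?_ (hw0 J)
  have hJR : J ⊆ Rp γ' S := Finset.mem_powerset.1 (Finset.mem_filter.1 hJ).1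
  have hDJ : D ∪ J ⊆ Gr γ' := by
    refine Finset.union_subset hD fun i hi => ?_
    have := (mem_Rp.1 (hJR hi)).2
    simp [Gr, this]
  unfold cnt
  have hsub : Fd.filter (fun f' => JJ f' = J) ⊆
      F.filter (fun f' => ∀ p, γ p ∈ lift γ' S (D ∪ J) → f' p = f p) := by
    intro f' hf'
    obtain ⟨h1, h2⟩ := Finset.mem_filter.1 hf'
    obtain ⟨h3, h4⟩ := Finset.mem_filter.1 h1
    refine Finset.mem_filter.2 ⟨h3, fun p hp => ?_⟩
    rw [h.lift_iff hDJ, Finset.mem_union] at hp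
    rcases hp with hp | hp
    · exact h4 p hp
    · rw [← h2] at hp
      exact (Finset.mem_filter.1 hp).2 p rfl
  exact_mod_cast Finset.card_le_card hsub

end Pool.Agent.Helper78.CP
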