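import Mathlib

set_option autoImplicit false

/-! Module BP-2: choice of the bijections by averaging, and pruning.  Mathlib only. -/

namespace Pool.Agent.Helper78.CP

open Finset

open Classical in
/-- Proof.  Let `F τ = F.filter (comp τ)`, `c τ f D = #{f' ∈ F τ | rel D f f'}`.
`∑ τ, (|F τ| - ∑ f ∈ F τ, ∑ D, c τ f D / cap D) =
  ∑ f ∈ F, #{τ | comp τ f} - ∑ D, (1 / cap D) ∑ f ∈ F, ∑ f' ∈ F.filter (rel D f), #{τ | both}`
`≥ p0 |Ω| |F| - ∑ D, p0 |Ω| |F| X D / cap D ≥ p0 |Ω| |F| / 2`.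
So there is `τ` with `|F τ| - ∑ ∑ c / cap ≥ p0 |F| / 2` (`Finset.exists_le_of_sum_le` or by
contradiction).  Let `F''` be the set of the `f ∈ F τ` with `c τ f D ≤ cap D` for all `D ∈ DD`.
Every deleted `f` has `1 ≤ ∑ D, c τ f D / cap D`, so at most `∑ f ∑ D c / cap` are deleted. -/
theorem avg_prune {Ω ι κ : Type*} [Fintype Ω] [Nonempty Ω] (F : Finset ι) (DD : Finset κ)
    (rel : κ → ι → ι → Prop) (comp : Ω → ι → Prop) {p0 : ℝ} (hp0 : 0 ≤ p0)
    (h1 : ∀ f ∈ F, ((univ.filter (fun τ => comp τ f)).card : ℝ) = p0 * Fintype.card Ω)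
    (X cap : κ → ℝ) (hcap : ∀ D ∈ DD, 0 < cap D)
    (h2 : ∀ f ∈ F, ∀ D ∈ DD,
      ∑ f' ∈ F.filter (fun f' => rel D f f'),
        ((univ.filter (fun τ => comp τ f ∧ comp τ f')).card : ℝ) ≤ p0 * Fintype.card Ω * X D)
    (hX : ∑ D ∈ DD, X D / cap D ≤ 1 / 2) :
    ∃ τ, ∃ F'' ⊆ F, (∀ f ∈ F'', comp τ f) ∧ p0 * F.card / 2 ≤ (F''.card : ℝ) ∧
      ∀ f ∈ F'', ∀ D ∈ DD, ((F''.filter (fun f' => rel D f f')).card : ℝ) ≤ cap D := by
  classical
  set χ : Ω → ι → ℝ := fun τ f => if comp τ f then 1 else 0 with hχ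
  have hχ0 : ∀ τ f, 0 ≤ χ τ f := by
    intro τ f
    simp only [hχ]
    split_ifs <;> norm_num
  set FF : Ω → Finset ι := fun τ => F.filter (fun f => comp τ f) with hFF
  set c : Ω → ι → κ → ℝ := fun τ f D => (((FF τ).filter (fun f' => rel D f f')).card : ℝ) with hc
  have hcardFF : ∀ τ, ((FF τ).card : ℝ) = ∑ f ∈ F, χ τ f := by
    intro τ
    simp only [hFF, hχ, Finset.sum_boole]
  have hcsum : ∀ τ f D, c τ f D = ∑ f' ∈ F.filter (fun f' => rel D f f'), χ τ f' := by
    intro τ f D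
    simp only [hc, hFF, hχ, Finset.sum_boole, Finset.filter_filter]
    congr 2
    ext x
    simp only [Finset.mem_filter]
    tauto
  have h1' : ∀ f ∈ F, ∑ τ, χ τ f = p0 * Fintype.card Ω := by
    intro f hf
    rw [← h1 f hf]
    simp only [hχ, Finset.sum_boole]
  have h2' : ∀ f ∈ F, ∀ D ∈ DD, ∑ f' ∈ F.filter (fun f' => rel D f f'),
      ∑ τ, χ τ f * χ τ f' ≤ p0 * Fintype.card Ω * X D := by
    intro f hf D hD
    refine le_trans (le_of_eq ?_) (h2 f hf D hD)
    refine Finset.sum_congr rfl fun f' _ => ?_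
    rw [← Finset.sum_boole]
    refine Finset.sum_congr rfl fun τ _ => ?_
    simp only [hχ]
    by_cases ha : comp τ f <;> by_cases hb : comp τ f' <;> simp [ha, hb]
  set W : Ω → ℝ := fun τ => ∑ f ∈ FF τ, ∑ D ∈ DD, c τ f D / cap D with hW
  have hWsum : ∀ τ, W τ = ∑ f ∈ F, ∑ D ∈ DD, (∑ f' ∈ F.filter (fun f' => rel D f f'),
      χ τ f * χ τ f') / cap D := by
    intro τ
    simp only [hW, hFF]
    rw [Finset.sum_filter]
    refine Finset.sum_congr rfl fun f _ => ?_
    by_cases ha : comp τ f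
    · rw [if_pos ha]
      refine Finset.sum_congr rfl fun D _ => ?_
      rw [hcsum]
      congr 1
      refine Finset.sum_congr rfl fun f' _ => ?_
      simp [hχ, ha]
    · rw [if_neg ha]
      symm
      refine Finset.sum_eq_zero fun D _ => ?_
      rw [Finset.sum_eq_zero fun f' _ => by simp [hχ, ha], zero_div]
  have htot1 : ∑ τ, ((FF τ).card : ℝ) = p0 * Fintype.card Ω * F.card := by
    simp_rw [hcardFF]
    rw [Finset.sum_comm, Finset.sum_congr rfl h1', Finset.sum_const, nsmul_eq_mul]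
    ring
  have htot2 : ∑ τ, W τ ≤ p0 * Fintype.card Ω * F.card * (1 / 2) := by
    simp_rw [hWsum]
    rw [Finset.sum_comm]
    have hone : ∀ f ∈ F, ∑ τ, ∑ D ∈ DD, (∑ f' ∈ F.filter (fun f' => rel D f f'),
        χ τ f * χ τ f') / cap D ≤ p0 * Fintype.card Ω * (1 / 2) := by
      intro f hf
      rw [Finset.sum_comm]
      have hD : ∀ D ∈ DD, ∑ τ, (∑ f' ∈ F.filter (fun f' => rel D f f'),
          χ τ f * χ τ f') / cap D ≤ p0 * Fintype.card Ω * (X D / cap D) := by
        intro D hD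
        rw [← Finset.sum_div, Finset.sum_comm]
        rw [← mul_div_assoc]
        exact div_le_div_of_nonneg_right (h2' f hf D hD) (hcap D hD).le
      refine (Finset.sum_le_sum hD).trans ?_
      rw [← Finset.mul_sum]
      exact mul_le_mul_of_nonneg_left hX (mul_nonneg hp0 (Nat.cast_nonneg _))
    refine (Finset.sum_le_sum hone).trans ?_
    rw [Finset.sum_const, nsmul_eq_mul]
    apply le_of_eq
    ring
  obtain ⟨τ, -, hτ⟩ : ∃ τ ∈ (univ : Finset Ω), p0 * F.card / 2 ≤ ((FF τ).card : ℝ) - W τ := by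
    apply Finset.exists_le_of_sum_le Finset.univ_nonempty
    rw [Finset.sum_sub_distrib, htot1, Finset.sum_const, nsmul_eq_mul, Finset.card_univ]
    linarith
  have hcnn : ∀ f D, 0 ≤ c τ f D := fun f D => Nat.cast_nonneg _
  refine ⟨τ, (FF τ).filter (fun f => ∀ D ∈ DD, c τ f D ≤ cap D), ?_, ?_, ?_, ?_⟩
  · exact (Finset.filter_subset _ _).trans (Finset.filter_subset _ _)
  · intro f hf
    exact (Finset.mem_filter.1 (Finset.mem_filter.1 hf).1).2
  · have hdel : (((FF τ).filter (fun f => ¬ ∀ D ∈ DD, c τ f D ≤ cap D)).card : ℝ) ≤ W τ := by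
      have h3 : (((FF τ).filter (fun f => ¬ ∀ D ∈ DD, c τ f D ≤ cap D)).card : ℝ) =
          ∑ f ∈ (FF τ).filter (fun f => ¬ ∀ D ∈ DD, c τ f D ≤ cap D), (1 : ℝ) := by
        simp
      rw [h3]
      have h4 : ∑ f ∈ (FF τ).filter (fun f => ¬ ∀ D ∈ DD, c τ f D ≤ cap D), (1 : ℝ) ≤
          ∑ f ∈ (FF τ).filter (fun f => ¬ ∀ D ∈ DD, c τ f D ≤ cap D),
            ∑ D ∈ DD, c τ f D / cap D := by
        refine Finset.sum_le_sum fun f hf => ?_
        have h5 := (Finset.mem_filter.1 hf).2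
        push Not at h5
        obtain ⟨D, hD, h6⟩ := h5
        have h7 : 1 ≤ c τ f D / cap D := by
          rw [le_div_iff₀ (hcap D hD), one_mul]
          exact h6.le
        exact h7.trans (Finset.single_le_sum (f := fun D => c τ f D / cap D)
          (fun D' hD' => div_nonneg (hcnn f D') (hcap D' hD').le) hD)
      refine h4.trans ?_
      exact Finset.sum_le_sum_of_subset_of_nonneg (Finset.filter_subset _ _)
        fun f _ _ => Finset.sum_nonneg fun D hD => div_nonneg (hcnn f D) (hcap D hD).le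
    have hsplit := Finset.card_filter_add_card_filter_not (s := FF τ)
      (fun f => ∀ D ∈ DD, c τ f D ≤ cap D)
    have hsplit' : (((FF τ).filter (fun f => ∀ D ∈ DD, c τ f D ≤ cap D)).card : ℝ) +
        (((FF τ).filter (fun f => ¬ ∀ D ∈ DD, c τ f D ≤ cap D)).card : ℝ) = (FF τ).card := by
      exact_mod_cast hsplit
    linarith
  · intro f hf D hD
    have h5 := (Finset.mem_filter.1 hf).2 D hD
    refine le_trans ?_ h5
    simp only [hc]
    exact_mod_cast Finset.card_le_card (Finset.filter_subset_filter _ (Finset.filter_subset _ _))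

end Pool.Agent.Helper78.CP
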