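import Pool.Agent.Helper78.CP.Env
import Pool.Agent.Helper78.CP.Atoms

/-!
# The birth step: definitions

Memo: `memo_MP_d32cb0_co_helper78_PartII_v2.md` (team store), section 3.

`S` is a set of positions which are single for `γ`; `γ'` glues them to blocks with `m` positions.
The new representatives are the elements of `S` fixed by `γ'`.
-/

set_option autoImplicit false

namespace Pool.Agent.Helper78.CP

open Finset

variable {N : ℕ} {V : Type*} [Fintype V] [DecidableEq V]

/-- The relation between the old groups (`γ`) and the new groups (`γ'`). -/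
structure Glue (γ γ' : V → V) (S : Finset V) (m : ℕ) : Prop where
  idem : ∀ p, γ (γ p) = γ p
  idem' : ∀ p, γ' (γ' p) = γ' p
  fix : ∀ p ∈ S, γ p = p
  single : ∀ p ∈ S, ∀ p', γ p' = p → p' = p
  out : ∀ p, p ∉ S → γ' p = γ p
  inn : ∀ p ∈ S, γ' p ∈ S
  size : ∀ g ∈ S, γ' g = g → (fib γ' g).card = m

/-- The new representatives inside `S`. -/
def Rp (γ' : V → V) (S : Finset V) : Finset V := S.filter (fun p => γ' p = p)

/-- The old groups in the new group `g`. -/
def lf (γ' : V → V) (S : Finset V) (g : V) : Finset V := if g ∈ S then fib γ' g else {g}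

/-- The old groups in the new groups of `D`. -/
def lift (γ' : V → V) (S : Finset V) (D : Finset V) : Finset V := D.biUnion (lf γ' S)

/-- The structure `f` is compatible with the bijections `τ`; `en p` is a numbering of the vertices
allowed at the position `p`. -/
def comp {n : ℕ} (γ' : V → V) (S : Finset V) (en : V → Fin N → Fin n)
    (τ : V → Equiv.Perm (Fin n)) (f : V → Fin N) : Prop :=
  ∀ p ∈ S, γ' p ≠ p → τ p (en (γ' p) (f (γ' p))) = en p (f p)

end Pool.Agent.Helper78.CP
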