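import Pool.Agent.Helper78.CP.BDefs

/-! Module BP-4: old and new groups, the weights of lifted sets. -/

set_option autoImplicit false

namespace Pool.Agent.Helper78.CP

open Finset

variable {V : Type*} [Fintype V] [DecidableEq V]

theorem mem_Rp {γ' : V → V} {S : Finset V} {g : V} : g ∈ Rp γ' S ↔ g ∈ S ∧ γ' g = g := by
  simp [Rp]

theorem mem_lift {γ' : V → V} {S D : Finset V} {a : V} :
    a ∈ lift γ' S D ↔ ∃ g ∈ D, a ∈ lf γ' S g := by
  simp [lift]

private theorem bl_mem_fib {γ : V → V} {g p : V} : p ∈ fib γ g ↔ γ p = g := by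
  simp [fib]

private theorem bl_mem_Gr {γ : V → V} {g : V} : g ∈ Gr γ ↔ γ g = g := by
  simp [Gr]

private theorem bl_lf_mem {γ' : V → V} {S : Finset V} {g : V} (hg : g ∈ S) :
    lf γ' S g = fib γ' g := by
  simp [lf, hg]

private theorem bl_lf_not {γ' : V → V} {S : Finset V} {g : V} (hg : g ∉ S) :
    lf γ' S g = {g} := by
  simp [lf, hg]

/-- If `p ∉ S` then `γ p ∉ S` (`single`), so `γ' p = γ p ∉ S`. -/
theorem Glue.mem_iff {γ γ' : V → V} {S : Finset V} {m : ℕ} (h : Glue γ γ' S m) (p : V) :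
    γ' p ∈ S ↔ p ∈ S := by
  constructor
  · intro hp
    by_contra hn
    rw [h.out p hn] at hp
    have h1 := h.single (γ p) hp p rfl
    rw [← h1] at hp
    exact hn hp
  · exact h.inn p

/-- `h.mem_iff`. -/
theorem Glue.fib_sub {γ γ' : V → V} {S : Finset V} {m : ℕ} (h : Glue γ γ' S m) {g : V}
    (hg : g ∈ S) : fib γ' g ⊆ S := by
  intro p hp
  rw [bl_mem_fib] at hp
  rw [← h.mem_iff p, hp]
  exact hg

/-- `g ∈ S`: it is in `Rp` iff `γ' g = g`.  `g ∉ S`: `γ' g = γ g`. -/
theorem Glue.mem_Gr {γ γ' : V → V} {S : Finset V} {m : ℕ} (h : Glue γ γ' S m) (g : V) :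
    g ∈ Gr γ' ↔ (g ∈ S ∧ γ' g = g) ∨ (g ∉ S ∧ γ g = g) := by
  rw [bl_mem_Gr]
  by_cases hg : g ∈ S
  · simp [hg]
  · rw [h.out g hg]
    simp [hg]

/-- Positions: `p` belongs to an old group in the lift of `D` iff its new group is in `D`
(`D ⊆ Gr γ'`).  Proof: `p ∈ S`: `γ p = p`, `lf γ' S g ∋ p` for `g ∈ S` iff `γ' p = g`, and
`p ∉ lf γ' S g = {g}` for `g ∉ S`.  `p ∉ S`: `γ p = γ' p ∉ S`, `γ p ∈ lf γ' S g` with `g ∈ S` is
impossible (`fib_sub`), and for `g ∉ S` it means `γ p = g`. -/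
theorem Glue.lift_iff {γ γ' : V → V} {S : Finset V} {m : ℕ} (h : Glue γ γ' S m) {D : Finset V}
    (hD : D ⊆ Gr γ') (p : V) : γ p ∈ lift γ' S D ↔ γ' p ∈ D := by
  rw [mem_lift]
  by_cases hp : p ∈ S
  · rw [h.fix p hp]
    constructor
    · rintro ⟨g, hg, ha⟩
      by_cases hgS : g ∈ S
      · rw [bl_lf_mem hgS, bl_mem_fib] at ha
        rw [ha]
        exact hg
      · rw [bl_lf_not hgS, Finset.mem_singleton] at ha
        rw [ha] at hp
        exact absurd hp hgS
    · intro hg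
      refine ⟨γ' p, hg, ?_⟩
      rw [bl_lf_mem (h.inn p hp), bl_mem_fib]
  · have h1 : γ' p = γ p := h.out p hp
    have h2 : γ' p ∉ S := fun hh => hp ((h.mem_iff p).1 hh)
    have h3 : γ p ∉ S := by rw [← h1]; exact h2
    constructor
    · rintro ⟨g, hg, ha⟩
      by_cases hgS : g ∈ S
      · rw [bl_lf_mem hgS] at ha
        exact absurd (h.fib_sub hgS ha) h3
      · rw [bl_lf_not hgS, Finset.mem_singleton] at ha
        rw [h1, ha]
        exact hg
    · intro hg
      refine ⟨γ p, by rw [← h1]; exact hg, ?_⟩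
      rw [bl_lf_not h3]
      exact Finset.mem_singleton_self _

/-- `fib_sub` and `fix`. -/
theorem Glue.lift_sub {γ γ' : V → V} {S : Finset V} {m : ℕ} (h : Glue γ γ' S m) {D : Finset V}
    (hD : D ⊆ Gr γ') : lift γ' S D ⊆ Gr γ := by
  intro a ha
  rw [mem_lift] at ha
  obtain ⟨g, hg, ha⟩ := ha
  rw [bl_mem_Gr]
  by_cases hgS : g ∈ S
  · rw [bl_lf_mem hgS] at ha
    exact h.fix a (h.fib_sub hgS ha)
  · rw [bl_lf_not hgS, Finset.mem_singleton] at ha
    subst ha
    rcases (h.mem_Gr a).1 (hD hg) with h1 | h1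
    · exact absurd h1.1 hgS
    · exact h1.2

/-- `lift_iff` with `D = Gr γ'`: for `g ∈ Gr γ`, `g = γ g ∈ lift` iff `γ' g ∈ Gr γ'`. -/
theorem Glue.lift_Gr {γ γ' : V → V} {S : Finset V} {m : ℕ} (h : Glue γ γ' S m) :
    lift γ' S (Gr γ') = Gr γ := by
  apply Finset.Subset.antisymm (h.lift_sub (Finset.Subset.refl _))
  intro g hg
  rw [bl_mem_Gr] at hg
  have h1 := (h.lift_iff (Finset.Subset.refl (Gr γ')) g).2 (bl_mem_Gr.2 (h.idem' g))
  rw [hg] at h1
  exact h1

private theorem bl_lf_disj {γ γ' : V → V} {S : Finset V} {m : ℕ} (h : Glue γ γ' S m) {g k : V}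
    (hgk : g ≠ k) : Disjoint (lf γ' S g) (lf γ' S k) := by
  rw [Finset.disjoint_left]
  intro a ha hb
  by_cases hgS : g ∈ S
  · rw [bl_lf_mem hgS] at ha
    by_cases hkS : k ∈ S
    · rw [bl_lf_mem hkS, bl_mem_fib] at hb
      rw [bl_mem_fib] at ha
      exact hgk (ha.symm.trans hb)
    · rw [bl_lf_not hkS, Finset.mem_singleton] at hb
      rw [hb] at ha
      exact hkS (h.fib_sub hgS ha)
  · rw [bl_lf_not hgS, Finset.mem_singleton] at ha
    by_cases hkS : k ∈ S
    · rw [bl_lf_mem hkS] at hb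
      rw [ha] at hb
      exact hgS (h.fib_sub hkS hb)
    · rw [bl_lf_not hkS, Finset.mem_singleton] at hb
      exact hgk (ha.symm.trans hb)

/-- The sets `lf γ' S g`, `g ∈ D ⊆ Gr γ'`, are pairwise disjoint, with `m` elements for `g ∈ S` and
one element otherwise. -/
theorem Glue.card_lift {γ γ' : V → V} {S : Finset V} {m : ℕ} (h : Glue γ γ' S m) {D : Finset V}
    (hD : D ⊆ Gr γ') : (lift γ' S D).card = (D \ S).card + m * (D ∩ S).card := by
  unfold lift
  rw [Finset.card_biUnion (fun g _ k _ hgk => bl_lf_disj h hgk)]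
  have h1 : ∀ g ∈ D, (lf γ' S g).card = if g ∈ S then m else 1 := by
    intro g hg
    by_cases hgS : g ∈ S
    · rw [bl_lf_mem hgS, if_pos hgS]
      exact h.size g hgS (bl_mem_Gr.1 (hD hg))
    · rw [bl_lf_not hgS, if_neg hgS, Finset.card_singleton]
  rw [Finset.sum_congr rfl h1, Finset.sum_ite, Finset.sum_const, Finset.sum_const, smul_eq_mul,
    smul_eq_mul, mul_one, Finset.filter_mem_eq_inter, Finset.filter_notMem_eq_sdiff, mul_comm m,
    add_comm]

/-- For `D ⊆ D' ⊆ Gr γ'`; from `card_lift` (`lift` is monotone). -/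
theorem Glue.card_lift_sdiff {γ γ' : V → V} {S : Finset V} {m : ℕ} (h : Glue γ γ' S m)
    {D D' : Finset V} (hDD : D ⊆ D') (hD' : D' ⊆ Gr γ') :
    (lift γ' S D' \ lift γ' S D).card = ((D' \ D) \ S).card + m * ((D' \ D) ∩ S).card := by
  have h1 : lift γ' S D' \ lift γ' S D = lift γ' S (D' \ D) := by
    ext a
    rw [Finset.mem_sdiff, mem_lift, mem_lift, mem_lift]
    constructor
    · rintro ⟨⟨g, hg, ha⟩, hn⟩
      refine ⟨g, Finset.mem_sdiff.2 ⟨hg, fun hgD => hn ⟨g, hgD, ha⟩⟩, ha⟩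
    · rintro ⟨g, hg, ha⟩
      rw [Finset.mem_sdiff] at hg
      refine ⟨⟨g, hg.1, ha⟩, ?_⟩
      rintro ⟨k, hk, hb⟩
      have hgk : g ≠ k := by
        rintro rfl
        exact hg.2 hk
      exact Finset.disjoint_left.1 (bl_lf_disj h hgk) ha hb
  rw [h1]
  exact h.card_lift (Finset.sdiff_subset.trans hD')

/-- `S.card = m * (Rp γ' S).card`: `S` is the union of the fibres of `γ'` over `Rp γ' S`. -/
theorem Glue.card_S {γ γ' : V → V} {S : Finset V} {m : ℕ} (h : Glue γ γ' S m) :
    S.card = m * (Rp γ' S).card := by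
  have h1 : lift γ' S (Rp γ' S) = S := by
    ext a
    rw [mem_lift]
    constructor
    · rintro ⟨g, hg, ha⟩
      rw [mem_Rp] at hg
      rw [bl_lf_mem hg.1] at ha
      exact h.fib_sub hg.1 ha
    · intro ha
      refine ⟨γ' a, mem_Rp.2 ⟨h.inn a ha, h.idem' a⟩, ?_⟩
      rw [bl_lf_mem (h.inn a ha), bl_mem_fib]
  have h2 : Rp γ' S ⊆ Gr γ' := fun g hg => bl_mem_Gr.2 (mem_Rp.1 hg).2
  have h3 := h.card_lift h2
  rw [h1] at h3
  have h4 : Rp γ' S ⊆ S := fun g hg => (mem_Rp.1 hg).1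
  rw [h3, Finset.sdiff_eq_empty_iff_subset.2 h4, Finset.inter_eq_left.2 h4, Finset.card_empty,
    zero_add]

private theorem bl_uu_insert (y : V → ℝ) (w : Finset V → ℝ) {D : Finset V} {p : V} (hp : p ∉ D) :
    uu y w (insert p D) = uu y w D * (y p * ∏ h ∈ D, w {p, h}) := by
  unfold uu
  rw [Finset.prod_insert hp, Finset.powersetCard_succ_insert hp, Finset.prod_union]
  · have h1 : ∏ e ∈ (D.powersetCard 1).image (insert p), w e = ∏ h ∈ D, w {p, h} := by
      rw [Finset.powersetCard_one, Finset.prod_image]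
      · rw [Finset.prod_map]
        rfl
      · intro a ha b hb hab
        rw [Finset.mem_coe, Finset.mem_map] at ha hb
        obtain ⟨a', ha', rfl⟩ := ha
        obtain ⟨b', hb', rfl⟩ := hb
        simp only [Function.Embedding.coeFn_mk] at hab ⊢
        have h2 : a' ∈ insert p ({b'} : Finset V) := by
          rw [← hab]
          simp
        rw [Finset.mem_insert, Finset.mem_singleton] at h2
        rcases h2 with h2 | h2
        · rw [h2] at ha'
          exact absurd ha' hp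
        · rw [h2]
    rw [h1]
    ring
  · rw [Finset.disjoint_left]
    intro e he he'
    rw [Finset.mem_image] at he'
    obtain ⟨e', _, rfl⟩ := he'
    rw [Finset.mem_powersetCard] at he
    exact hp (he.1 (Finset.mem_insert_self _ _))

private theorem bl_uu_empty (y : V → ℝ) (w : Finset V → ℝ) : uu y w ∅ = 1 := by
  unfold uu
  have h3 : (∅ : Finset V).powersetCard 2 = ∅ := by
    apply Finset.powersetCard_eq_empty.2
    simp
  rw [h3, Finset.prod_empty, Finset.prod_empty, mul_one]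

private theorem bl_uu_union (y : V → ℝ) (w : Finset V → ℝ) (B : Finset V) (A : Finset V)
    (hAB : Disjoint A B) :
    uu y w (A ∪ B) = uu y w A * uu y w B * ∏ a ∈ A, ∏ b ∈ B, w {a, b} := by
  induction A using Finset.induction_on with
  | empty => simp [bl_uu_empty]
  | insert a A ha ih =>
    rw [Finset.disjoint_insert_left] at hAB
    rw [Finset.insert_union, bl_uu_insert y w (show a ∉ A ∪ B by
      rw [Finset.mem_union]
      exact fun hh => hh.elim ha hAB.1), ih hAB.2, bl_uu_insert y w ha, Finset.prod_union hAB.2,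
      Finset.prod_insert ha]
    ring

/-- The weight of a lifted set.  Proof: the elements of `(lift D).powersetCard 2` are the pairs
inside `lf g`, `g ∈ D` (for `g ∉ S` there are none), and the pairs `{a, b}` with `a ∈ lf g`,
`b ∈ lf h`, `{g, h} ∈ D.powersetCard 2`.  Suggestion: induction on `D` (`Finset.induction_on`) with
`uu (A ∪ B) = uu A * uu B * ∏ a ∈ A, ∏ b ∈ B, w {a, b}` for disjoint `A`, `B`. -/
theorem Glue.uu_lift_le {γ γ' : V → V} {S : Finset V} {m : ℕ} (h : Glue γ γ' S m)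
    {y y' : V → ℝ} {w w' : Finset V → ℝ} (hy : ∀ g, 0 < y g) (hw : ∀ e, 1 ≤ w e) {c x : ℝ}
    (hc : 1 ≤ c) (hx : 0 < x)
    (hy1 : ∀ g ∈ S, γ' g = g → c * (x * uu y w (fib γ' g)) ≤ y' g)
    (hy2 : ∀ g ∈ Gr γ, g ∉ S → c * y g ≤ y' g)
    (hw' : ∀ g ∈ Gr γ', ∀ k ∈ Gr γ', g ≠ k →
      ∏ a ∈ lf γ' S g, ∏ a' ∈ lf γ' S k, w {a, a'} ≤ w' {g, k})
    {D : Finset V} (hD : D ⊆ Gr γ') :
    c ^ D.card * (x ^ (D ∩ S).card * uu y w (lift γ' S D)) ≤ uu y' w' D := by
  have hc0 : 0 < c := lt_of_lt_of_le one_pos hc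
  induction D using Finset.induction_on with
  | empty => simp [bl_uu_empty, lift]
  | insert g D hg ih =>
    have hgD : D ⊆ Gr γ' := fun k hk => hD (Finset.mem_insert_of_mem hk)
    have hgG : g ∈ Gr γ' := hD (Finset.mem_insert_self _ _)
    have ih' := ih hgD
    have hdis : Disjoint (lf γ' S g) (lift γ' S D) := by
      unfold lift
      rw [Finset.disjoint_biUnion_right]
      intro k hk
      apply bl_lf_disj h
      rintro rfl
      exact hg hk
    have hl : lift γ' S (insert g D) = lf γ' S g ∪ lift γ' S D := by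
      unfold lift
      rw [Finset.biUnion_insert]
    have hpp : ∏ a ∈ lf γ' S g, ∏ b ∈ lift γ' S D, w {a, b} ≤ ∏ k ∈ D, w' {g, k} := by
      have h1 : ∏ a ∈ lf γ' S g, ∏ b ∈ lift γ' S D, w {a, b} =
          ∏ k ∈ D, ∏ a ∈ lf γ' S g, ∏ b ∈ lf γ' S k, w {a, b} := by
        refine Eq.trans (Finset.prod_congr rfl ?_) Finset.prod_comm
        intro a _
        unfold lift
        rw [Finset.prod_biUnion (fun i _ j _ hij => bl_lf_disj h hij)]
      rw [h1]
      apply Finset.prod_le_prod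
      · intro k _
        exact Finset.prod_nonneg fun a _ => Finset.prod_nonneg fun b _ =>
          le_trans zero_le_one (hw _)
      · intro k hk
        apply hw' g hgG k (hgD hk)
        rintro rfl
        exact hg hk
    have hpp0 : 0 < ∏ a ∈ lf γ' S g, ∏ b ∈ lift γ' S D, w {a, b} :=
      Finset.prod_pos fun a _ => Finset.prod_pos fun b _ => lt_of_lt_of_le one_pos (hw _)
    have hD0 : 0 < c ^ D.card * (x ^ (D ∩ S).card * uu y w (lift γ' S D)) :=
      mul_pos (pow_pos hc0 _) (mul_pos (pow_pos hx _) (uu_pos hy hw _))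
    have hyg : c * (x ^ (if g ∈ S then 1 else 0) * uu y w (lf γ' S g)) ≤ y' g := by
      rcases (h.mem_Gr g).1 hgG with h1 | h1
      · rw [if_pos h1.1, pow_one, bl_lf_mem h1.1]
        exact hy1 g h1.1 h1.2
      · rw [if_neg h1.1, pow_zero, one_mul, bl_lf_not h1.1]
        have h2 : uu y w {g} = y g := by
          unfold uu
          rw [Finset.prod_singleton]
          have h3 : ({g} : Finset V).powersetCard 2 = ∅ := by
            apply Finset.powersetCard_eq_empty.2
            simp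
          rw [h3, Finset.prod_empty, mul_one]
        rw [h2]
        exact hy2 g (bl_mem_Gr.2 h1.2) h1.1
    have hyg0 : 0 < c * (x ^ (if g ∈ S then 1 else 0) * uu y w (lf γ' S g)) :=
      mul_pos hc0 (mul_pos (pow_pos hx _) (uu_pos hy hw _))
    have hcard : (insert g D ∩ S).card = (D ∩ S).card + (if g ∈ S then 1 else 0) := by
      by_cases hgS : g ∈ S
      · rw [if_pos hgS, Finset.insert_inter_of_mem hgS, Finset.card_insert_of_notMem]
        intro hh
        exact hg (Finset.mem_inter.1 hh).1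
      · rw [if_neg hgS, Finset.insert_inter_of_notMem hgS, add_zero]
    rw [hl, bl_uu_union y w _ _ hdis, bl_uu_insert y' w' hg, Finset.card_insert_of_notMem hg,
      hcard]
    calc c ^ (D.card + 1) * (x ^ ((D ∩ S).card + (if g ∈ S then 1 else 0)) *
          (uu y w (lf γ' S g) * uu y w (lift γ' S D) *
            ∏ a ∈ lf γ' S g, ∏ b ∈ lift γ' S D, w {a, b}))
        = (c ^ D.card * (x ^ (D ∩ S).card * uu y w (lift γ' S D))) *
          ((c * (x ^ (if g ∈ S then 1 else 0) * uu y w (lf γ' S g))) *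
            ∏ a ∈ lf γ' S g, ∏ b ∈ lift γ' S D, w {a, b}) := by
          rw [pow_succ, pow_add]
          ring
      _ ≤ uu y' w' D * (y' g * ∏ k ∈ D, w' {g, k}) := by
          apply mul_le_mul ih' _ (mul_pos hyg0 hpp0).le (hD0.le.trans ih')
          exact mul_le_mul hyg hpp hpp0.le (hyg0.le.trans hyg)

end Pool.Agent.Helper78.CP
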