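import Pool.Agent.Helper78.CP.BLift

set_option autoImplicit false

/-! Module BP-5: rounding of partially filled blocks. -/

namespace Pool.Agent.Helper78.CP

open Finset

variable {V : Type*} [Fintype V] [DecidableEq V]

/-- `Finset.powersetCard_succ_insert`: the new pairs are `{p, h}`, `h ∈ D`. -/
theorem uu_insert (y : V → ℝ) (w : Finset V → ℝ) {D : Finset V} {p : V} (hp : p ∉ D) :
    uu y w (insert p D) = uu y w D * (y p * ∏ h ∈ D, w {p, h}) := by
  have h1 : (insert p D).powersetCard 2 = D.powersetCard 2 ∪ D.image (fun h => {p, h}) := by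
    ext e
    simp only [Finset.mem_powersetCard, Finset.mem_union, Finset.mem_image]
    constructor
    · rintro ⟨h1, h2⟩
      by_cases hpe : p ∈ e
      · right
        have h3 : (e.erase p).card = 1 := by
          rw [Finset.card_erase_of_mem hpe, h2]
        obtain ⟨a, ha⟩ := Finset.card_eq_one.1 h3
        have ha1 : a ∈ e.erase p := by rw [ha]; exact Finset.mem_singleton_self a
        rw [Finset.mem_erase] at ha1
        refine ⟨a, ?_, ?_⟩
        · have h4 := h1 ha1.2
          rw [Finset.mem_insert] at h4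
          rcases h4 with h4 | h4
          · exact absurd h4 ha1.1
          · exact h4
        · rw [← Finset.insert_erase hpe, ha]
      · left
        refine ⟨?_, h2⟩
        intro a ha
        have h4 := h1 ha
        rw [Finset.mem_insert] at h4
        rcases h4 with h4 | h4
        · rw [h4] at ha
          exact absurd ha hpe
        · exact h4
    · rintro (⟨h1, h2⟩ | ⟨a, ha, rfl⟩)
      · exact ⟨h1.trans (Finset.subset_insert _ _), h2⟩
      · constructor
        · intro b hb
          rw [Finset.mem_insert, Finset.mem_singleton] at hb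
          rcases hb with rfl | rfl
          · exact Finset.mem_insert_self _ _
          · exact Finset.mem_insert_of_mem ha
        · apply Finset.card_pair
          rintro rfl
          exact hp ha
  have h2 : Disjoint (D.powersetCard 2) (D.image (fun h => ({p, h} : Finset V))) := by
    rw [Finset.disjoint_left]
    intro e he he'
    rw [Finset.mem_powersetCard] at he
    rw [Finset.mem_image] at he'
    obtain ⟨a, _, rfl⟩ := he'
    exact hp (he.1 (Finset.mem_insert_self _ _))
  have h3 : ∏ e ∈ D.image (fun h => ({p, h} : Finset V)), w e = ∏ h ∈ D, w {p, h} := by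
    apply Finset.prod_image
    intro a ha b hb hab
    have h4 : a ∈ ({p, b} : Finset V) := by
      have h5 : a ∈ ({p, a} : Finset V) :=
        Finset.mem_insert_of_mem (Finset.mem_singleton_self a)
      have h6 : ({p, a} : Finset V) = {p, b} := hab
      rw [h6] at h5
      exact h5
    rw [Finset.mem_insert, Finset.mem_singleton] at h4
    rcases h4 with h4 | h4
    · rw [h4] at ha
      exact absurd ha hp
    · exact h4
  unfold uu
  rw [Finset.prod_insert hp, h1, Finset.prod_union h2, h3]
  ring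

/-- If `1 < ∏ j < z, x ω ^ j` then the last factor is `> 1` (the factors increase), hence all
further factors are `> 1`. -/
theorem prod_round {x ω : ℝ} (hx : 0 < x) (hω : 1 ≤ ω) {z m : ℕ} (hz : z ≤ m)
    (h : 1 < ∏ j ∈ range z, (x * ω ^ j)) :
    ∏ j ∈ range z, (x * ω ^ j) ≤ ∏ j ∈ range m, (x * ω ^ j) := by
  obtain ⟨j0, hj0, hj1⟩ : ∃ j ∈ range z, 1 < x * ω ^ j := by
    by_contra hcon
    push Not at hcon
    have h1 : ∏ j ∈ range z, (x * ω ^ j) ≤ ∏ _j ∈ range z, (1 : ℝ) :=
      Finset.prod_le_prod (fun j _ => by positivity) hcon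
    rw [Finset.prod_const_one] at h1
    linarith
  rw [← Finset.prod_range_mul_prod_Ico (fun j => x * ω ^ j) hz]
  have h2 : (1 : ℝ) ≤ ∏ j ∈ Finset.Ico z m, (x * ω ^ j) := by
    have h3 : ∏ _j ∈ Finset.Ico z m, (1 : ℝ) ≤ ∏ j ∈ Finset.Ico z m, (x * ω ^ j) := by
      apply Finset.prod_le_prod (fun _ _ => zero_le_one)
      intro j hj
      rw [Finset.mem_Ico] at hj
      rw [Finset.mem_range] at hj0
      have h4 : ω ^ j0 ≤ ω ^ j := pow_le_pow_right₀ hω (by omega)
      have h5 : x * ω ^ j0 ≤ x * ω ^ j := mul_le_mul_of_nonneg_left h4 hx.le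
      linarith
    rwa [Finset.prod_const_one] at h3
  exact le_mul_of_one_le_right (by linarith) h2

/-- `Z ⊆ Q`, `R` disjoint from `Q`, all elements of `Q` have the same `y` and the same weights with
the elements of `R`, and the weights inside `Q` are `ω`.  Induction on `Z` (`uu_insert`). -/
theorem uu_union (y : V → ℝ) (w : Finset V → ℝ) {R Q : Finset V} (hRQ : Disjoint R Q) {ω x : ℝ}
    (hx : ∀ p ∈ Q, y p * ∏ h ∈ R, w {p, h} = x)
    (hω : ∀ p ∈ Q, ∀ p' ∈ Q, p ≠ p' → w {p, p'} = ω) (Z : Finset V) (hZ : Z ⊆ Q) :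
    uu y w (R ∪ Z) = uu y w R * ∏ j ∈ range Z.card, (x * ω ^ j) := by
  induction Z using Finset.induction_on with
  | empty => simp
  | insert p Z hpZ ih =>
    have hpQ : p ∈ Q := hZ (Finset.mem_insert_self _ _)
    have hZQ : Z ⊆ Q := fun a ha => hZ (Finset.mem_insert_of_mem ha)
    have hpR : p ∉ R := fun hpR => (Finset.disjoint_left.1 hRQ hpR) hpQ
    have hp : p ∉ R ∪ Z := by
      rw [Finset.mem_union]
      rintro (h | h)
      · exact hpR h
      · exact hpZ h
    have hRZ : Disjoint R Z := Finset.disjoint_of_subset_right hZQ hRQ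
    have h1 : ∏ h ∈ Z, w {p, h} = ω ^ Z.card := by
      rw [← Finset.prod_const]
      apply Finset.prod_congr rfl
      intro h hh
      apply hω p hpQ h (hZQ hh)
      rintro rfl
      exact hpZ hh
    rw [Finset.union_insert, uu_insert y w hp, ih hZQ, Finset.prod_union hRZ, h1,
      Finset.card_insert_of_notMem hpZ, Finset.prod_range_succ, ← mul_assoc (y p), hx p hpQ]
    ring

/-- One step of the rounding.  `R = D' \ Q`, `Z = D' ∩ Q`, `x` from the symmetry; apply `uu_union`
and `prod_round` with `ρ x` for `x` (`ρ ^ |Z| * ∏ j < |Z|, x ω ^ j = ∏ j < |Z|, (ρ x) ω ^ j`): if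
that number is at most `1` take `D'' = R`, otherwise `D'' = R ∪ Q`.  `L` is disjoint from `Q`, so
`|D'' \ L| = |R \ L| + |D'' ∩ Q|`. -/
theorem round_one {y : V → ℝ} {w : Finset V → ℝ} (hy : ∀ g, 0 < y g) (hw : ∀ e, 1 ≤ w e)
    {ρ : ℝ} (hρ : 0 < ρ) {L Q D' : Finset V} (hLQ : Disjoint L Q) {ω : ℝ}
    (hyQ : ∀ p ∈ Q, ∀ p' ∈ Q, y p = y p')
    (hwQ : ∀ p ∈ Q, ∀ p' ∈ Q, ∀ h ∈ D', h ∉ Q → w {p, h} = w {p', h})
    (hω : ∀ p ∈ Q, ∀ p' ∈ Q, p ≠ p' → w {p, p'} = ω) :
    ∃ D'', (D'' = D' \ Q ∨ D'' = D' ∪ Q) ∧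
      uu y w D' * ρ ^ (D' \ L).card ≤ uu y w D'' * ρ ^ (D'' \ L).card := by
  rcases Finset.eq_empty_or_nonempty Q with hQ | ⟨q0, hq0⟩
  · refine ⟨D', Or.inl ?_, le_refl _⟩
    rw [hQ, Finset.sdiff_empty]
  obtain ⟨ω', hω1, hω2⟩ : ∃ ω' : ℝ, 1 ≤ ω' ∧ ∀ p ∈ Q, ∀ p' ∈ Q, p ≠ p' → w {p, p'} = ω' := by
    by_cases hc : ∃ p ∈ Q, ∃ p' ∈ Q, p ≠ p'
    · obtain ⟨p, hp, p', hp', hne⟩ := hc
      refine ⟨ω, ?_, hω⟩
      rw [← hω p hp p' hp' hne]
      exact hw _
    · refine ⟨1, le_refl _, ?_⟩
      intro p hp p' hp' hne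
      exact absurd ⟨p, hp, p', hp', hne⟩ hc
  set R := D' \ Q with hR
  have hRQ : Disjoint R Q := Finset.sdiff_disjoint
  set x : ℝ := y q0 * ∏ h ∈ R, w {q0, h} with hxdef
  have hx0 : 0 < x := mul_pos (hy q0) (Finset.prod_pos fun e _ => lt_of_lt_of_le one_pos (hw _))
  have hx : ∀ p ∈ Q, y p * ∏ h ∈ R, w {p, h} = x := by
    intro p hp
    rw [hxdef, hyQ p hp q0 hq0]
    congr 1
    apply Finset.prod_congr rfl
    intro h hh
    rw [hR, Finset.mem_sdiff] at hh
    exact hwQ p hp q0 hq0 h hh.1 hh.2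
  have key : ∀ Z ⊆ Q, uu y w (R ∪ Z) * ρ ^ ((R ∪ Z) \ L).card =
      (uu y w R * ρ ^ (R \ L).card) * ∏ j ∈ range Z.card, ((ρ * x) * ω' ^ j) := by
    intro Z hZ
    have h1 : ((R ∪ Z) \ L).card = (R \ L).card + Z.card := by
      have h2 : (R ∪ Z) \ L = (R \ L) ∪ Z := by
        ext a
        simp only [Finset.mem_sdiff, Finset.mem_union]
        constructor
        · rintro ⟨h3 | h3, h4⟩
          · exact Or.inl ⟨h3, h4⟩
          · exact Or.inr h3
        · rintro (⟨h3, h4⟩ | h3)
          · exact ⟨Or.inl h3, h4⟩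
          · exact ⟨Or.inr h3, fun h4 => (Finset.disjoint_left.1 hLQ h4) (hZ h3)⟩
      rw [h2]
      apply Finset.card_union_of_disjoint
      rw [Finset.disjoint_left]
      intro a ha ha'
      rw [Finset.mem_sdiff] at ha
      exact (Finset.disjoint_left.1 hRQ ha.1) (hZ ha')
    have h2 : ∏ j ∈ range Z.card, ((ρ * x) * ω' ^ j) =
        ρ ^ Z.card * ∏ j ∈ range Z.card, (x * ω' ^ j) := by
      rw [show ρ ^ Z.card = ∏ _j ∈ range Z.card, ρ by rw [Finset.prod_const, Finset.card_range],
        ← Finset.prod_mul_distrib]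
      apply Finset.prod_congr rfl
      intro j _
      ring
    rw [uu_union y w hRQ hx hω2 Z hZ, h1, h2, pow_add]
    ring
  have hA : 0 < uu y w R * ρ ^ (R \ L).card := mul_pos (uu_pos hy hw R) (pow_pos hρ _)
  have hD' : D' = R ∪ (D' ∩ Q) := by
    rw [hR]
    exact (Finset.sdiff_union_inter D' Q).symm
  have hk := key (D' ∩ Q) Finset.inter_subset_right
  rw [← hD'] at hk
  rw [hk]
  by_cases hP : ∏ j ∈ range (D' ∩ Q).card, ((ρ * x) * ω' ^ j) ≤ 1
  · refine ⟨R, Or.inl rfl, ?_⟩
    exact mul_le_of_le_one_right hA.le hP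
  · refine ⟨D' ∪ Q, Or.inr rfl, ?_⟩
    have h3 : D' ∪ Q = R ∪ Q := by
      rw [hR, Finset.sdiff_union_self_eq_union]
    rw [h3, key Q (Finset.Subset.refl _)]
    apply mul_le_mul_of_nonneg_left _ hA.le
    exact prod_round (mul_pos hρ hx0) hω1 (Finset.card_le_card Finset.inter_subset_right)
      (not_le.1 hP)

/-- **Rounding lemma.**
Proof: `env_eq` gives `D' ⊇ lift E`; apply `round_one` with `L = lift E`, `Q = fib γ' i`
successively for the `i ∈ Rp γ' S \ E` (induction over a finset of indices; the property `every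
fibre of an already treated `i` is inside or disjoint` is kept because the fibres are disjoint).
At the end `D'` is the lift of `E' = Gr γ'.filter (fun g => g ∈ D')`: a fibre `fib γ' i` with `i ∈ E`
is contained in `lift E ⊆ D'`, the others are inside or disjoint; `g ∈ D' \ S` is in `Gr γ'`. -/
theorem Glue.round {γ γ' : V → V} {S : Finset V} {m : ℕ} (h : Glue γ γ' S m)
    {y : V → ℝ} {w : Finset V → ℝ} (hy : ∀ g, 0 < y g) (hw : ∀ e, 1 ≤ w e) {ρ : ℝ} (hρ : 0 < ρ)
    {ω : ℝ} (hyS : ∀ p ∈ S, y p = y (γ' p))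
    (hwS : ∀ p ∈ S, ∀ k ∈ Gr γ, γ' k ≠ γ' p → w {p, k} = w {γ' p, k})
    (hω : ∀ p ∈ S, ∀ p' ∈ S, p ≠ p' → γ' p = γ' p' → w {p, p'} = ω)
    {E : Finset V} (hE : E ⊆ Gr γ') :
    ∃ E', E ⊆ E' ∧ E' ⊆ Gr γ' ∧ env γ y w ρ (lift γ' S E) ≤
      uu y w (lift γ' S E') * ρ ^ (lift γ' S E' \ lift γ' S E).card := by
  have hL : lift γ' S E ⊆ Gr γ := h.lift_sub hE
  have memfib : ∀ {a g : V}, a ∈ fib γ' g ↔ γ' a = g := by
    intro a g
    simp [fib]
  have memGr : ∀ {δ : V → V} {a : V}, a ∈ Gr δ ↔ δ a = a := by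
    intro δ a
    simp [Gr]
  obtain ⟨D0, h01, h02, h03⟩ := env_eq (y := y) (w := w) (ρ := ρ) hL
  have key : ∀ T : Finset V, T ⊆ Rp γ' S \ E → ∃ D', lift γ' S E ⊆ D' ∧ D' ⊆ Gr γ ∧
      env γ y w ρ (lift γ' S E) ≤ uu y w D' * ρ ^ (D' \ lift γ' S E).card ∧
      ∀ i ∈ T, fib γ' i ⊆ D' ∨ Disjoint (fib γ' i) D' := by
    intro T
    induction T using Finset.induction_on with
    | empty =>
      intro _
      exact ⟨D0, h01, h02, h03.le, fun i hi => absurd hi (Finset.notMem_empty i)⟩
    | insert i T hiT ih =>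
      intro hT
      obtain ⟨D', h1, h2, h3, h4⟩ := ih fun a ha => hT (Finset.mem_insert_of_mem ha)
      have hi := hT (Finset.mem_insert_self i T)
      rw [Finset.mem_sdiff, mem_Rp] at hi
      obtain ⟨⟨hiS, hii⟩, hiE⟩ := hi
      have hsub : fib γ' i ⊆ S := h.fib_sub hiS
      have hLQ : Disjoint (lift γ' S E) (fib γ' i) := by
        rw [Finset.disjoint_left]
        intro a ha ha'
        obtain ⟨g, hg, hag⟩ := mem_lift.1 ha
        unfold lf at hag
        split_ifs at hag with hgS
        · rw [memfib] at hag ha'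
          rw [hag] at ha'
          rw [ha'] at hg
          exact hiE hg
        · rw [Finset.mem_singleton] at hag
          rw [hag] at ha'
          exact hgS (hsub ha')
      obtain ⟨D'', h5, h6⟩ := round_one (L := lift γ' S E) (Q := fib γ' i) (D' := D') (ω := ω)
        hy hw hρ hLQ
        (by
          intro p hp p' hp'
          rw [hyS p (hsub hp), hyS p' (hsub hp'), memfib.1 hp, memfib.1 hp'])
        (by
          intro p hp p' hp' k hk hkQ
          have hk1 : γ' k ≠ i := fun h7 => hkQ (memfib.2 h7)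
          rw [hwS p (hsub hp) k (h2 hk) (by rw [memfib.1 hp]; exact hk1),
            hwS p' (hsub hp') k (h2 hk) (by rw [memfib.1 hp']; exact hk1), memfib.1 hp,
            memfib.1 hp'])
        (by
          intro p hp p' hp' hne
          exact hω p (hsub hp) p' (hsub hp') hne (by rw [memfib.1 hp, memfib.1 hp']))
      have hQG : fib γ' i ⊆ Gr γ := fun a ha => memGr.2 (h.fix a (hsub ha))
      have hdis : ∀ j ∈ T, Disjoint (fib γ' j) (fib γ' i) := by
        intro j hj
        rw [Finset.disjoint_left]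
        intro a ha ha'
        rw [memfib] at ha ha'
        rw [ha] at ha'
        rw [ha'] at hj
        exact hiT hj
      refine ⟨D'', ?_, ?_, h3.trans h6, ?_⟩
      · intro a ha
        rcases h5 with h5 | h5
        · rw [h5, Finset.mem_sdiff]
          exact ⟨h1 ha, Finset.disjoint_left.1 hLQ ha⟩
        · rw [h5]
          exact Finset.mem_union_left _ (h1 ha)
      · intro a ha
        rcases h5 with h5 | h5
        · rw [h5, Finset.mem_sdiff] at ha
          exact h2 ha.1
        · rw [h5, Finset.mem_union] at ha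
          rcases ha with ha | ha
          · exact h2 ha
          · exact hQG ha
      · intro j hj
        rw [Finset.mem_insert] at hj
        rcases hj with rfl | hj
        · rcases h5 with h5 | h5
          · right
            rw [h5]
            exact Finset.disjoint_sdiff
          · left
            rw [h5]
            exact Finset.subset_union_right
        · rcases h4 j hj with h7 | h7
          · left
            intro a ha
            rcases h5 with h5 | h5
            · rw [h5, Finset.mem_sdiff]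
              exact ⟨h7 ha, Finset.disjoint_left.1 (hdis j hj) ha⟩
            · rw [h5]
              exact Finset.mem_union_left _ (h7 ha)
          · right
            rcases h5 with h5 | h5
            · rw [h5]
              exact Finset.disjoint_of_subset_right Finset.sdiff_subset h7
            · rw [h5, Finset.disjoint_union_right]
              exact ⟨h7, hdis j hj⟩
  obtain ⟨D', h1, h2, h3, h4⟩ := key _ (Finset.Subset.refl _)
  have hself : ∀ g ∈ Gr γ', g ∈ lf γ' S g := by
    intro g hg
    unfold lf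
    split_ifs
    · exact memfib.2 (memGr.1 hg)
    · exact Finset.mem_singleton_self g
  have hEE : E ⊆ (Gr γ').filter (fun g => g ∈ D') := by
    intro g hg
    rw [Finset.mem_filter]
    exact ⟨hE hg, h1 (mem_lift.2 ⟨g, hg, hself g (hE hg)⟩)⟩
  have hlift : lift γ' S ((Gr γ').filter (fun g => g ∈ D')) = D' := by
    ext a
    rw [mem_lift]
    constructor
    · rintro ⟨g, hg, hag⟩
      have hg0 := hg
      rw [Finset.mem_filter] at hg
      by_cases hgE : g ∈ E
      · exact h1 (mem_lift.2 ⟨g, hgE, hag⟩)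
      unfold lf at hag
      split_ifs at hag with hgS
      · have hgT : g ∈ Rp γ' S \ E := by
          rw [Finset.mem_sdiff, mem_Rp]
          exact ⟨⟨hgS, memGr.1 hg.1⟩, hgE⟩
        rcases h4 g hgT with h5 | h5
        · exact h5 hag
        · exact absurd hg.2 (Finset.disjoint_left.1 h5 (memfib.2 (memGr.1 hg.1)))
      · rw [Finset.mem_singleton] at hag
        rw [hag]
        exact hg.2
    · intro ha
      have haG := memGr.1 (h2 ha)
      by_cases haS : a ∈ S
      · have hgS : γ' a ∈ S := h.inn a haS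
        have hgg : γ' (γ' a) = γ' a := h.idem' a
        have hag : a ∈ fib γ' (γ' a) := memfib.2 rfl
        have hgf : γ' a ∈ fib γ' (γ' a) := memfib.2 hgg
        have hgD : γ' a ∈ D' := by
          by_cases hgE : γ' a ∈ E
          · have h5 := hEE hgE
            rw [Finset.mem_filter] at h5
            exact h5.2
          · have hgT : γ' a ∈ Rp γ' S \ E := by
              rw [Finset.mem_sdiff, mem_Rp]
              exact ⟨⟨hgS, hgg⟩, hgE⟩
            rcases h4 _ hgT with h5 | h5
            · exact h5 hgf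
            · exact absurd ha (Finset.disjoint_left.1 h5 hag)
        refine ⟨γ' a, ?_, ?_⟩
        · rw [Finset.mem_filter]
          exact ⟨memGr.2 hgg, hgD⟩
        · unfold lf
          rw [if_pos hgS]
          exact hag
      · have haG' : a ∈ Gr γ' := memGr.2 (by rw [h.out a haS]; exact haG)
        refine ⟨a, ?_, hself a haG'⟩
        rw [Finset.mem_filter]
        exact ⟨haG', ha⟩
  refine ⟨(Gr γ').filter (fun g => g ∈ D'), hEE, Finset.filter_subset _ _, ?_⟩
  rw [hlift]
  exact h3

end Pool.Agent.Helper78.CP
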