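import Pool.Agent.Helper78.CP.BRound

set_option autoImplicit false

/-! Module BP-6: the mean is below the new envelope. -/

namespace Pool.Agent.Helper78.CP

open Finset

variable {V : Type*} [Fintype V] [DecidableEq V]

/-- `(1 + x) ^ k ≤ exp (k x) ≤ exp (1 / 2) ≤ 2`. -/
theorem one_add_pow_le {k : ℕ} {x : ℝ} (hx : 0 ≤ x) (h : (k : ℝ) * x ≤ 1 / 2) :
    (1 + x) ^ k ≤ 2 := by
  have h1 : (1 + x) ^ k ≤ Real.exp ((k : ℝ) * x) := by
    rw [Real.exp_nat_mul]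
    apply pow_le_pow_left₀ (by linarith)
    have := Real.add_one_le_exp x
    linarith
  have h2 : Real.exp ((k : ℝ) * x) ≤ Real.exp (1 / 2) := Real.exp_le_exp.2 h
  have h3 : Real.exp (1 / 2) ≤ 2 := by
    have h4 : Real.exp (1 / 2) ^ 2 = Real.exp 1 := by
      rw [← Real.exp_nat_mul]
      norm_num
    have h5 := Real.exp_one_lt_d9
    nlinarith [Real.exp_pos (1 / 2)]
  linarith

/-- `((n / (n - 1)) ^ k = (1 + 1 / (n - 1)) ^ k ≤ exp (k / (n - 1)) ≤ exp (2 / 3) ≤ 2` (for `n ≥ 4`: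
`k / (n - 1) ≤ (n / 2) / (n - 1) ≤ 2 / 3`; `exp 2 ≤ 8`). -/
theorem inv_pow_le {n k : ℕ} (hn : 4 ≤ n) (h : 2 * k ≤ n) :
    (((n : ℝ) - 1) ^ k)⁻¹ ≤ 2 * ((n : ℝ) ^ k)⁻¹ := by
  have hn' : (4 : ℝ) ≤ n := by exact_mod_cast hn
  have hk' : 2 * (k : ℝ) ≤ n := by exact_mod_cast h
  have hn1 : (0 : ℝ) < (n : ℝ) - 1 := by linarith
  have hexp : Real.exp (2 / 3) ≤ 2 := by
    have h4 : Real.exp (2 / 3) ^ 3 = Real.exp 1 ^ 2 := by
      rw [← Real.exp_nat_mul, ← Real.exp_nat_mul]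
      norm_num
    have h5 := Real.exp_one_lt_d9
    have h6 := Real.exp_pos (1 : ℝ)
    by_contra hcon
    push Not at hcon
    have h7 : (2 : ℝ) ^ 3 < Real.exp (2 / 3) ^ 3 := pow_lt_pow_left₀ hcon (by norm_num) (by norm_num)
    rw [h4] at h7
    nlinarith
  have h1 : (n : ℝ) = ((n : ℝ) - 1) * (1 + 1 / ((n : ℝ) - 1)) := by
    field_simp
    ring
  have h2 : (1 + 1 / ((n : ℝ) - 1)) ^ k ≤ 2 := by
    have h3 : (1 + 1 / ((n : ℝ) - 1)) ^ k ≤ Real.exp ((k : ℝ) * (1 / ((n : ℝ) - 1))) := by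
      rw [Real.exp_nat_mul]
      apply pow_le_pow_left₀ (by positivity)
      have := Real.add_one_le_exp (1 / ((n : ℝ) - 1))
      linarith
    have h4 : (k : ℝ) * (1 / ((n : ℝ) - 1)) ≤ 2 / 3 := by
      rw [mul_one_div, div_le_iff₀ hn1]
      linarith
    exact h3.trans ((Real.exp_le_exp.2 h4).trans hexp)
  have h3 : (n : ℝ) ^ k ≤ 2 * ((n : ℝ) - 1) ^ k := by
    calc (n : ℝ) ^ k = ((n : ℝ) - 1) ^ k * (1 + 1 / ((n : ℝ) - 1)) ^ k := by
          rw [← mul_pow, ← h1]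
      _ ≤ ((n : ℝ) - 1) ^ k * 2 := mul_le_mul_of_nonneg_left h2 (pow_pos hn1 k).le
      _ = 2 * ((n : ℝ) - 1) ^ k := mul_comm _ _
  have h4 : 0 < ((n : ℝ) - 1) ^ k := pow_pos hn1 k
  have h5 : 0 < (n : ℝ) ^ k := pow_pos (by linarith) k
  rw [← div_eq_mul_inv, inv_eq_one_div, div_le_div_iff₀ h4 h5]
  linarith

/-- `∑ D ⊆ G, |D| ≥ 2, x ^ |D| = (1 + x) ^ q - 1 - q x ≤ exp (q x) - 1 - q x ≤ (q x) ^ 2`
(`Finset.sum_pow_mul_eq_add_pow`, `Real.abs_exp_sub_one_sub_id_le`). -/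
theorem sum_two_le (G : Finset V) {x : ℝ} (hx : 0 ≤ x) (h : (G.card : ℝ) * x ≤ 1 / 16) :
    ∑ D ∈ G.powerset.filter (fun D => 2 ≤ D.card), x ^ D.card ≤ 1 / 256 := by
  have h1 : ∑ D ∈ G.powerset, x ^ D.card = (1 + x) ^ G.card := by
    have := Finset.sum_pow_mul_eq_add_pow x 1 G
    simp only [one_pow, mul_one] at this
    rw [this, add_comm]
  have h2 := Finset.sum_filter_add_sum_filter_not G.powerset (fun D => 2 ≤ D.card)
    (fun D => x ^ D.card)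
  have h3 : 1 + (G.card : ℝ) * x ≤ ∑ D ∈ G.powerset.filter (fun D => ¬ 2 ≤ D.card), x ^ D.card := by
    have hsub : insert (∅ : Finset V) (G.image (fun v => ({v} : Finset V))) ⊆
        G.powerset.filter (fun D => ¬ 2 ≤ D.card) := by
      intro D hD
      rw [Finset.mem_insert, Finset.mem_image] at hD
      rw [Finset.mem_filter, Finset.mem_powerset]
      rcases hD with rfl | ⟨v, hv, rfl⟩
      · simp
      · simp [hv]
    have hle := Finset.sum_le_sum_of_subset_of_nonneg (f := fun D : Finset V => x ^ D.card) hsub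
      (fun D _ _ => pow_nonneg hx _)
    have heq : ∑ D ∈ insert (∅ : Finset V) (G.image (fun v => ({v} : Finset V))), x ^ D.card =
        1 + (G.card : ℝ) * x := by
      rw [Finset.sum_insert]
      · rw [Finset.sum_image]
        · simp
        · intro a _ b _ hab
          exact Finset.singleton_injective hab
      · simp
    rw [heq] at hle
    exact hle
  have h4 : (1 + x) ^ G.card ≤ Real.exp ((G.card : ℝ) * x) := by
    rw [Real.exp_nat_mul]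
    apply pow_le_pow_left₀ (by linarith)
    have := Real.add_one_le_exp x
    linarith
  have h0 : 0 ≤ (G.card : ℝ) * x := by positivity
  have h5 : Real.exp ((G.card : ℝ) * x) ≤ 1 + (G.card : ℝ) * x + ((G.card : ℝ) * x) ^ 2 := by
    have h6 := Real.abs_exp_sub_one_sub_id_le (x := (G.card : ℝ) * x)
      (by rw [abs_of_nonneg h0]; linarith)
    have h7 := (abs_le.1 h6).2
    linarith
  have h6 : ((G.card : ℝ) * x) ^ 2 ≤ 1 / 256 := by nlinarith
  linarith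

/-- `∑` over `J ⊇ J0` of `ρ⁻¹ ^ |J \ J0|` is `(1 + 1 / ρ) ^ |R \ J0| ≤ 2`. -/
theorem sum_sup_le {R J0 : Finset V} (hJ : J0 ⊆ R) {ρ : ℝ} (hρ : 1 ≤ ρ)
    (h : 2 * (R.card : ℝ) ≤ ρ) :
    ∑ J ∈ R.powerset.filter (fun J => J0 ⊆ J), ρ⁻¹ ^ (J \ J0).card ≤ 2 := by
  have hρ0 : 0 < ρ := lt_of_lt_of_le one_pos hρ
  have h1 : ∑ J ∈ R.powerset.filter (fun J => J0 ⊆ J), ρ⁻¹ ^ (J \ J0).card =
      ∑ K ∈ (R \ J0).powerset, ρ⁻¹ ^ K.card := by
    refine Finset.sum_bij' (fun J _ => J \ J0) (fun K _ => K ∪ J0) ?_ ?_ ?_ ?_ ?_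
    · intro J hJ'
      rw [Finset.mem_filter, Finset.mem_powerset] at hJ'
      rw [Finset.mem_powerset]
      exact Finset.sdiff_subset_sdiff hJ'.1 (Finset.Subset.refl _)
    · intro K hK
      rw [Finset.mem_powerset] at hK
      rw [Finset.mem_filter, Finset.mem_powerset]
      exact ⟨Finset.union_subset (hK.trans Finset.sdiff_subset) hJ, Finset.subset_union_right⟩
    · intro J hJ'
      rw [Finset.mem_filter, Finset.mem_powerset] at hJ'
      exact Finset.sdiff_union_of_subset hJ'.2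
    · intro K hK
      rw [Finset.mem_powerset] at hK
      ext a
      simp only [Finset.mem_sdiff, Finset.mem_union]
      constructor
      · rintro ⟨h3 | h3, h4⟩
        · exact h3
        · exact absurd h3 h4
      · intro h3
        exact ⟨Or.inl h3, (Finset.mem_sdiff.1 (hK h3)).2⟩
    · intro J _
      rfl
  have h2 : ∑ K ∈ (R \ J0).powerset, ρ⁻¹ ^ K.card = (1 + ρ⁻¹) ^ (R \ J0).card := by
    have := Finset.sum_pow_mul_eq_add_pow ρ⁻¹ 1 (R \ J0)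
    simp only [one_pow, mul_one] at this
    rw [this, add_comm]
  rw [h1, h2]
  apply one_add_pow_le (inv_nonneg.2 hρ0.le)
  have h3 : ((R \ J0).card : ℝ) ≤ R.card := by
    exact_mod_cast Finset.card_le_card Finset.sdiff_subset
  rw [← div_eq_mul_inv, div_le_iff₀ hρ0]
  linarith

/-- **The mean is below the new envelope.**
`x = n ^ (m - 1)`, `l = |Rp γ' S|`, `T' = T (x ^ l)⁻¹ / 2`.
Proof for one `J` (`D ∩ S ⊆ J ⊆ Rp γ' S`, `E = D ∪ J`, so `E ∩ S = J`, `E \ S = D \ S`):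
`Glue.round` gives `E' ⊇ E`; `|lift E' \ lift E| = |(E' \ E) \ S| + m |(E' \ E) ∩ S|`
(`card_lift_sdiff`).  `inv_pow_le` with `k = (m - 1) (l - |J|) ≤ m l = |S|`:
`(n - 1)^{-k} ≤ 2 n^{-k} = 2 (x ^ l)⁻¹ x ^ |J|`.  With `z = |(E' \ E) ∩ S|`,
`|E' ∩ S| = |J| + z`, `E' \ D = ((E' \ E) \ S) ∪ ((E' \ E) ∩ S) ∪ (J \ (D ∩ S))`:
`term ≤ 4 T' x ^ |J| uu (lift E') ρ ^ (|(E' \ E) \ S| + m z)`
`= 4 T' (x ^ |E' ∩ S| uu (lift E')) ρ ^ (|E' \ D|) ρ⁻¹ ^ |J \ (D ∩ S)| (ρ ^ (m-1) / x) ^ z`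
`≤ 4 T' c⁻¹ ^ |D| (uu' E' ρ ^ |E' \ D|) ρ⁻¹ ^ |J \ (D ∩ S)|` (`uu_lift_le`, `|D| ≤ |E'|`, `ρ ≤ n`)
`≤ 4 T' c⁻¹ ^ |D| env' D ρ⁻¹ ^ |J \ (D ∩ S)|` (`le_env`).  Sum: `sum_sup_le`. -/
theorem Glue.X_le {γ γ' : V → V} {S : Finset V} {m n : ℕ} (h : Glue γ γ' S m) (hm : 1 ≤ m)
    {y y' : V → ℝ} {w w' : Finset V → ℝ} (hy : ∀ g, 0 < y g) (hw : ∀ e, 1 ≤ w e)
    (hy' : ∀ g, 0 < y' g) (hw0 : ∀ e, 1 ≤ w' e) {ρ ω c T : ℝ}
    (hρ1 : 1 ≤ ρ) (hρn : ρ ≤ n) (hn : 4 ≤ n) (hl : 2 * ((Rp γ' S).card : ℝ) ≤ ρ)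
    (hSn : 2 * S.card ≤ n) (hc : 1 ≤ c) (hT : 0 < T)
    (hyS : ∀ p ∈ S, y p = y (γ' p))
    (hwS : ∀ p ∈ S, ∀ k ∈ Gr γ, γ' k ≠ γ' p → w {p, k} = w {γ' p, k})
    (hω : ∀ p ∈ S, ∀ p' ∈ S, p ≠ p' → γ' p = γ' p' → w {p, p'} = ω)
    (hy1 : ∀ g ∈ S, γ' g = g → c * ((n : ℝ) ^ (m - 1) * uu y w (fib γ' g)) ≤ y' g)
    (hy2 : ∀ g ∈ Gr γ, g ∉ S → c * y g ≤ y' g)
    (hw' : ∀ g ∈ Gr γ', ∀ k ∈ Gr γ', g ≠ k →
      ∏ a ∈ lf γ' S g, ∏ a' ∈ lf γ' S k, w {a, a'} ≤ w' {g, k})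
    {D : Finset V} (hD : D ⊆ Gr γ') :
    ∑ J ∈ (Rp γ' S).powerset.filter (fun J => D ∩ S ⊆ J),
        (((n : ℝ) - 1) ^ ((m - 1) * ((Rp γ' S).card - J.card)))⁻¹ *
          (T * env γ y w ρ (lift γ' S (D ∪ J))) ≤
      8 * (T * ((n : ℝ) ^ ((m - 1) * (Rp γ' S).card))⁻¹ / 2) * (c⁻¹ ^ D.card *
        env γ' y' w' ρ D) := by
  have hρ0 : 0 < ρ := lt_of_lt_of_le one_pos hρ1
  have hn' : (4 : ℝ) ≤ n := by exact_mod_cast hn
  have hn0 : (0 : ℝ) < n := by linarith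
  have hc0 : 0 < c := lt_of_lt_of_le one_pos hc
  have hDS : D ∩ S ⊆ Rp γ' S := by
    intro g hg
    rw [Finset.mem_inter] at hg
    exact mem_Rp.2 ⟨hg.2, (_root_.Pool.Agent.Helper78.CP.mem_Gr).1 (hD hg.1)⟩
  set l : ℕ := (Rp γ' S).card with hldef
  set x : ℝ := (n : ℝ) ^ (m - 1) with hxdef
  have hx0 : 0 < x := pow_pos hn0 _
  have hxl : (n : ℝ) ^ ((m - 1) * l) = x ^ l := pow_mul _ _ _
  have henv0 : 0 < env γ' y' w' ρ D := env_pos hρ0 hy' hw0 D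
  have hterm : ∀ J ∈ (Rp γ' S).powerset.filter (fun J => D ∩ S ⊆ J),
      (((n : ℝ) - 1) ^ ((m - 1) * (l - J.card)))⁻¹ *
          (T * env γ y w ρ (lift γ' S (D ∪ J))) ≤
      4 * (T * ((n : ℝ) ^ ((m - 1) * l))⁻¹ / 2) * (c⁻¹ ^ D.card * env γ' y' w' ρ D) *
        ρ⁻¹ ^ (J \ (D ∩ S)).card := by
    intro J hJ
    rw [Finset.mem_filter, Finset.mem_powerset] at hJ
    obtain ⟨hJR, hDJ⟩ := hJ
    have hJS : J ⊆ S := fun g hg => (mem_Rp.1 (hJR hg)).1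
    have hJG : J ⊆ Gr γ' := fun g hg =>
      (_root_.Pool.Agent.Helper78.CP.mem_Gr).2 (mem_Rp.1 (hJR hg)).2
    have hE : D ∪ J ⊆ Gr γ' := Finset.union_subset hD hJG
    have hES : (D ∪ J) ∩ S = J := by
      ext g
      simp only [Finset.mem_inter, Finset.mem_union]
      constructor
      · rintro ⟨h1 | h1, h2⟩
        · exact hDJ (Finset.mem_inter.2 ⟨h1, h2⟩)
        · exact h1
      · intro h1
        exact ⟨Or.inr h1, hJS h1⟩
    obtain ⟨E', hEE', hE'G, hround⟩ := h.round hy hw hρ0 hyS hwS hω hE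
    have hDE' : D ⊆ E' := Finset.subset_union_left.trans hEE'
    rw [h.card_lift_sdiff hEE' hE'G] at hround
    set a : ℕ := ((E' \ (D ∪ J)) \ S).card with ha
    set z : ℕ := ((E' \ (D ∪ J)) ∩ S).card with hz
    -- the cardinalities
    have hcS : (E' ∩ S).card = J.card + z := by
      have h1 : E' ∩ S = J ∪ ((E' \ (D ∪ J)) ∩ S) := by
        ext g
        simp only [Finset.mem_inter, Finset.mem_union, Finset.mem_sdiff]
        constructor
        · rintro ⟨h1, h2⟩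
          by_cases h3 : g ∈ J
          · exact Or.inl h3
          · refine Or.inr ⟨⟨h1, ?_⟩, h2⟩
            rintro (h4 | h4)
            · exact h3 (hDJ (Finset.mem_inter.2 ⟨h4, h2⟩))
            · exact h3 h4
        · rintro (h1 | ⟨⟨h1, _⟩, h2⟩)
          · exact ⟨hEE' (Finset.mem_union_right _ h1), hJS h1⟩
          · exact ⟨h1, h2⟩
      rw [h1, Finset.card_union_of_disjoint]
      rw [Finset.disjoint_left]
      intro g h2 h3
      rw [Finset.mem_inter, Finset.mem_sdiff] at h3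
      exact h3.1.2 (Finset.mem_union_right _ h2)
    have hcD : (E' \ D).card = a + z + (J \ (D ∩ S)).card := by
      have h1 : E' \ D = (E' \ (D ∪ J)) ∪ (J \ (D ∩ S)) := by
        ext g
        simp only [Finset.mem_inter, Finset.mem_union, Finset.mem_sdiff]
        constructor
        · rintro ⟨h1, h2⟩
          by_cases h3 : g ∈ J
          · exact Or.inr ⟨h3, fun h4 => h2 h4.1⟩
          · refine Or.inl ⟨h1, ?_⟩
            rintro (h4 | h4)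
            · exact h2 h4
            · exact h3 h4
        · rintro (⟨h1, h2⟩ | ⟨h1, h2⟩)
          · exact ⟨h1, fun h3 => h2 (Or.inl h3)⟩
          · exact ⟨hEE' (Finset.mem_union_right _ h1), fun h3 => h2 ⟨h3, hJS h1⟩⟩
      have h2 : Disjoint (E' \ (D ∪ J)) (J \ (D ∩ S)) := by
        rw [Finset.disjoint_left]
        intro g h2 h3
        rw [Finset.mem_sdiff] at h2 h3
        exact h2.2 (Finset.mem_union_right _ h3.1)
      rw [h1, Finset.card_union_of_disjoint h2,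
        ← Finset.card_sdiff_add_card_inter (E' \ (D ∪ J)) S]
    have hJl : J.card ≤ l := Finset.card_le_card hJR
    -- the factor of the mean
    have hk : 2 * ((m - 1) * (l - J.card)) ≤ n := by
      have h1 : (m - 1) * (l - J.card) ≤ m * l :=
        Nat.mul_le_mul (Nat.sub_le _ _) (Nat.sub_le _ _)
      have h2 := h.card_S
      rw [← hldef] at h2
      omega
    have hinv := inv_pow_le hn hk
    have hnk : ((n : ℝ) ^ ((m - 1) * (l - J.card)))⁻¹ = (x ^ l)⁻¹ * x ^ J.card := by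
      have h1 : x ^ l = (n : ℝ) ^ ((m - 1) * (l - J.card)) * x ^ J.card := by
        rw [pow_mul, ← hxdef, ← pow_add]
        congr 1
        omega
      rw [h1]
      have h2 : (n : ℝ) ^ ((m - 1) * (l - J.card)) ≠ 0 := (pow_pos hn0 _).ne'
      have h3 : x ^ J.card ≠ 0 := (pow_pos hx0 _).ne'
      field_simp
    -- the weight
    have hup := h.uu_lift_le hy hw hc hx0 hy1 hy2 hw' hE'G
    have huu0 : 0 < uu y w (lift γ' S E') := uu_pos hy hw _
    have huu'0 : 0 < uu y' w' E' := uu_pos hy' hw0 _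
    have hcE : c ^ D.card ≤ c ^ E'.card := pow_le_pow_right₀ hc (Finset.card_le_card hDE')
    have hup2 : x ^ (J.card + z) * uu y w (lift γ' S E') ≤ c⁻¹ ^ D.card * uu y' w' E' := by
      rw [hcS] at hup
      have h1 : 0 < x ^ (J.card + z) * uu y w (lift γ' S E') := by positivity
      have h2 : c ^ D.card * (x ^ (J.card + z) * uu y w (lift γ' S E')) ≤ uu y' w' E' :=
        (mul_le_mul_of_nonneg_right hcE h1.le).trans hup
      rw [inv_pow, ← div_eq_inv_mul, le_div_iff₀ (pow_pos hc0 _), mul_comm]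
      exact h2
    have hle := le_env (γ := γ') (y := y') (w := w') (ρ := ρ) hDE' hE'G
    -- powers of ρ
    have hρz : ρ ^ (a + m * z) ≤ x ^ z * ρ ^ (a + z) := by
      have h1 : a + m * z = (m - 1) * z + (a + z) := by
        obtain ⟨m', rfl⟩ : ∃ m', m = m' + 1 := ⟨m - 1, by omega⟩
        simp only [Nat.add_sub_cancel]
        ring
      rw [h1, pow_add, pow_mul]
      apply mul_le_mul_of_nonneg_right _ (by positivity)
      exact pow_le_pow_left₀ (by positivity) (pow_le_pow_left₀ hρ0.le hρn _) _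
    have hρD : ρ ^ (a + z) = ρ ^ (E' \ D).card * ρ⁻¹ ^ (J \ (D ∩ S)).card := by
      rw [hcD, pow_add ρ (a + z), inv_pow, mul_assoc, mul_inv_cancel₀ (pow_pos hρ0 _).ne', mul_one]
    -- assemble
    have hr0 : 0 < ρ⁻¹ ^ (J \ (D ∩ S)).card := pow_pos (inv_pos.2 hρ0) _
    have hci0 : 0 < c⁻¹ ^ D.card := pow_pos (inv_pos.2 hc0) _
    have hfin : x ^ J.card * (uu y w (lift γ' S E') * ρ ^ (a + m * z)) ≤
        c⁻¹ ^ D.card * env γ' y' w' ρ D * ρ⁻¹ ^ (J \ (D ∩ S)).card := by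
      calc x ^ J.card * (uu y w (lift γ' S E') * ρ ^ (a + m * z))
          ≤ x ^ J.card * (uu y w (lift γ' S E') * (x ^ z * ρ ^ (a + z))) := by
            apply mul_le_mul_of_nonneg_left _ (pow_pos hx0 _).le
            exact mul_le_mul_of_nonneg_left hρz huu0.le
        _ = (x ^ (J.card + z) * uu y w (lift γ' S E')) * ρ ^ (a + z) := by
            rw [pow_add]; ring
        _ ≤ (c⁻¹ ^ D.card * uu y' w' E') * ρ ^ (a + z) :=
            mul_le_mul_of_nonneg_right hup2 (by positivity)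
        _ = c⁻¹ ^ D.card * (uu y' w' E' * ρ ^ (E' \ D).card) * ρ⁻¹ ^ (J \ (D ∩ S)).card := by
            rw [hρD]; ring
        _ ≤ c⁻¹ ^ D.card * env γ' y' w' ρ D * ρ⁻¹ ^ (J \ (D ∩ S)).card := by
            apply mul_le_mul_of_nonneg_right _ hr0.le
            exact mul_le_mul_of_nonneg_left hle hci0.le
    have hn1 : 0 < ((n : ℝ) - 1) ^ ((m - 1) * (l - J.card)) := pow_pos (by linarith) _
    have hxl0 : 0 < (x ^ l)⁻¹ := inv_pos.2 (pow_pos hx0 _)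
    calc (((n : ℝ) - 1) ^ ((m - 1) * (l - J.card)))⁻¹ *
          (T * env γ y w ρ (lift γ' S (D ∪ J)))
        ≤ (2 * ((n : ℝ) ^ ((m - 1) * (l - J.card)))⁻¹) *
          (T * (uu y w (lift γ' S E') * ρ ^ (a + m * z))) := by
          apply mul_le_mul hinv _ _ (by positivity)
          · exact mul_le_mul_of_nonneg_left hround hT.le
          · exact (mul_pos hT (env_pos hρ0 hy hw _)).le
      _ = 2 * T * (x ^ l)⁻¹ * (x ^ J.card * (uu y w (lift γ' S E') * ρ ^ (a + m * z))) := by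
          rw [hnk]; ring
      _ ≤ 2 * T * (x ^ l)⁻¹ * (c⁻¹ ^ D.card * env γ' y' w' ρ D *
            ρ⁻¹ ^ (J \ (D ∩ S)).card) :=
          mul_le_mul_of_nonneg_left hfin (by positivity)
      _ = 4 * (T * ((n : ℝ) ^ ((m - 1) * l))⁻¹ / 2) * (c⁻¹ ^ D.card * env γ' y' w' ρ D) *
            ρ⁻¹ ^ (J \ (D ∩ S)).card := by
          rw [hxl]; ring
  refine (Finset.sum_le_sum hterm).trans ?_
  rw [← Finset.mul_sum]
  have hs := sum_sup_le hDS hρ1 hl
  have hp : 0 ≤ 4 * (T * ((n : ℝ) ^ ((m - 1) * l))⁻¹ / 2) * (c⁻¹ ^ D.card * env γ' y' w' ρ D) := by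
    positivity
  calc 4 * (T * ((n : ℝ) ^ ((m - 1) * l))⁻¹ / 2) * (c⁻¹ ^ D.card * env γ' y' w' ρ D) *
        ∑ J ∈ (Rp γ' S).powerset.filter (fun J => D ∩ S ⊆ J), ρ⁻¹ ^ (J \ (D ∩ S)).card
      ≤ 4 * (T * ((n : ℝ) ^ ((m - 1) * l))⁻¹ / 2) * (c⁻¹ ^ D.card * env γ' y' w' ρ D) * 2 :=
        mul_le_mul_of_nonneg_left hs hp
    _ = 8 * (T * ((n : ℝ) ^ ((m - 1) * l))⁻¹ / 2) * (c⁻¹ ^ D.card * env γ' y' w' ρ D) := by ring

end Pool.Agent.Helper78.CP
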