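import Pool.Agent.Helper78.CP.BX
import Pool.Agent.Helper78.CP.BAgree
import Pool.Agent.Helper78.CP.BAvg

/-! Module BP-7: the birth step. -/

set_option autoImplicit false

namespace Pool.Agent.Helper78.CP

open Finset Pool.Agent.Helper25.CliqueGame

variable {N : ℕ} {V : Type*} [Fintype V] [DecidableEq V]

omit [Fintype V] in
/-- A numbering of the vertices allowed at each position. -/
lemma birth_exists_en {n : ℕ} (hn4 : 4 ≤ n) (U : V → Finset (Fin N)) (S : Finset V)
    (hn : ∀ p ∈ S, (U p).card = n) :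
    ∃ en : V → Fin N → Fin n, ∀ p ∈ S, Set.InjOn (en p) (U p) := by
  classical
  have key : ∀ p, ∃ e : Fin N → Fin n, p ∈ S → Set.InjOn e (U p) := by
    intro p
    by_cases hp : p ∈ S
    · let e := Finset.equivFinOfCardEq (hn p hp)
      refine ⟨fun a => if ha : a ∈ U p then e ⟨a, ha⟩ else ⟨0, by omega⟩, fun _ => ?_⟩
      intro a ha b hb hab
      have ha' : a ∈ U p := ha
      have hb' : b ∈ U p := hb
      simp only [dif_pos ha', dif_pos hb'] at hab
      exact congrArg Subtype.val (e.injective hab)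
    · exact ⟨fun _ => ⟨0, by omega⟩, fun h => absurd h hp⟩
  choose en hen using key
  exact ⟨en, fun p hp => hen p hp⟩

lemma Glue.birth_Gr_sub {γ γ' : V → V} {S : Finset V} {m : ℕ} (h : Glue γ γ' S m) : Gr γ' ⊆ Gr γ := by
  intro g hg
  rw [CP.mem_Gr]
  rcases (h.mem_Gr g).1 hg with ⟨h1, _⟩ | ⟨_, h2⟩
  · exact h.fix g h1
  · exact h2

lemma birth_Rp_sub {γ' : V → V} {S : Finset V} : Rp γ' S ⊆ Gr γ' := by
  intro g hg
  rw [CP.mem_Gr]
  exact (mem_Rp.1 hg).2

lemma birth_Gr_inter {γ' : V → V} {S : Finset V} : Gr γ' ∩ S = Rp γ' S := by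
  ext g
  rw [Finset.mem_inter, CP.mem_Gr, mem_Rp, and_comm]

theorem birth_step {m n : ℕ} (hm : 1 ≤ m) {U : V → Finset (Fin N)} {γ γ' : V → V} {S : Finset V}
    (h : Glue γ γ' S m) (hn : ∀ p ∈ S, (U p).card = n)
    {y y' : V → ℝ} {w w' : Finset V → ℝ} (hy : ∀ g, 0 < y g) (hw : ∀ e, 1 ≤ w e)
    (hy' : ∀ g, 0 < y' g) (hw0 : ∀ e, 1 ≤ w' e) {ρ ω c T : ℝ}
    (hρ1 : 1 ≤ ρ) (hρn : ρ ≤ n) (hn4 : 4 ≤ n) (hl : 2 * ((Rp γ' S).card : ℝ) ≤ ρ)
    (hSn : 2 * S.card ≤ n) (hc : 16 * ((Gr γ).card : ℝ) ≤ c) (hc2 : 2 ≤ c) (hT : 0 < T)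
    (hG : (Gr γ').Nonempty)
    (hyS : ∀ p ∈ S, y p = y (γ' p))
    (hwS : ∀ p ∈ S, ∀ k ∈ Gr γ, γ' k ≠ γ' p → w {p, k} = w {γ' p, k})
    (hω : ∀ p ∈ S, ∀ p' ∈ S, p ≠ p' → γ' p = γ' p' → w {p, p'} = ω)
    (hy1 : ∀ g ∈ S, γ' g = g → c * ((n : ℝ) ^ (m - 1) * uu y w (fib γ' g)) ≤ y' g)
    (hy2 : ∀ g ∈ Gr γ, g ∉ S → c * y g ≤ y' g)
    (hw' : ∀ g ∈ Gr γ', ∀ k ∈ Gr γ', g ≠ k →
      ∏ a ∈ lf γ' S g, ∏ a' ∈ lf γ' S k, w {a, a'} ≤ w' {g, k})
    {Pr Pr' : Finset (Finset V)}
    (hPr : ∀ p ∈ S, ∀ p' ∈ S, p ≠ p' → γ' p = γ' p' → {p, p'} ∈ Pr)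
    (hPr' : ∀ g ∈ Gr γ', ∀ k ∈ Gr γ', g ≠ k → {g, k} ∈ Pr' →
      ∀ a ∈ lf γ' S g, ∀ a' ∈ lf γ' S k, {a, a'} ∈ Pr)
    (hu : 1 ≤ T * uu y w (Gr γ))
    {M B : Finset (Sym2 (Fin N))} {F : Finset (V → Fin N)}
    (hS : State U γ y w ρ T Pr M B F) :
    (∃ F', State U γ' y' w' ρ (T * ((n : ℝ) ^ ((m - 1) * (Rp γ' S).card))⁻¹ / 2) Pr' M B F') ∧
      1 ≤ T * ((n : ℝ) ^ ((m - 1) * (Rp γ' S).card))⁻¹ / 2 * uu y' w' (Gr γ') := by
  classical
  have hn0 : (0 : ℝ) < n := by
    have : (4 : ℝ) ≤ n := by exact_mod_cast hn4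
    linarith
  have hc1 : (1 : ℝ) ≤ c := by linarith
  have hc0 : (0 : ℝ) < c := by linarith
  have hρ0 : (0 : ℝ) < ρ := by linarith
  set p0 : ℝ := ((n : ℝ) ^ ((m - 1) * (Rp γ' S).card))⁻¹ with hp0
  have hpow : (0 : ℝ) < (n : ℝ) ^ ((m - 1) * (Rp γ' S).card) := pow_pos hn0 _
  have hp0pos : 0 < p0 := inv_pos.2 hpow
  set T' : ℝ := T * p0 / 2 with hT'
  have hT'pos : 0 < T' := by positivity
  constructor
  · obtain ⟨en, hen⟩ := birth_exists_en hn4 U S hn
    have hcard : (Fintype.card (V → Equiv.Perm (Fin n)) : ℝ) = (n.factorial : ℝ) ^ Fintype.card V := by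
      rw [Fintype.card_fun, Fintype.card_perm, Fintype.card_fin]
      push_cast
      rfl
    have henv : ∀ D, 0 < env γ' y' w' ρ D := fun D => env_pos hρ0 hy' hw0 D
    obtain ⟨τ, F'', hF'', hcomp, hFc, hcap⟩ := avg_prune (Ω := V → Equiv.Perm (Fin n)) F
      ((Gr γ').powerset.filter (fun D => 2 ≤ D.card))
      (fun D f f' => ∀ p, γ' p ∈ D → f' p = f p)
      (fun τ f => comp γ' S en τ f) (p0 := p0) hp0pos.le
      (by
        intro f _
        have h1 := card_comp h en f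
        rw [hcard, ← h1, hp0, ← mul_assoc, inv_mul_cancel₀ hpow.ne', one_mul])
      (fun D => 8 * T' * (c⁻¹ ^ D.card * env γ' y' w' ρ D)) (fun D => T' * env γ' y' w' ρ D)
      (fun D _ => mul_pos hT'pos (henv D))
      (by
        intro f hf D hD
        rw [Finset.mem_filter, Finset.mem_powerset] at hD
        obtain ⟨hDG, hD2⟩ := hD
        have h1 := cond_mean (by omega : 2 ≤ n) h hen hS.mem hf hDG
        have h2 := h.X_le hm hy hw hy' hw0 hρ1 hρn hn4 hl hSn hc1 hT hyS hwS hω hy1 hy2 hw' hDG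
        have h3 : ∑ J ∈ (Rp γ' S).powerset.filter (fun J => D ∩ S ⊆ J),
            (((n : ℝ) - 1) ^ ((m - 1) * ((Rp γ' S).card - J.card)))⁻¹ *
              (cnt F γ f (lift γ' S (D ∪ J)) : ℝ) ≤
            ∑ J ∈ (Rp γ' S).powerset.filter (fun J => D ∩ S ⊆ J),
              (((n : ℝ) - 1) ^ ((m - 1) * ((Rp γ' S).card - J.card)))⁻¹ *
                (T * env γ y w ρ (lift γ' S (D ∪ J))) := by
          apply Finset.sum_le_sum
          intro J hJ
          rw [Finset.mem_filter, Finset.mem_powerset] at hJ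
          have hDJ : D ∪ J ⊆ Gr γ' := Finset.union_subset hDG (hJ.1.trans birth_Rp_sub)
          apply mul_le_mul_of_nonneg_left
          · apply hS.cap f hf _ (h.lift_sub hDJ)
            rw [h.card_lift hDJ]
            have h4 : D.card ≤ (D ∪ J).card := Finset.card_le_card Finset.subset_union_left
            have h5 := Finset.card_sdiff_add_card_inter (D ∪ J) S
            have h6 : ((D ∪ J) ∩ S).card ≤ m * ((D ∪ J) ∩ S).card :=
              Nat.le_mul_of_pos_left _ hm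
            omega
          · apply inv_nonneg.2
            apply pow_nonneg
            have : (4 : ℝ) ≤ n := by exact_mod_cast hn4
            linarith
        have h4 : (n.factorial : ℝ) ^ Fintype.card V * ∑ J ∈ (Rp γ' S).powerset.filter
            (fun J => D ∩ S ⊆ J), (((n : ℝ) - 1) ^ ((m - 1) * ((Rp γ' S).card - J.card)))⁻¹ *
              (cnt F γ f (lift γ' S (D ∪ J)) : ℝ) ≤ (n.factorial : ℝ) ^ Fintype.card V *
              (8 * T' * (c⁻¹ ^ D.card * env γ' y' w' ρ D)) :=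
          mul_le_mul_of_nonneg_left (h3.trans h2) (by positivity)
        have h5 := h1.trans h4
        rw [hcard]
        rw [← mul_le_mul_iff_right₀ hpow]
        refine le_trans (le_of_eq ?_) (h5.trans (le_of_eq ?_))
        · congr 1
          refine Finset.sum_congr ?_ fun _ _ => rfl
          ext f'
          simp only [Finset.mem_filter]
        · rw [hp0]
          field_simp)
      (by
        have h1 : ∀ D ∈ (Gr γ').powerset.filter (fun D => 2 ≤ D.card),
            8 * T' * (c⁻¹ ^ D.card * env γ' y' w' ρ D) / (T' * env γ' y' w' ρ D) =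
              8 * c⁻¹ ^ D.card := by
          intro D _
          have h2 := (henv D).ne'
          have h3 := hT'pos.ne'
          field_simp
        rw [Finset.sum_congr rfl h1, ← Finset.mul_sum]
        have h2 : ((Gr γ').card : ℝ) * c⁻¹ ≤ 1 / 16 := by
          have h3 : ((Gr γ').card : ℝ) ≤ (Gr γ).card := by
            exact_mod_cast Finset.card_le_card h.birth_Gr_sub
          rw [← div_eq_mul_inv, div_le_iff₀ hc0]
          linarith
        have h3 := sum_two_le (Gr γ') (inv_nonneg.2 hc0.le) h2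
        linarith)
    refine ⟨F'', ?_, ?_, ?_, ?_, ?_, ?_, ?_⟩
    · exact fun f hf p => hS.mem f (hF'' hf) p
    · intro f hf f' hf'
      exact comp_coh h hen (hS.mem f (hF'' hf)) (hS.mem f' (hF'' hf'))
        (hS.coh f (hF'' hf) f' (hF'' hf')) (hcomp f hf) (hcomp f' hf')
    · refine le_trans ?_ hFc
      rw [hT', mul_comm T p0]
      have h1 := mul_le_mul_of_nonneg_left hS.card hp0pos.le
      linarith
    · intro f hf D hD hD2
      have h1 := hcap f hf D (by
        rw [Finset.mem_filter, Finset.mem_powerset]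
        exact ⟨hD, hD2⟩)
      unfold cnt
      refine le_trans (le_of_eq ?_) h1
      congr 2
      ext f'
      simp only [Finset.mem_filter]
    · exact fun f hf => hS.alive f (hF'' hf)
    · intro f hf p p' hne hpp
      by_cases heq : γ' p = γ' p'
      · by_cases hp : p ∈ S
        · have hp' : p' ∈ S := by
            rw [← h.mem_iff p', ← heq, h.mem_iff p]
            exact hp
          apply hS.proc f (hF'' hf) p p' hne
          right
          rw [h.fix p hp, h.fix p' hp']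
          exact hPr p hp p' hp' hne heq
        · have hp' : p' ∉ S := by
            rw [← h.mem_iff p', ← heq, h.mem_iff p]
            exact hp
          apply hS.proc f (hF'' hf) p p' hne
          left
          rw [← h.out p hp, ← h.out p' hp', heq]
      · rcases hpp with h1 | h1
        · exact absurd h1 heq
        apply hS.proc f (hF'' hf) p p' hne
        right
        have hlf : ∀ q, γ q ∈ lf γ' S (γ' q) := by
          intro q
          unfold lf
          by_cases hq : q ∈ S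
          · rw [if_pos ((h.mem_iff q).2 hq), h.fix q hq, mem_fib]
          · rw [if_neg (fun h2 => hq ((h.mem_iff q).1 h2)), Finset.mem_singleton, h.out q hq]
        exact hPr' (γ' p) (CP.mem_Gr.2 (h.idem' p)) (γ' p') (CP.mem_Gr.2 (h.idem' p')) heq h1
          (γ p) (hlf p) (γ p') (hlf p')
    · exact hS.disj
  · have h1 := h.uu_lift_le hy hw hc1 (pow_pos hn0 (m - 1)) hy1 hy2 hw' (Finset.Subset.refl (Gr γ'))
    rw [h.lift_Gr, birth_Gr_inter, ← pow_mul] at h1
    have h2 : (2 : ℝ) ≤ c ^ (Gr γ').card := by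
      calc (2 : ℝ) ≤ c := hc2
        _ = c ^ 1 := (pow_one c).symm
        _ ≤ c ^ (Gr γ').card := pow_le_pow_right₀ hc1 hG.card_pos
    have h3 : T' * (c ^ (Gr γ').card * ((n : ℝ) ^ ((m - 1) * (Rp γ' S).card) * uu y w (Gr γ))) ≤
        T' * uu y' w' (Gr γ') := mul_le_mul_of_nonneg_left h1 hT'pos.le
    refine le_trans ?_ h3
    have h4 : T' * (c ^ (Gr γ').card * ((n : ℝ) ^ ((m - 1) * (Rp γ' S).card) * uu y w (Gr γ))) =
        c ^ (Gr γ').card / 2 * (T * uu y w (Gr γ)) := by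
      rw [hT', hp0]
      field_simp
    rw [h4]
    nlinarith

end Pool.Agent.Helper78.CP
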