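import Pool.Agent.Helper78.CP.Atoms

set_option autoImplicit false

/-! Module CP-3: counting structures in terms of positions. -/

namespace Pool.Agent.Helper78.CP

open Finset Pool.Agent.Helper78.CH

variable {N : ℕ} {V : Type*} [Fintype V] [DecidableEq V]

/-- The family of the structures as sets of atoms. -/
def F0 (F : Finset (V → Fin N)) (γ : V → V) : Finset (Finset (Finset (Fin N))) :=
  F.image (fun f => ats γ f (Gr γ))

/-- `str_inj` and `ats_sub_iff`: the filter is the injective image of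
`F.filter (fun f' => ∀ p, γ p ∈ D → f' p = f p)`. -/
theorem card_filter_F0 {U : V → Finset (Fin N)} (hU : ∀ p p', p ≠ p' → Disjoint (U p) (U p'))
    {γ : V → V} (hγ : ∀ p, γ (γ p) = γ p) {F : Finset (V → Fin N)}
    (hF : ∀ f ∈ F, ∀ p, f p ∈ U p) {F' : Finset (V → Fin N)} (hF' : F' ⊆ F)
    {f : V → Fin N} (hf : f ∈ F) {D : Finset V} (hD : D ⊆ Gr γ) :
    ((F0 F' γ).filter (fun A => ats γ f D ⊆ A)).card = cnt F' γ f D := by
  have hf' : ∀ p, f p ∈ U p := hF f hf
  unfold F0 cnt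
  rw [Finset.filter_image, Finset.card_image_of_injOn]
  · congr 1
    apply Finset.filter_congr
    intro f1 hf1
    exact ats_sub_iff hU hf' (hF f1 (hF' hf1)) hD
  · intro f1 hf1 f2 hf2 h12
    have h1 : f1 ∈ F := hF' (Finset.mem_filter.1 hf1).1
    have h2 : f2 ∈ F := hF' (Finset.mem_filter.1 hf2).1
    exact str_inj hU hγ (hF f1 h1) (hF f2 h2) h12

/-- Proof: `EI (CA F γ C) (ats γ f D)` is the injective image (`e ↦ ats γ f e`) of
`C.filter (· ⊆ D)`: if `ats γ f' e ⊆ ats γ f D` with `f' ∈ F`, `e ∈ C` then by `atm_inj` every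
`g ∈ e` is in `D` and `atm γ f' g = atm γ f g`, so `ats γ f' e = ats γ f e`; `ats γ f` is injective
on subsets of `Gr γ` (`dm_ats`). -/
theorem card_EI {U : V → Finset (Fin N)} (hU : ∀ p p', p ≠ p' → Disjoint (U p) (U p'))
    {γ : V → V} {F : Finset (V → Fin N)}
    (hF : ∀ f ∈ F, ∀ p, f p ∈ U p) {C : Finset (Finset V)} (hC : ∀ e ∈ C, e.card = 2 ∧ e ⊆ Gr γ)
    {f : V → Fin N} (hf : f ∈ F) {D : Finset V} (hD : D ⊆ Gr γ) :
    (EI (CA F γ C) (ats γ f D)).card = (C.filter (fun e => e ⊆ D)).card := by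
  have hfU : ∀ p, f p ∈ U p := hF f hf
  have hEI : EI (CA F γ C) (ats γ f D) = (C.filter (fun e => e ⊆ D)).image (ats γ f) := by
    ext x
    simp only [EI, CA, Finset.mem_filter, Finset.mem_biUnion, Finset.mem_image]
    constructor
    · rintro ⟨⟨f', hf', e, he, rfl⟩, hsub⟩
      have key : ∀ g ∈ e, g ∈ D ∧ atm γ f g = atm γ f' g := by
        intro g hg
        have h1 : atm γ f' g ∈ ats γ f D := hsub (Finset.mem_image_of_mem _ hg)
        obtain ⟨g', hg', h2⟩ := Finset.mem_image.1 h1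
        obtain ⟨h3, -⟩ := atm_inj hU (hF f' hf') hfU ((hC e he).2 hg) h2.symm
        subst h3
        exact ⟨hg', h2⟩
      refine ⟨e, ⟨he, fun g hg => (key g hg).1⟩, ?_⟩
      exact Finset.image_congr (fun g hg => (key g hg).2)
    · rintro ⟨e, ⟨he, heD⟩, rfl⟩
      exact ⟨⟨f, hf, e, he, rfl⟩, Finset.image_subset_image heD⟩
  rw [hEI, Finset.card_image_of_injOn]
  intro e he e' he' hee
  have h1 := (hC e (Finset.mem_filter.1 he).1).2
  have h2 := (hC e' (Finset.mem_filter.1 he').1).2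
  rw [← dm_ats hU hfU h1, ← dm_ats hU hfU h2]
  exact congrArg _ hee

/-- Proof: for `A = ats γ f' (Gr γ)` with `ats γ f D ⊆ A` we have `ats γ f D = ats γ f' D`
(`ats_sub_iff`), so by `card_EI` (for `f'`, `Gr γ` and for `f'`, `D`)
`wt = β⁻¹ ^ (|C| - k)`, `k = (C.filter (· ⊆ D)).card`; `card_filter_F0`. -/
theorem tt_F0 {U : V → Finset (Fin N)} (hU : ∀ p p', p ≠ p' → Disjoint (U p) (U p'))
    {γ : V → V} (hγ : ∀ p, γ (γ p) = γ p) {F : Finset (V → Fin N)}
    (hF : ∀ f ∈ F, ∀ p, f p ∈ U p) {C : Finset (Finset V)} (hC : ∀ e ∈ C, e.card = 2 ∧ e ⊆ Gr γ)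
    {β : ℝ} (hβ : 1 ≤ β) {f : V → Fin N} (hf : f ∈ F) {D : Finset V} (hD : D ⊆ Gr γ) :
    tt β (CA F γ C) ∅ (F0 F γ) (ats γ f D) ∅ =
      (cnt F γ f D : ℝ) * (β⁻¹ ^ C.card * β ^ (C.filter (fun e => e ⊆ D)).card) := by
  have hβ0 : β ≠ 0 := by positivity
  have hkC : (C.filter (fun e => e ⊆ D)).card ≤ C.card := Finset.card_filter_le _ _
  unfold tt
  have hfil : (F0 F γ).filter (fun A => ats γ f D ⊆ A ∧ ∅ ⊆ A) =
      (F0 F γ).filter (fun A => ats γ f D ⊆ A) := by
    apply Finset.filter_congr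
    intro A _
    simp
  rw [hfil, ← card_filter_F0 hU hγ hF (Finset.Subset.refl F) hf hD, ← nsmul_eq_mul]
  apply Finset.sum_eq_card_nsmul
  intro A hA
  obtain ⟨hA, hsub⟩ := Finset.mem_filter.1 hA
  obtain ⟨f', hf', rfl⟩ := Finset.mem_image.1 hA
  have h1 : (EI (CA F γ C) (ats γ f' (Gr γ))).card = C.card := by
    rw [card_EI hU hF hC hf' (Finset.Subset.refl _)]
    congr 1
    exact Finset.filter_true_of_mem (fun e he => (hC e he).2)
  have h2 := card_EI hU hF hC hf hD
  have h3 : EI (CA F γ C) (ats γ f D) ⊆ EI (CA F γ C) (ats γ f' (Gr γ)) := by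
    intro e he
    obtain ⟨he1, he2⟩ := Finset.mem_filter.1 he
    exact Finset.mem_filter.2 ⟨he1, he2.trans hsub⟩
  unfold wt
  rw [Finset.sdiff_empty, Finset.card_sdiff_of_subset h3, h1, h2]
  rw [← Nat.sub_add_cancel hkC, pow_add, Nat.add_sub_cancel, mul_assoc, inv_pow β (Finset.card _),
    inv_mul_cancel₀ (pow_ne_zero _ hβ0), mul_one]

/-- As `tt_F0` with `D = ∅` (no `f` is needed). -/
theorem tt_F0_empty {U : V → Finset (Fin N)} (hU : ∀ p p', p ≠ p' → Disjoint (U p) (U p'))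
    {γ : V → V} (hγ : ∀ p, γ (γ p) = γ p) {F : Finset (V → Fin N)}
    (hF : ∀ f ∈ F, ∀ p, f p ∈ U p) {C : Finset (Finset V)} (hC : ∀ e ∈ C, e.card = 2 ∧ e ⊆ Gr γ)
    {β : ℝ} (hβ : 1 ≤ β) :
    tt β (CA F γ C) ∅ (F0 F γ) ∅ ∅ = (F.card : ℝ) * β⁻¹ ^ C.card := by
  rcases F.eq_empty_or_nonempty with rfl | ⟨f, hf⟩
  · simp [tt, F0]
  · have h := tt_F0 hU hγ hF hC hβ hf (Finset.empty_subset (Gr γ))
    have h1 : ats γ f ∅ = ∅ := by simp [ats]
    have h2 : cnt F γ f ∅ = F.card := by simp [cnt]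
    have h3 : C.filter (fun e => e ⊆ ∅) = ∅ := by
      apply Finset.filter_false_of_mem
      intro e he hsub
      have := (hC e he).1
      rw [Finset.subset_empty.1 hsub] at this
      simp at this
    rw [h1, h2, h3] at h
    rw [h]
    simp

/-- Proof: for `e ∈ C` the set `ats γ f e` is determined by the values `f g ∈ U g`, `g ∈ e`
(coherence: `f g = f' g`, `g ∈ Gr γ`, implies `f = f'` on the fibre of `g`, so
`atm γ f g = atm γ f' g`).  So `CA F γ C = C.biUnion (fun e => F.image (ats γ · e))` and the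
`e`-th set has at most `∏ g ∈ e, (U g).card` elements (it is the image of a set of functions
restricted to `e`, `Finset.card_pi` or two elements `g ≠ h`). -/
theorem card_CA {U : V → Finset (Fin N)} {γ : V → V} {F : Finset (V → Fin N)}
    (hF : ∀ f ∈ F, ∀ p, f p ∈ U p)
    (hcoh : ∀ f ∈ F, ∀ f' ∈ F, ∀ p p', γ p = γ p' → f p = f' p → f p' = f' p')
    {C : Finset (Finset V)} (hC : ∀ e ∈ C, e.card = 2 ∧ e ⊆ Gr γ) :
    ((CA F γ C).card : ℝ) ≤ ∑ e ∈ C, ∏ g ∈ e, ((U g).card : ℝ) := by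
  classical
  have hsub : CA F γ C ⊆ C.biUnion (fun e => F.image (fun f => ats γ f e)) := by
    intro x hx
    simp only [CA, Finset.mem_biUnion, Finset.mem_image] at hx ⊢
    obtain ⟨f, hf, e, he, rfl⟩ := hx
    exact ⟨e, he, f, hf, rfl⟩
  have hone : ∀ e ∈ C, (F.image (fun f => ats γ f e)).card ≤ ∏ g ∈ e, (U g).card := by
    intro e he
    rw [← Finset.card_pi]
    have hch : ∀ y ∈ F.image (fun f => ats γ f e), ∃ f ∈ F, ats γ f e = y := by
      intro y hy
      exact Finset.mem_image.1 hy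
    rcases F.eq_empty_or_nonempty with hF0 | ⟨f0, -⟩
    · rw [hF0]
      simp
    have : Nonempty (V → Fin N) := ⟨f0⟩
    choose! φ hφ1 hφ2 using hch
    apply Finset.card_le_card_of_injOn (fun y => (fun g (_ : g ∈ e) => φ y g))
    · intro y hy
      rw [Finset.mem_coe, Finset.mem_pi]
      intro g _
      exact hF _ (hφ1 y hy) g
    · intro y hy y' hy' hyy
      have hyy' : ∀ g ∈ e, φ y g = φ y' g := by
        intro g hg
        have := congrFun (congrFun hyy g) hg
        exact this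
      rw [← hφ2 y hy, ← hφ2 y' hy']
      apply Finset.image_congr
      intro g hg
      apply Finset.image_congr
      intro p hp
      have hp' : γ p = g := mem_fib.1 hp
      have hg' : γ g = g := mem_Gr.1 ((hC e he).2 hg)
      exact hcoh _ (hφ1 y hy) _ (hφ1 y' hy') g p (by rw [hp', hg']) (hyy' g hg)
  have h1 : (CA F γ C).card ≤ ∑ e ∈ C, ∏ g ∈ e, (U g).card :=
    (Finset.card_le_card hsub).trans (Finset.card_biUnion_le.trans (Finset.sum_le_sum hone))
  exact_mod_cast h1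

/-- Proof: `card_biUnion_le`, every structure has at most `Fintype.card V` atoms, and
`|F| ≤ N ^ (card V)`. -/
theorem card_valid {γ : V → V} (F : Finset (V → Fin N)) :
    (((F0 F γ).biUnion powerset).card : ℝ) ≤
      (N : ℝ) ^ (Fintype.card V) * 2 ^ (Fintype.card V) := by
  have h1 : ((F0 F γ).biUnion powerset).card ≤ (F0 F γ).card * 2 ^ (Fintype.card V) := by
    apply Finset.card_biUnion_le_card_mul
    intro A hA
    obtain ⟨f, -, rfl⟩ := Finset.mem_image.1 hA
    rw [Finset.card_powerset]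
    apply Nat.pow_le_pow_right (by norm_num)
    exact Finset.card_image_le.trans (Finset.card_le_univ _)
  have h2 : (F0 F γ).card ≤ N ^ (Fintype.card V) := by
    refine Finset.card_image_le.trans ((Finset.card_le_univ _).trans ?_)
    rw [Fintype.card_fun, Fintype.card_fin]
  have h3 := h1.trans (Nat.mul_le_mul_right _ h2)
  exact_mod_cast h3

end Pool.Agent.Helper78.CP
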