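import Mathlib
import Pool.Agent.Helper25.CliqueGame.Final
import Pool.Agent.Helper78.CH.Init

/-!
# The biased clique game, lower bound in the mixture region: positions

Memo: `memo_MP_d32cb0_co_helper78_PartII_v2.md` (team store), sections 2 and 3.

`V` is the set of the vertex positions, `U p` the set of the vertices allowed at the position `p`.
A structure is a function `f : V → Fin N`.  `γ : V → V` (idempotent) gives the groups: a group is a
fibre of `γ`, represented by the fixed point of `γ` in it.
-/

set_option autoImplicit false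

namespace Pool.Agent.Helper78.CP

open Finset Pool.Agent.Helper25.CliqueGame

variable {N : ℕ} {V : Type*} [Fintype V] [DecidableEq V]

/-- The representatives of the groups. -/
def Gr (γ : V → V) : Finset V := univ.filter (fun p => γ p = p)

/-- The positions in the group `g`. -/
def fib (γ : V → V) (g : V) : Finset V := univ.filter (fun p => γ p = g)

/-- The number of members of `F` which agree with `f` on the groups of `D`. -/
def cnt (F : Finset (V → Fin N)) (γ : V → V) (f : V → Fin N) (D : Finset V) : ℕ :=
  (F.filter (fun f' => ∀ p, γ p ∈ D → f' p = f p)).card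

/-- The product weight of a set of groups. -/
noncomputable def uu (y : V → ℝ) (w : Finset V → ℝ) (D : Finset V) : ℝ :=
  (∏ g ∈ D, y g) * ∏ e ∈ D.powersetCard 2, w e

/-- The sets of groups which contain `D`. -/
def sups (γ : V → V) (D : Finset V) : Finset (Finset V) :=
  (Gr γ).powerset.filter (fun D' => D ⊆ D')

open Classical in
/-- The envelope of the product weight. -/
noncomputable def env (γ : V → V) (y : V → ℝ) (w : Finset V → ℝ) (ρ : ℝ) (D : Finset V) : ℝ :=
  if h : (sups γ D).Nonempty then
    (sups γ D).sup' h (fun D' => uu y w D' * ρ ^ (D' \ D).card)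
  else 1

/-- The state of the game between two phases. -/
structure State (U : V → Finset (Fin N)) (γ : V → V) (y : V → ℝ) (w : Finset V → ℝ) (ρ T : ℝ)
    (Pr : Finset (Finset V)) (M B : Finset (Sym2 (Fin N))) (F : Finset (V → Fin N)) : Prop where
  mem : ∀ f ∈ F, ∀ p, f p ∈ U p
  coh : ∀ f ∈ F, ∀ f' ∈ F, ∀ p p', γ p = γ p' → f p = f' p → f p' = f' p'
  card : T ≤ (F.card : ℝ)
  cap : ∀ f ∈ F, ∀ D ⊆ Gr γ, 2 ≤ D.card → (cnt F γ f D : ℝ) ≤ T * env γ y w ρ D
  alive : ∀ f ∈ F, ∀ p p', p ≠ p' → s(f p, f p') ∉ B
  proc : ∀ f ∈ F, ∀ p p', p ≠ p' → (γ p = γ p' ∨ {γ p, γ p'} ∈ Pr) → s(f p, f p') ∈ M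
  disj : Disjoint M B

/-! ### Atoms -/

/-- The atom of the structure `f` at the group `g`. -/
def atm (γ : V → V) (f : V → Fin N) (g : V) : Finset (Fin N) := (fib γ g).image f

/-- The set of the atoms of the structure `f` at the groups of `D`. -/
def ats (γ : V → V) (f : V → Fin N) (D : Finset V) : Finset (Finset (Fin N)) := D.image (atm γ f)

open Classical in
/-- The groups met by a set of atoms. -/
noncomputable def dm (U : V → Finset (Fin N)) (γ : V → V) (W : Finset (Finset (Fin N))) :
    Finset V :=
  (Gr γ).filter (fun g => ∃ a ∈ W, ∃ x ∈ a, ∃ p ∈ fib γ g, x ∈ U p)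

/-- The current pairs of atoms which belong to the pairs of groups in `C`. -/
def CA (F : Finset (V → Fin N)) (γ : V → V) (C : Finset (Finset V)) :
    Finset (Finset (Finset (Fin N))) :=
  F.biUnion (fun f => C.image (ats γ f))

open Classical in
/-- The real edges between the different atoms of `e`. -/
noncomputable def GE (e : Finset (Finset (Fin N))) : Finset (Sym2 (Fin N)) :=
  (edges N).filter (fun z => ∃ a ∈ e, ∃ c ∈ e, a ≠ c ∧ ∃ x ∈ a, ∃ x' ∈ c, z = s(x, x'))

end Pool.Agent.Helper78.CP
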