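import Pool.Agent.Helper78.CP.Atoms

set_option autoImplicit false

/-! Module CP-4: the real edges of a pair of atoms. -/

namespace Pool.Agent.Helper78.CP

open Finset Pool.Agent.Helper25.CliqueGame Pool.Agent.Helper78.CH

variable {N : ℕ} {V : Type*} [Fintype V] [DecidableEq V]

theorem GE_sub (e : Finset (Finset (Fin N))) : GE e ⊆ edges N := Finset.filter_subset _ _

/-- The real edges of the pair of atoms of `f` at the groups `g ≠ h`.
Proof: `ats γ f {g, h} = {atm γ f g, atm γ f h}`, two different (even disjoint) atoms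
(`atm_inj`, `atm_eq_or_disj`); `s(f p, f p')` is an edge because `f p ≠ f p'` (`pos_eq`). -/
theorem mem_GE {U : V → Finset (Fin N)} (hU : ∀ p p', p ≠ p' → Disjoint (U p) (U p'))
    {γ : V → V} {f : V → Fin N} (hf : ∀ p, f p ∈ U p) {g h : V} (hg : g ∈ Gr γ) (hh : h ∈ Gr γ)
    (hgh : g ≠ h) (z : Sym2 (Fin N)) :
    z ∈ GE (ats γ f {g, h}) ↔ ∃ p p', γ p = g ∧ γ p' = h ∧ z = s(f p, f p') := by
  have hne : ∀ p p', γ p = g → γ p' = h → f p ≠ f p' := by
    intro p p' hp hp' hpp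
    have := pos_eq hU hf hf hpp
    subst this
    exact hgh (hp.symm.trans hp')
  have hat : atm γ f g ≠ atm γ f h := by
    intro hc
    exact hgh (atm_inj hU hf hf hg hc).1
  unfold GE
  rw [Finset.mem_filter]
  constructor
  · rintro ⟨-, a, ha, c, hc, hac, x, hx, x', hx', rfl⟩
    simp only [ats, Finset.mem_image, Finset.mem_insert, Finset.mem_singleton] at ha hc
    obtain ⟨g1, hg1, rfl⟩ := ha
    obtain ⟨g2, hg2, rfl⟩ := hc
    obtain ⟨p, hp, rfl⟩ := Finset.mem_image.1 hx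
    obtain ⟨p', hp', rfl⟩ := Finset.mem_image.1 hx'
    have hp1 := mem_fib.1 hp
    have hp2 := mem_fib.1 hp'
    rcases hg1 with rfl | rfl <;> rcases hg2 with rfl | rfl
    · exact absurd rfl hac
    · exact ⟨p, p', hp1, hp2, rfl⟩
    · exact ⟨p', p, hp2, hp1, Sym2.eq_swap⟩
    · exact absurd rfl hac
  · rintro ⟨p, p', hp, hp', rfl⟩
    refine ⟨mem_edges.2 (hne p p' hp hp'), atm γ f g, ?_, atm γ f h, ?_, hat, f p, ?_, f p', ?_, rfl⟩
    · exact Finset.mem_image_of_mem _ (by simp)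
    · exact Finset.mem_image_of_mem _ (by simp)
    · exact Finset.mem_image_of_mem _ (mem_fib.2 hp)
    · exact Finset.mem_image_of_mem _ (mem_fib.2 hp')

/-- `mem_GE`: the set is an image of `fib γ g ×ˢ fib γ h`. -/
theorem card_GE {U : V → Finset (Fin N)} (hU : ∀ p p', p ≠ p' → Disjoint (U p) (U p'))
    {γ : V → V} {f : V → Fin N} (hf : ∀ p, f p ∈ U p) {g h : V} (hg : g ∈ Gr γ) (hh : h ∈ Gr γ)
    (hgh : g ≠ h) : (GE (ats γ f {g, h})).card ≤ (fib γ g).card * (fib γ h).card := by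
  rw [← Finset.card_product]
  have hsub : GE (ats γ f {g, h}) ⊆
      (fib γ g ×ˢ fib γ h).image (fun x => s(f x.1, f x.2)) := by
    intro z hz
    obtain ⟨p, p', hp, hp', rfl⟩ := (mem_GE hU hf hg hh hgh z).1 hz
    exact Finset.mem_image.2 ⟨(p, p'), Finset.mem_product.2 ⟨mem_fib.2 hp, mem_fib.2 hp'⟩, rfl⟩
  exact (Finset.card_le_card hsub).trans Finset.card_image_le

/-- Different pairs of atoms of coherent structures have no common real edge.
Proof: let `z = s(f p, f p1) = s(f' p', f' p1')`; all four atoms which occur are pairwise equal or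
disjoint (`atm_eq_or_disj`), so the two pairs of atoms are equal. -/
theorem GE_disj {U : V → Finset (Fin N)} (hU : ∀ p p', p ≠ p' → Disjoint (U p) (U p'))
    {γ : V → V} {f f' : V → Fin N} (hf : ∀ p, f p ∈ U p) (hf' : ∀ p, f' p ∈ U p)
    (hcoh : ∀ p p', γ p = γ p' → f p = f' p → f p' = f' p')
    {e e' : Finset (Finset (Fin N))} (he : e ⊆ ats γ f (Gr γ)) (he' : e' ⊆ ats γ f' (Gr γ))
    (h2 : e.card = 2) (h2' : e'.card = 2) (hne : e ≠ e') : Disjoint (GE e) (GE e') := by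
  rw [Finset.disjoint_left]
  intro z hz hz'
  apply hne
  have key : ∀ (e1 : Finset (Finset (Fin N))), e1.card = 2 → ∀ a ∈ e1, ∀ c ∈ e1, a ≠ c →
      e1 = {a, c} := by
    intro e1 h1 a ha c hc hac
    symm
    apply Finset.eq_of_subset_of_card_le
    · intro x hx
      rcases Finset.mem_insert.1 hx with rfl | hx
      · exact ha
      · rw [Finset.mem_singleton.1 hx]
        exact hc
    · rw [h1, Finset.card_pair hac]
  have hcom : ∀ a ∈ e, ∀ a' ∈ e', ∀ x, x ∈ a → x ∈ a' → a = a' := by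
    intro a ha a' ha' x hx hx'
    obtain ⟨g, -, rfl⟩ := Finset.mem_image.1 (he ha)
    obtain ⟨g', -, rfl⟩ := Finset.mem_image.1 (he' ha')
    rcases atm_eq_or_disj hU hf hf' hcoh g g' with h | h
    · exact h
    · exact absurd hx' (Finset.disjoint_left.1 h hx)
  obtain ⟨-, a, ha, c, hc, hac, x, hx, x', hx', rfl⟩ := Finset.mem_filter.1 hz
  obtain ⟨-, a', ha', c', hc', hac', y, hy, y', hy', heq⟩ := Finset.mem_filter.1 hz'
  rcases Sym2.eq_iff.1 heq with ⟨h1, h2⟩ | ⟨h1, h2⟩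
  · subst h1 h2
    rw [key e h2 a ha c hc hac, key e' h2' a' ha' c' hc' hac',
      hcom a ha a' ha' _ hx hy, hcom c hc c' hc' _ hx' hy']
  · subst h1 h2
    rw [key e h2 a ha c hc hac, key e' h2' a' ha' c' hc' hac',
      hcom a ha c' hc' _ hx hy', hcom c hc a' ha' _ hx' hy, Finset.pair_comm]

/-- `mem_GE`. -/
theorem alive_iff {U : V → Finset (Fin N)} (hU : ∀ p p', p ≠ p' → Disjoint (U p) (U p'))
    {γ : V → V} (hγ : ∀ p, γ (γ p) = γ p) {f : V → Fin N} (hf : ∀ p, f p ∈ U p)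
    (B : Finset (Sym2 (Fin N))) :
    alive GE B (ats γ f (Gr γ)) ↔ ∀ p p', γ p ≠ γ p' → s(f p, f p') ∉ B := by
  constructor
  · intro h p p' hpp hB
    have hg : γ p ∈ Gr γ := mem_Gr.2 (hγ p)
    have hg' : γ p' ∈ Gr γ := mem_Gr.2 (hγ p')
    have hsub : ats γ f {γ p, γ p'} ⊆ ats γ f (Gr γ) := by
      apply Finset.image_subset_image
      intro x hx
      rcases Finset.mem_insert.1 hx with rfl | hx
      · exact hg
      · rw [Finset.mem_singleton.1 hx]
        exact hg'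
    have hcard : (ats γ f {γ p, γ p'}).card = 2 := by
      rw [card_ats hU hf, Finset.card_pair hpp]
      intro x hx
      rcases Finset.mem_insert.1 hx with rfl | hx
      · exact hg
      · rw [Finset.mem_singleton.1 hx]
        exact hg'
    have hd := h _ hsub hcard
    exact Finset.disjoint_left.1 hd
      ((mem_GE hU hf hg hg' hpp _).2 ⟨p, p', rfl, rfl, rfl⟩) hB
  · intro h e he h2
    obtain ⟨D, hD, rfl⟩ := exists_of_sub he
    rw [card_ats hU hf hD] at h2
    obtain ⟨g, g', hgg, rfl⟩ := Finset.card_eq_two.1 h2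
    have hg : g ∈ Gr γ := hD (by simp)
    have hg' : g' ∈ Gr γ := hD (by simp)
    rw [Finset.disjoint_left]
    intro z hz hB
    obtain ⟨p, p', hp, hp', rfl⟩ := (mem_GE hU hf hg hg' hgg z).1 hz
    exact h p p' (by rw [hp, hp']; exact hgg) hB

/-- `mem_GE`. -/
theorem GE_sub_iff {U : V → Finset (Fin N)} (hU : ∀ p p', p ≠ p' → Disjoint (U p) (U p'))
    {γ : V → V} {f : V → Fin N} (hf : ∀ p, f p ∈ U p) {g h : V} (hg : g ∈ Gr γ) (hh : h ∈ Gr γ)
    (hgh : g ≠ h) (M : Finset (Sym2 (Fin N))) :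
    GE (ats γ f {g, h}) ⊆ M ↔ ∀ p p', γ p = g → γ p' = h → s(f p, f p') ∈ M := by
  constructor
  · intro h1 p p' hp hp'
    exact h1 ((mem_GE hU hf hg hh hgh _).2 ⟨p, p', hp, hp', rfl⟩)
  · intro h1 z hz
    obtain ⟨p, p', hp, hp', rfl⟩ := (mem_GE hU hf hg hh hgh z).1 hz
    exact h1 p p' hp hp'

end Pool.Agent.Helper78.CP
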