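import Pool.Agent.Helper78.CP.Defs

set_option autoImplicit false

/-! Module CP-1: the envelope.  Memo section 2. -/

namespace Pool.Agent.Helper78.CP

open Finset

variable {V : Type*} [Fintype V] [DecidableEq V]

theorem mem_sups {γ : V → V} {D D' : Finset V} : D' ∈ sups γ D ↔ D' ⊆ Gr γ ∧ D ⊆ D' := by
  simp [sups]

/-- `Finset.le_sup'`. -/
theorem le_env {γ : V → V} {y : V → ℝ} {w : Finset V → ℝ} {ρ : ℝ} {D D' : Finset V}
    (h : D ⊆ D') (h' : D' ⊆ Gr γ) : uu y w D' * ρ ^ (D' \ D).card ≤ env γ y w ρ D := by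
  classical
  have hne : (sups γ D).Nonempty := ⟨D', mem_sups.2 ⟨h', h⟩⟩
  unfold env
  rw [dif_pos hne]
  exact Finset.le_sup' (fun D' => uu y w D' * ρ ^ (D' \ D).card) (mem_sups.2 ⟨h', h⟩)

/-- `Finset.exists_mem_eq_sup'`. -/
theorem env_eq {γ : V → V} {y : V → ℝ} {w : Finset V → ℝ} {ρ : ℝ} {D : Finset V}
    (h : D ⊆ Gr γ) : ∃ D', D ⊆ D' ∧ D' ⊆ Gr γ ∧
      env γ y w ρ D = uu y w D' * ρ ^ (D' \ D).card := by
  classical
  have hne : (sups γ D).Nonempty := ⟨D, mem_sups.2 ⟨h, Finset.Subset.refl _⟩⟩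
  obtain ⟨D', hD', he⟩ := Finset.exists_mem_eq_sup' hne
    (fun D' => uu y w D' * ρ ^ (D' \ D).card)
  refine ⟨D', (mem_sups.1 hD').2, (mem_sups.1 hD').1, ?_⟩
  unfold env
  rw [dif_pos hne]
  exact he

theorem uu_pos {y : V → ℝ} {w : Finset V → ℝ} (hy : ∀ g, 0 < y g) (hw : ∀ e, 1 ≤ w e)
    (D : Finset V) : 0 < uu y w D := by
  unfold uu
  apply mul_pos
  · exact Finset.prod_pos fun g _ => hy g
  · exact Finset.prod_pos fun e _ => lt_of_lt_of_le one_pos (hw e)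

/-- If the set of supersets is empty then `env = 1`, otherwise `env_eq` and `uu_pos`. -/
theorem env_pos {γ : V → V} {y : V → ℝ} {w : Finset V → ℝ} {ρ : ℝ} (hρ : 0 < ρ)
    (hy : ∀ g, 0 < y g) (hw : ∀ e, 1 ≤ w e) (D : Finset V) : 0 < env γ y w ρ D := by
  classical
  by_cases hne : (sups γ D).Nonempty
  · obtain ⟨D', hD', he⟩ := Finset.exists_mem_eq_sup' hne
      (fun D' => uu y w D' * ρ ^ (D' \ D).card)
    unfold env
    rw [dif_pos hne, he]
    exact mul_pos (uu_pos hy hw D') (pow_pos hρ _)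
  · unfold env
    rw [dif_neg hne]
    exact one_pos

/-- Proof: `env D'' = uu D' * ρ ^ |D' \ D''|` (`env_eq`), `|D' \ D''| + 1 ≤ |D' \ D|`, `1 ≤ ρ`,
`le_env`. -/
theorem env_ratio {γ : V → V} {y : V → ℝ} {w : Finset V → ℝ} {ρ : ℝ} (hρ : 1 ≤ ρ)
    (hy : ∀ g, 0 < y g) (hw : ∀ e, 1 ≤ w e) {D D'' : Finset V} (h : D ⊂ D'') (h' : D'' ⊆ Gr γ) :
    ρ * env γ y w ρ D'' ≤ env γ y w ρ D := by
  obtain ⟨D', h1, h2, he⟩ := env_eq (y := y) (w := w) (ρ := ρ) h'
  rw [he]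
  have hDD' : D ⊆ D' := h.subset.trans h1
  have hc : (D' \ D'').card + 1 ≤ (D' \ D).card := by
    rw [Finset.card_sdiff_of_subset h1, Finset.card_sdiff_of_subset hDD']
    have h3 := Finset.card_lt_card h
    have h4 := Finset.card_le_card h1
    omega
  calc ρ * (uu y w D' * ρ ^ (D' \ D'').card) = uu y w D' * ρ ^ ((D' \ D'').card + 1) := by
        rw [pow_succ]; ring
    _ ≤ uu y w D' * ρ ^ (D' \ D).card :=
        mul_le_mul_of_nonneg_left (pow_le_pow_right₀ hρ hc) (uu_pos hy hw D').le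
    _ ≤ env γ y w ρ D := le_env hDD' h2

/-- The weight of the pairs after a phase with the current pairs `C`. -/
def wC (β : ℝ) (C : Finset (Finset V)) (w : Finset V → ℝ) : Finset V → ℝ :=
  fun e => if e ∈ C then β * w e else w e

theorem one_le_wC {β : ℝ} (hβ : 1 ≤ β) (C : Finset (Finset V)) {w : Finset V → ℝ}
    (hw : ∀ e, 1 ≤ w e) (e : Finset V) : 1 ≤ wC β C w e := by
  unfold wC
  split_ifs
  · have := hw e
    nlinarith
  · exact hw e

/-- Proof: `∏ (2 * y g) = 2 ^ |D| * ∏ y g`; in the second product the elements of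
`(D.powersetCard 2).filter (· ∈ C) = C.filter (· ⊆ D)` contribute a factor `β` each. -/
theorem uu_phase (β : ℝ) {C : Finset (Finset V)} (hC : ∀ e ∈ C, e.card = 2) (y : V → ℝ)
    (w : Finset V → ℝ) (D : Finset V) :
    uu (fun g => 2 * y g) (wC β C w) D =
      2 ^ D.card * β ^ (C.filter (fun e => e ⊆ D)).card * uu y w D := by
  unfold uu wC
  have h1 : ∏ g ∈ D, 2 * y g = 2 ^ D.card * ∏ g ∈ D, y g := by
    rw [Finset.prod_mul_distrib, Finset.prod_const]
  have h2 : ∏ e ∈ D.powersetCard 2, (if e ∈ C then β * w e else w e) =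
      β ^ (C.filter (fun e => e ⊆ D)).card * ∏ e ∈ D.powersetCard 2, w e := by
    have h3 : ∀ e ∈ D.powersetCard 2, (if e ∈ C then β * w e else w e) =
        (if e ∈ C then β else 1) * w e := by
      intro e _
      split_ifs <;> simp
    rw [Finset.prod_congr rfl h3, Finset.prod_mul_distrib]
    congr 1
    rw [Finset.prod_ite, Finset.prod_const, Finset.prod_const_one, mul_one]
    have h4 : (D.powersetCard 2).filter (fun e => e ∈ C) = C.filter (fun e => e ⊆ D) := by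
      ext e
      simp only [Finset.mem_filter, Finset.mem_powersetCard]
      constructor
      · rintro ⟨⟨h5, _⟩, h6⟩
        exact ⟨h6, h5⟩
      · rintro ⟨h5, h6⟩
        exact ⟨⟨h6, hC e h5⟩, h5⟩
    rw [h4]
  rw [h1, h2]
  ring

/-- The initial condition of a phase.
Proof: `env y w D = uu y w D' * ρ ^ |D' \ D|` (`env_eq`); `uu_phase` for `D'`: `2 ^ |D'| ≥ 4` and
`β ^ (C.filter (· ⊆ D)).card ≤ β ^ (C.filter (· ⊆ D')).card`; `le_env` for the new weights. -/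
theorem env_phase {γ : V → V} {y : V → ℝ} {w : Finset V → ℝ} {ρ β : ℝ} (hρ : 1 ≤ ρ)
    (hy : ∀ g, 0 < y g) (hw : ∀ e, 1 ≤ w e) (hβ : 1 ≤ β) {C : Finset (Finset V)}
    (hC : ∀ e ∈ C, e.card = 2) {D : Finset V} (hD : D ⊆ Gr γ) (h2 : 2 ≤ D.card) :
    β ^ (C.filter (fun e => e ⊆ D)).card * env γ y w ρ D ≤
      env γ (fun g => 2 * y g) (wC β C w) ρ D / 4 := by
  obtain ⟨D', h1, h2', he⟩ := env_eq (y := y) (w := w) (ρ := ρ) hD
  rw [he]
  have h3 : uu (fun g => 2 * y g) (wC β C w) D' * ρ ^ (D' \ D).card ≤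
      env γ (fun g => 2 * y g) (wC β C w) ρ D := le_env h1 h2'
  rw [uu_phase β hC] at h3
  have h4 : (4 : ℝ) ≤ 2 ^ D'.card := by
    calc (4 : ℝ) = 2 ^ 2 := by norm_num
      _ ≤ 2 ^ D'.card := pow_le_pow_right₀ (by norm_num) (h2.trans (Finset.card_le_card h1))
  have h5 : β ^ (C.filter (fun e => e ⊆ D)).card ≤ β ^ (C.filter (fun e => e ⊆ D')).card := by
    apply pow_le_pow_right₀ hβ
    apply Finset.card_le_card
    intro e he'
    rw [Finset.mem_filter] at he' ⊢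
    exact ⟨he'.1, he'.2.trans h1⟩
  have h6 : 0 < uu y w D' := uu_pos hy hw D'
  have h7 : 0 < ρ ^ (D' \ D).card := pow_pos (lt_of_lt_of_le one_pos hρ) _
  have h8 : 0 < β ^ (C.filter (fun e => e ⊆ D)).card := pow_pos (lt_of_lt_of_le one_pos hβ) _
  have h9 : 4 * β ^ (C.filter (fun e => e ⊆ D)).card ≤
      2 ^ D'.card * β ^ (C.filter (fun e => e ⊆ D')).card :=
    mul_le_mul h4 h5 h8.le (by positivity)
  have h10 : 4 * β ^ (C.filter (fun e => e ⊆ D)).card * (uu y w D' * ρ ^ (D' \ D).card) ≤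
      2 ^ D'.card * β ^ (C.filter (fun e => e ⊆ D')).card * (uu y w D' * ρ ^ (D' \ D).card) :=
    mul_le_mul_of_nonneg_right h9 (mul_pos h6 h7).le
  linarith

end Pool.Agent.Helper78.CP
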