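import Pool.Agent.Helper78.CP.SDefs
import Pool.Agent.Helper34.GC.Corner
import Pool.Agent.Helper34.GC.ParB

set_option autoImplicit false

/-! Module PAR: existence of the parameters.  Memo sections 4 and 6.

`L = log N`, `q = A (l m) + s`, `Q* = m l* + S*`.  Order of the choices: `θ < 1` with
`(1 - θ) Q* ≤ ε / 2`, then `A`, `k0`, then `η = min ((1 - θ) / 16) (1 / 32)`, `x = η / 3`
(so `x + η ≤ (1 - θ) / 8 / ..`, `x < η / 2`), then `N → ∞`: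
`l = ⌊θ l* L / A⌋₊`, `s = ⌊θ S* L⌋₊`, `nn a = ⌊N ^ (1 - x 3 ^ (-a))⌋₊`, `ρ = N ^ η`,
`Λ = 8 (q + 1) L` (so `N ^ q 2 ^ q 32 exp (- Λ / 2) ≤ 1`).
`Ys q m b n ≤ K q ^ k` for `q ≥ 1` (`K`, `k` depend on `n`, `m`, `b`), and `q ≤ C L`, so every factor
in front is at most `K L ^ k ≤ N ^ δ` for large `N`, `δ = x 3 ^ (-A-2)`.
Exponents: `n1`: `δ < η`; `n2`: `N ^ 2 exp (- (9/4) L) = N ^ (-1/4)`;
`n3`: `x 3^(-t) - x 3^(-t-1) = 2 x 3^(-t-1)`; `n4`: `η - x 3^(-t-1) ≥ η / 2`;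
`n5`: `x 3^(-t) - 2 x 3^(-t-1) = x 3^(-t-1)`; `n6`: `1 - x > δ`; `n7`: `q N ^ (1 - x 3^(-A)) ≤ N`.
`hz`: `Y / nn a * ρ ≤ 2 Y N ^ (x + η - 1) ≤ exp (- z L)` with `z = 1 - min ((1 - θ) / 4) (1 / 8)`.
`A (l m) + s ≥ θ Q* L - m A - 1 ≥ (Q* - ε) L`. -/

namespace Pool.Agent.Helper78.CP

open Finset Filter
open Pool.Agent.Helper5.CV (lam Sst Qst)
open Pool.Agent.Helper34.GC (lst)

theorem exists_params {m b : ℕ} (hm : 2 ≤ m) (hb : 1 ≤ b) (hSQ : Sst m b ≤ Qst m b)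
    (hQ : (m : ℝ) / lam m b m ≤ Qst m b) {ε : ℝ} (hε : 0 < ε) :
    ∃ (θ z : ℝ) (A k0 : ℕ), 0 < θ ∧ θ < 1 ∧ 1 ≤ A ∧ 1 - (1 - θ) / 4 ≤ z ∧ 7 / 8 ≤ z ∧
      (m : ℝ) ^ 2 * lam m b 1 * lst m b / (2 * A) ≤ (1 - θ) / 4 ∧
      9 / 4 ≤ k0 * (1 - θ) / 2 ∧
      ∀ᶠ N : ℕ in atTop, ∃ (l s : ℕ) (nn : ℕ → ℕ) (ρ Λ : ℝ),
        Nums N A m b l (A * (l * m) + s) nn ρ Λ (Real.exp (-(9 / 4 * Real.log N))) ∧
        (A : ℝ) * l ≤ θ * lst m b * Real.log N ∧ (s : ℝ) ≤ θ * Sst m b * Real.log N ∧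
        (∀ a ≤ A, Ys (A * (l * m) + s) m b (A + 1) / nn a * ρ ≤
          Real.exp (-(z * Real.log N))) ∧
        (k0 : ℝ) ^ 2 * Real.log ((1 + (b : ℝ)) ^ (m ^ 2)) ≤ 3 / 8 * Real.log N ∧
        (Qst m b - ε) * Real.log N ≤ A * (l * m) + s := by
  have hS0 := Pool.Agent.Helper34.GC.Sst_pos hm hb
  have hQ0 : 0 < Qst m b := lt_of_lt_of_le hS0 hSQ
  have hl0 := Pool.Agent.Helper34.GC.lst_nonneg (m := m) (b := b) hSQ
  have hml := Pool.Agent.Helper34.GC.m_mul_lst (m := m) (b := b) (by omega)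
  have hm' : (2 : ℝ) ≤ m := by exact_mod_cast hm
  generalize Qst m b = Q at *
  generalize Sst m b = S at *
  generalize lst m b = l' at *
  obtain ⟨t0, ht0, ht1, ht2⟩ : ∃ t0 : ℝ, 0 < t0 ∧ t0 ≤ 1 / 2 ∧ t0 * Q ≤ ε / 2 := by
    refine ⟨min (1 / 2) (ε / (2 * Q)), lt_min (by norm_num) (by positivity), min_le_left _ _, ?_⟩
    calc min (1 / 2) (ε / (2 * Q)) * Q ≤ ε / (2 * Q) * Q :=
          mul_le_mul_of_nonneg_right (min_le_right _ _) hQ0.le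
      _ = ε / 2 := by field_simp
  obtain ⟨A, hA1, hA⟩ : ∃ A : ℕ, 1 ≤ A ∧ (m : ℝ) ^ 2 * lam m b 1 * l' / (2 * A) ≤ t0 / 4 := by
    refine ⟨⌈2 * ((m : ℝ) ^ 2 * lam m b 1 * l') / t0⌉₊ + 1, by omega, ?_⟩
    have h1 := Nat.le_ceil (2 * ((m : ℝ) ^ 2 * lam m b 1 * l') / t0)
    have h2 : 2 * ((m : ℝ) ^ 2 * lam m b 1 * l') / t0 ≤
        ((⌈2 * ((m : ℝ) ^ 2 * lam m b 1 * l') / t0⌉₊ + 1 : ℕ) : ℝ) := by
      push_cast; linarith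
    have h3 : (0 : ℝ) < ((⌈2 * ((m : ℝ) ^ 2 * lam m b 1 * l') / t0⌉₊ + 1 : ℕ) : ℝ) := by
      exact_mod_cast Nat.succ_pos _
    rw [div_le_iff₀ ht0] at h2
    rw [div_le_iff₀ (by linarith)]
    linarith
  obtain ⟨k0, hk0⟩ : ∃ k0 : ℕ, 9 / 4 ≤ (k0 : ℝ) * t0 / 2 := by
    refine ⟨⌈9 / (2 * t0)⌉₊, ?_⟩
    have h1 := Nat.le_ceil (9 / (2 * t0))
    rw [div_le_iff₀ (by linarith)] at h1
    linarith
  obtain ⟨μ, hμ0, hμ1, hμ2⟩ : ∃ μ : ℝ, 0 < μ ∧ μ ≤ 1 / 8 ∧ μ ≤ t0 / 4 :=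
    ⟨min (1 / 8) (t0 / 4), lt_min (by norm_num) (by linarith), min_le_left _ _, min_le_right _ _⟩
  obtain ⟨K, k, hK, hPP⟩ := Pool.Agent.Helper34.GC.PP_poly m b A
  have hA' : (1 : ℝ) ≤ A := by exact_mod_cast hA1
  have hA0 : (0 : ℝ) < A := by linarith
  refine ⟨1 - t0, 1 - μ, A, k0, by linarith, by linarith, hA1, by linarith, by linarith, ?_, ?_, ?_⟩
  · rw [sub_sub_cancel]; exact hA
  · rw [sub_sub_cancel]; exact hk0
  have hθ0 : 0 < 1 - t0 := by linarith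
  have hD : 0 < μ / 12 * (3 : ℝ)⁻¹ ^ (A + 1) := by positivity
  have tl : Tendsto (fun N : ℕ => Real.log (N : ℝ)) atTop atTop :=
    Real.tendsto_log_atTop.comp tendsto_natCast_atTop_atTop
  filter_upwards [Pool.Agent.Helper34.GC.ev_log_pow (8 * (K * Q ^ k)) (k + 1) hD,
    eventually_ge_atTop 3, tl.eventually_ge_atTop (1 / ((1 - t0) * S)),
    tl.eventually_ge_atTop ((m * A + 1) / (ε / 2)),
    tl.eventually_ge_atTop (8 / 3 * ((k0 : ℝ) ^ 2 * Real.log ((1 + (b : ℝ)) ^ (m ^ 2))))]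
    with N h1 h3 h4 h5 h6
  have hN1 : (1 : ℝ) ≤ N := by exact_mod_cast (by omega : 1 ≤ N)
  have hL0 : 0 ≤ Real.log (N : ℝ) := Real.log_nonneg hN1
  set L := Real.log (N : ℝ) with hL
  have hS1 : 1 ≤ (1 - t0) * S * L := by
    rw [div_le_iff₀ (by positivity)] at h4
    linarith
  have h5' : (m : ℝ) * A + 1 ≤ ε / 2 * L := by
    rw [div_le_iff₀ (by positivity)] at h5
    linarith
  obtain ⟨l, hl⟩ : ∃ l : ℕ, l = ⌊(1 - t0) * l' * L / A⌋₊ := ⟨_, rfl⟩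
  obtain ⟨s, hs⟩ : ∃ s : ℕ, s = ⌊(1 - t0) * S * L⌋₊ := ⟨_, rfl⟩
  have hl1 : (l : ℝ) ≤ (1 - t0) * l' * L / A := by rw [hl]; exact Nat.floor_le (by positivity)
  have hl2 : (1 - t0) * l' * L / A < l + 1 := by rw [hl]; exact Nat.lt_floor_add_one _
  have hs1 : (s : ℝ) ≤ (1 - t0) * S * L := by rw [hs]; exact Nat.floor_le (by linarith)
  have hs2 : (1 - t0) * S * L < s + 1 := by rw [hs]; exact Nat.lt_floor_add_one _
  have hs3 : 1 ≤ s := by rw [hs]; exact Nat.le_floor (by exact_mod_cast hS1)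
  have hl1' : (A : ℝ) * l ≤ (1 - t0) * l' * L := by
    rw [le_div_iff₀ hA0] at hl1; linarith
  have hl2' : (1 - t0) * l' * L < A * l + A := by
    rw [div_lt_iff₀ hA0] at hl2; linarith
  have hq : 1 ≤ A * (l * m) + s := by omega
  have hlq : l * m ≤ A * (l * m) + s := (Nat.le_mul_of_pos_left (l * m) (by omega : 0 < A)).trans (Nat.le_add_right _ _)
  have hqL : ((A * (l * m) + s : ℕ) : ℝ) ≤ Q * L := by
    push_cast
    have e1 : (A : ℝ) * (l * m) ≤ m * ((1 - t0) * l' * L) := by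
      have := mul_le_mul_of_nonneg_right hl1' (show (0 : ℝ) ≤ m by linarith)
      linarith
    have e2 : m * ((1 - t0) * l' * L) = (1 - t0) * (Q - S) * L := by rw [← hml]; ring
    have e3 : 0 ≤ t0 * Q * L := by positivity
    linarith
  have hP : 8 * Pool.Agent.Helper34.GC.PP m b A (A * (l * m) + s)
      (8 * (((A * (l * m) + s : ℕ) : ℝ) + 1) * L) ≤
      (N : ℝ) ^ (μ / 12 * (3 : ℝ)⁻¹ ^ (A + 1)) := by
    refine le_trans ?_ h1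
    have e1 := hPP (A * (l * m) + s) L hq hL0
    have e2 : K * (((A * (l * m) + s : ℕ) : ℝ)) ^ k * L ≤ K * (Q * L) ^ k * L := by
      gcongr
    have e3 : 8 * (K * Q ^ k) * L ^ (k + 1) = 8 * (K * (Q * L) ^ k * L) := by
      rw [mul_pow, pow_succ]; ring
    rw [e3]
    linarith
  obtain ⟨n1, n2⟩ := Pool.Agent.Helper34.GC.nums_of (η := 3 * (μ / 12)) (μ := μ) hm hA1
    (show 0 < μ / 12 by linarith) rfl (by ring) hμ1 h3 hq hlq hP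
  refine ⟨l, s, _, _, _, n1, hl1', hs1, n2, ?_, ?_⟩
  · linarith
  · have e1 : (m : ℝ) * ((1 - t0) * l' * L) ≤ m * (A * l + A) :=
      mul_le_mul_of_nonneg_left hl2'.le (by linarith)
    have e2 : m * ((1 - t0) * l' * L) = (1 - t0) * (Q - S) * L := by rw [← hml]; ring
    have e3 : t0 * Q * L ≤ ε / 2 * L := mul_le_mul_of_nonneg_right ht2 hL0
    linarith

end Pool.Agent.Helper78.CP
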