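import Pool.Agent.Helper78.CP.Env
import Pool.Agent.Helper78.CP.Count
import Pool.Agent.Helper78.CP.Edges

set_option autoImplicit false

/-! Module CP-5: the phase step for positions.  Memo section 2. -/

namespace Pool.Agent.Helper78.CP

open Finset Pool.Agent.Helper25.CliqueGame Pool.Agent.Helper78.CH

variable {N : ℕ} {V : Type*} [Fintype V] [DecidableEq V]

private theorem ph_dm_mono (U : V → Finset (Fin N)) (γ : V → V)
    {W W' : Finset (Finset (Fin N))} (h : W ⊆ W') : dm U γ W ⊆ dm U γ W' := by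
  intro g hg
  unfold dm at hg ⊢
  rw [mem_filter] at hg ⊢
  obtain ⟨h1, a, ha, h2⟩ := hg
  exact ⟨h1, a, h ha, h2⟩

private theorem ph_valid {F : Finset (V → Fin N)} {γ : V → V} {W : Finset (Finset (Fin N))}
    (h : ∃ A ∈ F0 F γ, W ⊆ A) : ∃ f ∈ F, ∃ D ⊆ Gr γ, W = ats γ f D := by
  obtain ⟨A, hA, hWA⟩ := h
  unfold F0 at hA
  obtain ⟨f, hf, rfl⟩ := mem_image.1 hA
  obtain ⟨D, hD, hW⟩ := exists_of_sub hWA
  exact ⟨f, hf, D, hD, hW⟩

private theorem ph_lossC (r b : ℕ) (β ν t c2 c3 co : ℝ) :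
    CH.lossC r b β ν (t * c2) (t * c3) (t * co) = t * CH.lossC r b β ν c2 c3 co := by
  unfold CH.lossC
  ring

/-- **Phase step.**
Proof: apply `CH.phase_main` with `α = Finset (Fin N)`, `q = (Gr γ).card`, the family `F0 F γ`, the
current pairs `CA F γ C`, `G = GE`, `cap W = T' * env' (dm U γ W)` where
`T' = T * β⁻¹ ^ C.card / 2` and `env' = env γ (2 y) (wC β C w) ρ`, and `T'`, `T' c2`, `T' c3`, `T' co`
for `T`, `c2`, `c3`, `co` (`lossC` is homogeneous in the last three arguments).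
Valid sets are `ats γ f D` with `f ∈ F`, `D ⊆ Gr γ` (`exists_of_sub`), `dm_ats`, `card_ats`;
`W ⊂ W'` valid gives `D ⊂ D'` (`W = ats γ f D`, `W' = ats γ f D'` with the same `f`), `env_ratio`;
`1 ≤ T' env' (Gr γ)`: `le_env` and `uu_phase` for `D = D' = Gr γ` (`2 ^ q ≥ 2`);
initial condition: `tt_F0`, `hS.cap`, `env_phase`; `2 T' ≤ |F| β⁻¹ ^ |C|`: `tt_F0_empty`, `hS.card`.
Different pairs: `GE_disj`; a valid pair which is not in `CA F γ C` is `ats γ f {g, h}` with
`{g, h} ∉ C`: if `{g, h} ∈ Pr` its edges are in `M` (`hS.proc`, `GE_sub_iff`), otherwise `ho`.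
Result `F'' ⊆ F0 F γ`: take `F' = F.filter (fun f => ats γ f (Gr γ) ∈ F'')`, so `F0 F' γ = F''`
(injective: `str_inj`), `card_filter_F0` gives `cnt F' γ f D ≤ T' env' D`; pairs inside a group
are processed by `hS.proc` and `M ⊆ M'`, so they are alive because `M'` and `B'` are disjoint. -/
theorem phase_step {m b r : ℕ} (hr : 1 ≤ r) {U : V → Finset (Fin N)}
    (hU : ∀ p p', p ≠ p' → Disjoint (U p) (U p')) {γ : V → V} (hγ : ∀ p, γ (γ p) = γ p)
    {y : V → ℝ} {w : Finset V → ℝ} (hy : ∀ g, 0 < y g) (hw : ∀ e, 1 ≤ w e)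
    {ρ T Λ β c2 c3 co E : ℝ} (hT : 0 < T) (hβ : β = 1 + (b : ℝ) / r)
    {Pr C : Finset (Finset V)} (hC : ∀ e ∈ C, e.card = 2 ∧ e ⊆ Gr γ)
    (hrm : ∀ g h, ({g, h} : Finset V) ∈ C → r * ((fib γ g).card * (fib γ h).card) ≤ m)
    (hGr : 1 ≤ (Gr γ).card) (hu : 1 ≤ T * uu y w (Gr γ)) (hΛ : 1 ≤ Λ) (hρ : 2 * r * β * Λ ≤ ρ)
    (hc20 : 0 ≤ c2) (hc30 : 0 ≤ c3) (hco0 : 0 ≤ co)
    (h2 : ∀ e ∈ C, env γ (fun g => 2 * y g) (wC β C w) ρ e ≤ c2)
    (h3 : ∀ D ⊆ Gr γ, 3 ≤ D.card → env γ (fun g => 2 * y g) (wC β C w) ρ D ≤ c3)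
    (ho : ∀ e ⊆ Gr γ, e.card = 2 → e ∉ C → e ∉ Pr →
      env γ (fun g => 2 * y g) (wC β C w) ρ e ≤ co)
    (hmax : ∀ D ⊆ Gr γ, 2 ≤ D.card → env γ (fun g => 2 * y g) (wC β C w) ρ D ≤ 1)
    (hE : ∑ e ∈ C, ∏ g ∈ e, ((U g).card : ℝ) ≤ E)
    (hloss : E * lossC r b β (β * Λ / ρ) c2 c3 co ≤ 1 / 8)
    (hWW : (N : ℝ) ^ (Fintype.card V) * 2 ^ (Fintype.card V) * (32 * Real.exp (-(Λ / 2))) ≤ 1)
    {M B : Finset (Sym2 (Fin N))} {F : Finset (V → Fin N)}
    (hS : State U γ y w ρ T Pr M B F) :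
    Reach (edges N) m b (fun M' B' => ∃ F', State U γ (fun g => 2 * y g) (wC β C w) ρ
      (T * β⁻¹ ^ C.card / 2) (Pr ∪ C) M' B' F') M B := by
  have hr0 : (1 : ℝ) ≤ r := by exact_mod_cast hr
  have hβ1 : 1 ≤ β := by
    rw [hβ]
    have : (0 : ℝ) ≤ (b : ℝ) / r := by positivity
    linarith
  have hβ0 : 0 < β := by linarith
  have hΛ0 : 0 < Λ := by linarith
  have hrβ : 1 ≤ r * β := by nlinarith
  have hρ1 : 1 ≤ ρ := by nlinarith
  have hρ0 : 0 < ρ := by linarith
  have hF : ∀ f ∈ F, ∀ p, f p ∈ U p := hS.mem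
  have hC2 : ∀ e ∈ C, e.card = 2 := fun e he => (hC e he).1
  set y' : V → ℝ := fun g => 2 * y g with hy'd
  have hy' : ∀ g, 0 < y' g := fun g => by
    have := hy g
    show 0 < 2 * y g
    linarith
  have hw' : ∀ e, 1 ≤ wC β C w e := one_le_wC hβ1 C hw
  set T' : ℝ := T * β⁻¹ ^ C.card / 2 with hT'd
  have hbi : 0 < β⁻¹ ^ C.card := by positivity
  have hT' : 0 < T' := by positivity
  set env' : Finset V → ℝ := env γ y' (wC β C w) ρ with henv'
  have henvpos : ∀ D, 0 < env' D := env_pos hρ0 hy' hw'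
  set cap : Finset (Finset (Fin N)) → ℝ := fun W => T' * env' (dm U γ W) with hcapd
  have hcapf : ∀ f ∈ F, ∀ D ⊆ Gr γ, cap (ats γ f D) = T' * env' D := by
    intro f hf D hD
    show T' * env' (dm U γ (ats γ f D)) = T' * env' D
    rw [dm_ats hU (hF f hf) hD]
  have hmain := phase_main (m := m) (b := b) (r := r) (q := (Gr γ).card) hr (Λ := Λ) (ρ := ρ)
    (c2 := T' * c2) (c3 := T' * c3) (co := T' * co) (T := T') (E := E) hβ cap
    (fun W => mul_pos hT' (henvpos _)) (CA F γ C) (F0 F γ)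
    (by
      intro e he
      unfold CA at he
      obtain ⟨f, hf, hfe⟩ := mem_biUnion.1 he
      obtain ⟨c, hc, rfl⟩ := mem_image.1 hfe
      rw [card_ats hU (hF f hf) (hC c hc).2]
      exact (hC c hc).1)
    (by
      intro A hA
      unfold F0 at hA
      obtain ⟨f, hf, rfl⟩ := mem_image.1 hA
      exact card_ats hU (hF f hf) (Subset.refl _))
    (by
      intro W W' hval hss hc
      obtain ⟨f, hf, D', hD', rfl⟩ := ph_valid hval
      have hWA : W ⊆ ats γ f (Gr γ) := hss.1.trans (image_subset_image hD')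
      obtain ⟨D, hD, rfl⟩ := exists_of_sub hWA
      rw [hcapf f hf D hD, hcapf f hf D' hD']
      have h1 : D ⊆ D' := by
        have h2 := ph_dm_mono U γ hss.1
        rwa [dm_ats hU (hF f hf) hD, dm_ats hU (hF f hf) hD'] at h2
      have h2 : D ⊂ D' := by
        refine Finset.ssubset_iff_subset_ne.2 ⟨h1, fun h => ?_⟩
        rw [h] at hss
        exact (Finset.ssubset_iff_subset_ne.1 hss).2 rfl
      have h3 := env_ratio hρ1 hy' hw' h2 hD'
      calc ρ * (T' * env' D') = T' * (ρ * env' D') := by ring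
        _ ≤ T' * env' D := mul_le_mul_of_nonneg_left h3 hT'.le)
    (by
      intro A hA
      unfold F0 at hA
      obtain ⟨f, hf, rfl⟩ := mem_image.1 hA
      rw [hcapf f hf _ (Subset.refl _)]
      have h1 := le_env (γ := γ) (y := y') (w := wC β C w) (ρ := ρ) (D := Gr γ) (D' := Gr γ)
        (Subset.refl _) (Subset.refl _)
      rw [sdiff_self, Finset.bot_eq_empty, card_empty, pow_zero, mul_one, uu_phase β hC2 y w (Gr γ)] at h1
      have h2 : C.filter (fun e => e ⊆ Gr γ) = C :=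
        filter_true_of_mem fun e he => (hC e he).2
      rw [h2] at h1
      have h3 : (2 : ℝ) ≤ 2 ^ (Gr γ).card := by
        calc (2 : ℝ) = 2 ^ 1 := by norm_num
          _ ≤ 2 ^ (Gr γ).card := pow_le_pow_right₀ (by norm_num) hGr
      have h4 : β⁻¹ ^ C.card * β ^ C.card = 1 := by
        rw [← mul_pow, inv_mul_cancel₀ hβ0.ne', one_pow]
      have h5 : 0 < uu y w (Gr γ) := uu_pos hy hw _
      calc (1 : ℝ) ≤ T * uu y w (Gr γ) := hu
        _ = (T * uu y w (Gr γ)) * 2 / 2 * (β⁻¹ ^ C.card * β ^ C.card) := by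
            rw [h4]
            ring
        _ ≤ (T * uu y w (Gr γ)) * 2 ^ (Gr γ).card / 2 * (β⁻¹ ^ C.card * β ^ C.card) := by
            rw [h4, mul_one, mul_one]
            have h6 : 0 ≤ T * uu y w (Gr γ) := by positivity
            linarith [mul_le_mul_of_nonneg_left h3 h6]
        _ = T' * (2 ^ (Gr γ).card * β ^ C.card * uu y w (Gr γ)) := by
            rw [hT'd]
            ring
        _ ≤ T' * env' (Gr γ) := mul_le_mul_of_nonneg_left h1 hT'.le)
    hΛ hρ
    (by
      intro W hval hc _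
      obtain ⟨f, hf, D, hD, rfl⟩ := ph_valid hval
      rw [card_ats hU (hF f hf) hD] at hc
      rw [tt_F0 hU hγ hF hC hβ1 hf hD, hcapf f hf D hD]
      have h1 := hS.cap f hf D hD hc
      have h2 := env_phase hρ1 hy hw hβ1 hC2 hD hc
      have h3 : 0 ≤ β⁻¹ ^ C.card * β ^ (C.filter (fun e => e ⊆ D)).card := by positivity
      calc (cnt F γ f D : ℝ) * (β⁻¹ ^ C.card * β ^ (C.filter (fun e => e ⊆ D)).card)
          ≤ (T * env γ y w ρ D) * (β⁻¹ ^ C.card * β ^ (C.filter (fun e => e ⊆ D)).card) :=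
            mul_le_mul_of_nonneg_right h1 h3
        _ = (T * β⁻¹ ^ C.card) *
            (β ^ (C.filter (fun e => e ⊆ D)).card * env γ y w ρ D) := by ring
        _ ≤ (T * β⁻¹ ^ C.card) * (env' D / 4) :=
            mul_le_mul_of_nonneg_left h2 (by positivity)
        _ = T' * env' D / 2 := by
            rw [hT'd]
            ring)
    (by
      intro e he _
      unfold CA at he
      obtain ⟨f, hf, hfe⟩ := mem_biUnion.1 he
      obtain ⟨c, hc, rfl⟩ := mem_image.1 hfe
      rw [hcapf f hf c (hC c hc).2]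
      exact mul_le_mul_of_nonneg_left (h2 c hc) hT'.le)
    (mul_nonneg hT'.le hc20)
    (by
      intro W hval hc
      obtain ⟨f, hf, D, hD, rfl⟩ := ph_valid hval
      rw [card_ats hU (hF f hf) hD] at hc
      rw [hcapf f hf D hD]
      exact mul_le_mul_of_nonneg_left (h3 D hD hc) hT'.le)
    (mul_nonneg hT'.le hc30)
    (by
      intro W hval hc
      obtain ⟨f, hf, D, hD, rfl⟩ := ph_valid hval
      rw [card_ats hU (hF f hf) hD] at hc
      rw [hcapf f hf D hD]
      calc T' * env' D ≤ T' * 1 := mul_le_mul_of_nonneg_left (hmax D hD hc) hT'.le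
        _ = T' := mul_one _)
    hT'
    (by
      refine le_trans (mul_le_mul_of_nonneg_right (card_valid F) (by positivity)) hWW)
    (by
      refine le_trans ?_ (le_trans (card_CA hF hS.coh hC) hE)
      exact_mod_cast card_le_card (filter_subset _ _))
    (by
      rw [ph_lossC]
      calc E * (T' * CH.lossC r b β (β * Λ / ρ) c2 c3 co)
          = T' * (E * CH.lossC r b β (β * Λ / ρ) c2 c3 co) := by ring
        _ ≤ T' * (1 / 8) := mul_le_mul_of_nonneg_left hloss hT'.le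
        _ = T' / 8 := by ring)
    (by
      rw [tt_F0_empty hU hγ hF hC hβ1]
      calc 2 * T' = T * β⁻¹ ^ C.card := by
            rw [hT'd]
            ring
        _ ≤ (F.card : ℝ) * β⁻¹ ^ C.card := mul_le_mul_of_nonneg_right hS.card hbi.le)
    GE
    (by
      intro e he _
      refine ⟨GE_sub e, ?_⟩
      unfold CA at he
      obtain ⟨f, hf, hfe⟩ := mem_biUnion.1 he
      obtain ⟨c, hc, rfl⟩ := mem_image.1 hfe
      obtain ⟨g, h, hgh, rfl⟩ := card_eq_two.1 (hC c hc).1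
      have hg : g ∈ Gr γ := (hC _ hc).2 (by simp)
      have hh : h ∈ Gr γ := (hC _ hc).2 (by simp)
      exact (Nat.mul_le_mul_left r (card_GE hU (hF f hf) hg hh hgh)).trans (hrm g h hc))
    (by
      intro e e' hv hv' hc hc' hne
      obtain ⟨f, hf, D, hD, rfl⟩ := ph_valid hv
      obtain ⟨f', hf', D', hD', rfl⟩ := ph_valid hv'
      exact GE_disj hU (hF f hf) (hF f' hf') (hS.coh f hf f' hf')
        (image_subset_image hD) (image_subset_image hD') hc hc' hne)
    (mul_nonneg hT'.le hco0) M B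
    (by
      intro e hv hc hnot
      obtain ⟨f, hf, D, hD, rfl⟩ := ph_valid hv
      rw [card_ats hU (hF f hf) hD] at hc
      have hDC : D ∉ C := by
        intro hDC
        refine hnot ?_
        unfold CA
        exact mem_biUnion.2 ⟨f, hf, mem_image_of_mem _ hDC⟩
      by_cases hPr : D ∈ Pr
      · right
        obtain ⟨g, h, hgh, rfl⟩ := card_eq_two.1 hc
        have hg : g ∈ Gr γ := hD (by simp)
        have hh : h ∈ Gr γ := hD (by simp)
        rw [GE_sub_iff hU (hF f hf) hg hh hgh]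
        intro p p' hp hp'
        refine hS.proc f hf p p' ?_ (Or.inr ?_)
        · intro hpp
          rw [hpp] at hp
          exact hgh (hp.symm.trans hp')
        · rw [hp, hp']
          exact hPr
      · left
        rw [hcapf f hf D hD]
        exact mul_le_mul_of_nonneg_left (ho D hD hc hDC hPr) hT'.le)
    hS.disj
    (by
      intro A hA
      unfold F0 at hA
      obtain ⟨f, hf, rfl⟩ := mem_image.1 hA
      rw [alive_iff hU hγ (hF f hf)]
      intro p p' hpp
      exact hS.alive f hf p p' (fun h => hpp (by rw [h])))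
  refine hmain.bind fun M' B' hG => Reach.here ?_
  obtain ⟨hdis, hMM, F'', hF'', hal, hproc, hTc, hcapW⟩ := hG
  classical
  set F' : Finset (V → Fin N) := F.filter (fun f => ats γ f (Gr γ) ∈ F'') with hF'd
  have hF'F : F' ⊆ F := filter_subset _ _
  have hF'' : F0 F' γ = F'' := by
    ext A
    unfold F0
    rw [mem_image]
    constructor
    · rintro ⟨f, hf, rfl⟩
      exact (mem_filter.1 hf).2
    · intro hA
      have h1 := hF'' hA
      unfold F0 at h1
      obtain ⟨f, hf, rfl⟩ := mem_image.1 h1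
      exact ⟨f, mem_filter.2 ⟨hf, hA⟩, rfl⟩
  refine ⟨F', ⟨fun f hf => hF f (hF'F hf), fun f hf f' hf' => hS.coh f (hF'F hf) f' (hF'F hf'),
    ?_, ?_, ?_, ?_, hdis⟩⟩
  · refine hTc.trans ?_
    rw [← hF'']
    unfold F0
    exact_mod_cast card_image_le
  · intro f hf D hD hc
    have h1 := card_filter_F0 hU hγ hF hF'F (hF'F hf) hD
    rw [hF''] at h1
    have h2 := hcapW (ats γ f D) (by rw [card_ats hU (hF f (hF'F hf)) hD]; exact hc)
    rw [h1, hcapf f (hF'F hf) D hD] at h2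
    exact h2
  · intro f hf p p' hpp
    by_cases hg : γ p = γ p'
    · have h1 := hMM (hS.proc f (hF'F hf) p p' hpp (Or.inl hg))
      exact fun h => (Finset.disjoint_left.1 hdis h1) h
    · exact (alive_iff hU hγ (hF f (hF'F hf)) B').1 (hal _ (mem_filter.1 hf).2) p p' hg
  · intro f hf p p' hpp hor
    rcases hor with hg | hg
    · exact hMM (hS.proc f (hF'F hf) p p' hpp (Or.inl hg))
    rcases mem_union.1 hg with hg | hg
    · exact hMM (hS.proc f (hF'F hf) p p' hpp (Or.inr hg))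
    · have hne : γ p ≠ γ p' := by
        intro h
        have h1 := (hC _ hg).1
        rw [h] at h1
        simp at h1
      have h1 : γ p ∈ Gr γ := mem_Gr.2 (hγ p)
      have h2 : γ p' ∈ Gr γ := mem_Gr.2 (hγ p')
      have h3 : ats γ f {γ p, γ p'} ∈ CA F γ C := by
        unfold CA
        exact mem_biUnion.2 ⟨f, hF'F hf, mem_image_of_mem _ hg⟩
      have h4 := hproc _ (mem_filter.1 hf).2 _ h3 (image_subset_image (hC _ hg).2)
      exact (GE_sub_iff hU (hF f (hF'F hf)) h1 h2 hne M').1 h4 p p' rfl rfl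

end Pool.Agent.Helper78.CP
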