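import Pool.Agent.Helper78.CP.Phase
import Pool.Agent.Helper78.CP.Birth

/-!
# The stages: definitions

Memo: `memo_MP_d32cb0_co_helper78_PartII_v2.md` (team store), section 4.

Positions `V` with a region `rt p ≤ A` and a block representative `bl p`.  The positions of the
region `A` stay single for ever, the other regions consist of at most `l` blocks of `m` positions.
At the time `t` the blocks of the regions `< t` are born.
-/

set_option autoImplicit false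

namespace Pool.Agent.Helper78.CP

open Finset

variable {V : Type*} [Fintype V] [DecidableEq V]

/-- The layout of the positions. -/
structure Lay (rt : V → ℕ) (bl : V → V) (A m l s : ℕ) : Prop where
  idem : ∀ p, bl (bl p) = bl p
  rt_bl : ∀ p, rt (bl p) = rt p
  rt_le : ∀ p, rt p ≤ A
  last : ∀ p, rt p = A → bl p = p
  size : ∀ g, bl g = g → rt g < A → (univ.filter (fun p => bl p = g)).card = m
  num : ∀ a < A, (univ.filter (fun g => bl g = g ∧ rt g = a)).card ≤ l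
  lastc : (univ.filter (fun p => rt p = A)).card ≤ s

/-- The groups at the time `t`. -/
def gam (rt : V → ℕ) (bl : V → V) (t : ℕ) (p : V) : V := if rt p < t then bl p else p

/-- The number of the blocks in `e` at the time `t`. -/
def kk (rt : V → ℕ) (t : ℕ) (e : Finset V) : ℕ := (e.filter (fun g => rt g < t)).card

open Classical in
/-- The weights at the time `t`. -/
noncomputable def wt (m b : ℕ) (rt : V → ℕ) (t : ℕ) (e : Finset V) : ℝ :=
  if kk rt t e = 0 then 1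
  else if kk rt t e = 1 then 1 + (b : ℝ)
  else if ∃ a, ∀ g ∈ e, rt g = a then (1 + (b : ℝ) / m) ^ (m ^ 2)
  else (1 + (b : ℝ)) ^ m

open Classical in
/-- The upper bound for all weights which occur with the groups `gam t`. -/
noncomputable def wh (m b : ℕ) (rt : V → ℕ) (t : ℕ) (e : Finset V) : ℝ :=
  if kk rt t e = 0 then (if ∃ a, ∀ g ∈ e, rt g = a then 1 + (b : ℝ) / m else 1)
  else wt m b rt t e

/-- The weights of the single groups are `Ys t / nn (rt g)`. -/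
noncomputable def Ys (q m b : ℕ) : ℕ → ℝ
  | 0 => 1
  | t + 1 => 2 * (16 * q * ((2 * Ys q m b t) ^ m * (1 + (b : ℝ)) ^ (m ^ 2)))

open Classical in
/-- The processed pairs at the time `t`. -/
noncomputable def Prt (rt : V → ℕ) (bl : V → V) (t : ℕ) : Finset (Finset V) :=
  ((Gr (gam rt bl t)).powersetCard 2).filter (fun e => ∃ g ∈ e, rt g < t)

open Classical in
/-- The pairs inside the region `t`. -/
noncomputable def C1 (rt : V → ℕ) (bl : V → V) (t : ℕ) : Finset (Finset V) :=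
  ((Gr (gam rt bl t)).powersetCard 2).filter (fun e => ∀ g ∈ e, rt g = t)

open Classical in
/-- The pairs (block of the region `t`, single position of a later region). -/
noncomputable def C3 (rt : V → ℕ) (bl : V → V) (t : ℕ) : Finset (Finset V) :=
  ((Gr (gam rt bl (t + 1))).powersetCard 2).filter
    (fun e => (∃ g ∈ e, rt g = t) ∧ ∃ h ∈ e, t < rt h)

/-- The constant in the losses. -/
noncomputable def kst (m b : ℕ) : ℝ := 12 * ((b : ℝ) + 1) ^ 2 * (m + b)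

/-- The numerical conditions.  `Y = Ys q m b (A + 1)`, `W = (1 + b) ^ (m ^ 2)`. -/
structure Nums (N A m b l q : ℕ) (nn : ℕ → ℕ) (ρ Λ δ : ℝ) : Prop where
  q1 : 1 ≤ q
  rho1 : 1 ≤ ρ
  rho_le : ∀ a ≤ A, ρ ≤ nn a
  four : ∀ a ≤ A, 4 ≤ nn a
  le_N : ∀ a ≤ A, nn a ≤ N
  mono : ∀ a ≤ A, nn a ≤ nn (a + 1)
  l_le : 2 * (l : ℝ) ≤ ρ
  ml_le : ∀ a ≤ A, 2 * (m * l) ≤ nn a
  lam1 : 1 ≤ Λ
  lam_rho : 2 * ((m : ℝ) + b) * Λ ≤ ρ
  big : (N : ℝ) ^ q * 2 ^ q * (32 * Real.exp (-(Λ / 2))) ≤ 1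
  d0 : 0 ≤ δ
  n1 : 24 * kst m b * (q : ℝ) ^ 2 * ((1 + (b : ℝ)) * Λ * Ys q m b (A + 1) ^ 2 *
    (1 + (b : ℝ)) ^ (m ^ 2)) ≤ ρ
  n2 : 24 * kst m b * (q : ℝ) ^ 2 * ((N : ℝ) ^ 2 * δ) ≤ 1
  n3 : ∀ t ≤ A, 24 * kst m b * (q : ℝ) ^ 2 * (Ys q m b (A + 1) ^ 2 * (1 + (b : ℝ)) ^ (m ^ 2) *
    nn t) ≤ nn (t + 1)
  n4 : ∀ t ≤ A, 24 * kst m b * (q : ℝ) ^ 2 * ((1 + (b : ℝ)) * Λ * Ys q m b (A + 1) ^ 2 *
    (1 + (b : ℝ)) ^ (m ^ 2) * N) ≤ ρ * nn (t + 1)
  n5 : ∀ t ≤ A, 24 * kst m b * (q : ℝ) ^ 2 * (Ys q m b (A + 1) ^ 2 * (1 + (b : ℝ)) ^ (m ^ 2) *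
    (nn t * N)) ≤ (nn (t + 1) : ℝ) ^ 2
  n6 : Ys q m b (A + 1) ^ 2 * (1 + (b : ℝ)) ^ (m ^ 2) ≤ nn 0
  n7 : q * nn A ≤ N

/-- The second moment condition. -/
def SM (m b A : ℕ) (rt : V → ℕ) (bl : V → V) (Y : ℝ) (nn : ℕ → ℕ) (ρ δ : ℝ) : Prop :=
  ∀ t ≤ A, ∀ D ⊆ Gr (gam rt bl t), 3 ≤ D.card →
    uu (fun g => Y / nn (rt g)) (wh m b rt t) D * ρ ^ D.card ≤ δ

end Pool.Agent.Helper78.CP
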