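import Pool.Agent.Helper78.CP.SDefs

set_option autoImplicit false

/-! Module SG-1: the groups at the time `t`; monotonicity of the state.  Memo section 4. -/

namespace Pool.Agent.Helper78.CP

open Finset Pool.Agent.Helper25.CliqueGame Pool.Agent.Helper78.CH

variable {N : ℕ} {V : Type*} [Fintype V] [DecidableEq V]

theorem rt_gam {A m l s : ℕ} {rt : V → ℕ} {bl : V → V} (hL : Lay rt bl A m l s) (t : ℕ) (p : V) :
    rt (gam rt bl t p) = rt p := by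
  unfold gam
  split_ifs
  · exact hL.rt_bl p
  · rfl

theorem gam_idem {A m l s : ℕ} {rt : V → ℕ} {bl : V → V} (hL : Lay rt bl A m l s) (t : ℕ) (p : V) :
    gam rt bl t (gam rt bl t p) = gam rt bl t p := by
  by_cases h : rt p < t
  · have h1 : gam rt bl t p = bl p := if_pos h
    have h2 : rt (bl p) < t := by rw [hL.rt_bl]; exact h
    have h3 : gam rt bl t (bl p) = bl (bl p) := if_pos h2
    rw [h1, h3, hL.idem]
  · have h1 : gam rt bl t p = p := if_neg h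
    rw [h1, h1]

theorem mem_Gr_gam {rt : V → ℕ} {bl : V → V} {t : ℕ} {g : V} :
    g ∈ Gr (gam rt bl t) ↔ (rt g < t → bl g = g) := by
  rw [mem_Gr]
  by_cases h : rt g < t
  · have h1 : gam rt bl t g = bl g := if_pos h
    rw [h1]
    exact ⟨fun h2 _ => h2, fun h2 => h2 h⟩
  · have h1 : gam rt bl t g = g := if_neg h
    rw [h1]
    exact ⟨fun _ h2 => absurd h2 h, fun _ => rfl⟩

/-- The fibre of a block. -/
private theorem sg1_card_fib {A m l s : ℕ} {rt : V → ℕ} {bl : V → V} (hL : Lay rt bl A m l s)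
    {t : ℕ} {g : V} (hA : rt g < A) (h : rt g < t) (hg : bl g = g) :
    (fib (gam rt bl t) g).card = m := by
  have h1 : fib (gam rt bl t) g = univ.filter (fun p => bl p = g) := by
    ext p
    rw [mem_fib, Finset.mem_filter]
    constructor
    · intro hp
      have h2 := rt_gam hL t p
      rw [hp] at h2
      have h3 : gam rt bl t p = bl p := if_pos (by omega)
      exact ⟨Finset.mem_univ _, h3.symm.trans hp⟩
    · rintro ⟨-, hp⟩
      have h2 : rt p = rt g := by rw [← hp, hL.rt_bl]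
      have h3 : gam rt bl t p = bl p := if_pos (by omega)
      exact h3.trans hp
  rw [h1]
  exact hL.size g hg hA

/-- Fields: `fix`: `rt p = t`, so `gam t p = p`.  `single`: `gam t p' = p` with `rt p' < t` would give
`rt p = rt p' < t`.  `out`: `rt p < t` or `rt p > t`: both maps agree.  `inn`: `rt_gam`.
`size`: `fib (gam (t + 1)) g = {p | bl p = g}` because `gam (t + 1) p = g` forces `rt p = t`. -/
theorem glue_gam {A m l s : ℕ} {rt : V → ℕ} {bl : V → V} (hL : Lay rt bl A m l s) {t : ℕ}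
    (ht : t < A) : Glue (gam rt bl t) (gam rt bl (t + 1)) (univ.filter (fun p => rt p = t)) m := by
  refine ⟨gam_idem hL t, gam_idem hL (t + 1), ?_, ?_, ?_, ?_, ?_⟩
  · intro p hp
    have hp' : rt p = t := (Finset.mem_filter.1 hp).2
    exact if_neg (by omega)
  · intro p hp p' hpp
    have hp' : rt p = t := (Finset.mem_filter.1 hp).2
    have h1 := rt_gam hL t p'
    rw [hpp, hp'] at h1
    have h2 : gam rt bl t p' = p' := if_neg (by omega)
    rw [← h2, hpp]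
  · intro p hp
    have hp' : rt p ≠ t := fun h => hp (Finset.mem_filter.2 ⟨Finset.mem_univ _, h⟩)
    unfold gam
    by_cases h : rt p < t
    · rw [if_pos h, if_pos (by omega)]
    · rw [if_neg h, if_neg (by omega)]
  · intro p hp
    have hp' : rt p = t := (Finset.mem_filter.1 hp).2
    refine Finset.mem_filter.2 ⟨Finset.mem_univ _, ?_⟩
    rw [rt_gam hL, hp']
  · intro g hg hgg
    have hg' : rt g = t := (Finset.mem_filter.1 hg).2
    have h1 : gam rt bl (t + 1) g = bl g := if_pos (by omega)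
    exact sg1_card_fib hL (by omega) (by omega) (h1.symm.trans hgg)

/-- `fib (gam t) g = {p | bl p = g}` for a block. -/
theorem card_fib_block {A m l s : ℕ} {rt : V → ℕ} {bl : V → V} (hL : Lay rt bl A m l s) {t : ℕ}
    (ht : t ≤ A) {g : V} (hg : g ∈ Gr (gam rt bl t)) (h : rt g < t) :
    (fib (gam rt bl t) g).card = m := by
  exact sg1_card_fib hL (by omega) h (mem_Gr_gam.1 hg h)

/-- `fib (gam t) g = {g}`. -/
theorem card_fib_single {A m l s : ℕ} {rt : V → ℕ} {bl : V → V} (hL : Lay rt bl A m l s) {t : ℕ}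
    {g : V} (h : t ≤ rt g) : (fib (gam rt bl t) g).card = 1 := by
  have h1 : fib (gam rt bl t) g = {g} := by
    ext p
    rw [mem_fib, Finset.mem_singleton]
    constructor
    · intro hp
      have h2 := rt_gam hL t p
      rw [hp] at h2
      have h3 : gam rt bl t p = p := if_neg (by omega)
      rw [← h3, hp]
    · rintro rfl
      exact if_neg (by omega)
  rw [h1, Finset.card_singleton]

/-- `Lay.num`: the elements of `Rp` have `bl g = g`, `rt g = t`. -/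
theorem card_Rp_le {A m l s : ℕ} {rt : V → ℕ} {bl : V → V} (hL : Lay rt bl A m l s) {t : ℕ}
    (ht : t < A) :
    (Rp (gam rt bl (t + 1)) (univ.filter (fun p => rt p = t))).card ≤ l := by
  refine le_trans (Finset.card_le_card ?_) (hL.num t ht)
  intro g hg
  unfold Rp at hg
  obtain ⟨h1, h2⟩ := Finset.mem_filter.1 hg
  have h3 : rt g = t := (Finset.mem_filter.1 h1).2
  have h4 : gam rt bl (t + 1) g = bl g := if_pos (by omega)
  exact Finset.mem_filter.2 ⟨Finset.mem_univ _, h4.symm.trans h2, h3⟩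

/-- `Finset.prod_le_prod`. -/
theorem uu_mono {y y' : V → ℝ} {w w' : Finset V → ℝ} (hy0 : ∀ g, 0 < y g) (hw0 : ∀ e, 1 ≤ w e)
    {D : Finset V} (hy : ∀ g ∈ D, y g ≤ y' g) (hw : ∀ e ∈ D.powersetCard 2, w e ≤ w' e) :
    uu y w D ≤ uu y' w' D := by
  unfold uu
  apply mul_le_mul
  · exact Finset.prod_le_prod (fun g _ => (hy0 g).le) hy
  · exact Finset.prod_le_prod (fun e _ => le_trans zero_le_one (hw0 e)) hw
  · exact Finset.prod_nonneg (fun e _ => le_trans zero_le_one (hw0 e))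
  · exact Finset.prod_nonneg (fun g hg => (hy0 g).le.trans (hy g hg))

/-- If `sups γ D` is empty both sides are `1`; otherwise `env_eq`-like argument with `uu_mono`. -/
theorem env_mono {γ : V → V} {y y' : V → ℝ} {w w' : Finset V → ℝ} {ρ : ℝ} (hρ : 0 ≤ ρ)
    (hy0 : ∀ g, 0 < y g) (hw0 : ∀ e, 1 ≤ w e) (hy : ∀ g ∈ Gr γ, y g ≤ y' g)
    (hw : ∀ e ∈ (Gr γ).powersetCard 2, w e ≤ w' e) (D : Finset V) :
    env γ y w ρ D ≤ env γ y' w' ρ D := by
  unfold env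
  by_cases h : (sups γ D).Nonempty
  · rw [dif_pos h, dif_pos h]
    apply Finset.sup'_le
    intro D' hD'
    have hD'1 : D' ⊆ Gr γ := (mem_sups.1 hD').1
    refine le_trans (mul_le_mul_of_nonneg_right
      (uu_mono hy0 hw0 (fun g hg => hy g (hD'1 hg))
        (fun e he => hw e (Finset.powersetCard_mono hD'1 he))) (pow_nonneg hρ _)) ?_
    exact Finset.le_sup' (fun D' => uu y' w' D' * ρ ^ (D' \ D).card) hD'
  · rw [dif_neg h, dif_neg h]

/-- `cap`: `env_mono`.  `proc`: if `γ p ≠ γ p'` then `γ p`, `γ p'` are in `Gr γ` and `hPr`. -/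
theorem State.mono {U : V → Finset (Fin N)} {γ : V → V} (hγ : ∀ p, γ (γ p) = γ p)
    {y y' : V → ℝ} {w w' : Finset V → ℝ} {ρ T : ℝ} {Pr Pr' : Finset (Finset V)}
    {M B : Finset (Sym2 (Fin N))} {F : Finset (V → Fin N)} (hT : 0 ≤ T) (hρ : 0 ≤ ρ)
    (hy0 : ∀ g, 0 < y g) (hw0 : ∀ e, 1 ≤ w e) (hy : ∀ g ∈ Gr γ, y g ≤ y' g)
    (hw : ∀ e ∈ (Gr γ).powersetCard 2, w e ≤ w' e)
    (hPr : ∀ g ∈ Gr γ, ∀ k ∈ Gr γ, g ≠ k → {g, k} ∈ Pr' → {g, k} ∈ Pr)
    (hS : State U γ y w ρ T Pr M B F) : State U γ y' w' ρ T Pr' M B F := by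
  refine ⟨hS.mem, hS.coh, hS.card, ?_, hS.alive, ?_, hS.disj⟩
  · intro f hf D hD h2
    exact (hS.cap f hf D hD h2).trans
      (mul_le_mul_of_nonneg_left (env_mono hρ hy0 hw0 hy hw D) hT)
  · intro f hf p p' hpp h
    by_cases hg : γ p = γ p'
    · exact hS.proc f hf p p' hpp (Or.inl hg)
    · have h1 : {γ p, γ p'} ∈ Pr' := h.resolve_left hg
      exact hS.proc f hf p p' hpp
        (Or.inr (hPr _ (mem_Gr.2 (hγ p)) _ (mem_Gr.2 (hγ p')) hg h1))

/-- The invariant between two steps. -/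
def Inv (U : V → Finset (Fin N)) (γ : V → V) (y : V → ℝ) (w : Finset V → ℝ) (ρ : ℝ)
    (Pr : Finset (Finset V)) (M B : Finset (Sym2 (Fin N))) : Prop :=
  ∃ T F, 0 < T ∧ 1 ≤ T * uu y w (Gr γ) ∧ State U γ y w ρ T Pr M B F

/-- `State.mono` and `uu_mono`. -/
theorem Inv.mono {U : V → Finset (Fin N)} {γ : V → V} (hγ : ∀ p, γ (γ p) = γ p)
    {y y' : V → ℝ} {w w' : Finset V → ℝ} {ρ : ℝ} {Pr Pr' : Finset (Finset V)}
    {M B : Finset (Sym2 (Fin N))} (hρ : 0 ≤ ρ)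
    (hy0 : ∀ g, 0 < y g) (hw0 : ∀ e, 1 ≤ w e) (hy : ∀ g ∈ Gr γ, y g ≤ y' g)
    (hw : ∀ e ∈ (Gr γ).powersetCard 2, w e ≤ w' e)
    (hPr : ∀ g ∈ Gr γ, ∀ k ∈ Gr γ, g ≠ k → {g, k} ∈ Pr' → {g, k} ∈ Pr)
    (h : Inv U γ y w ρ Pr M B) : Inv U γ y' w' ρ Pr' M B := by
  obtain ⟨T, F, hT, h1, hS⟩ := h
  refine ⟨T, F, hT, ?_, hS.mono hγ hT.le hρ hy0 hw0 hy hw hPr⟩
  exact h1.trans (mul_le_mul_of_nonneg_left (uu_mono hy0 hw0 hy hw) hT.le)

/-- `phase_step`; `1 ≤ T' * uu' (Gr γ)` by `uu_phase` with `D = Gr γ` (`C.filter (· ⊆ Gr γ) = C`,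
`2 ≤ 2 ^ |Gr γ|`). -/
theorem phase_inv {m b r : ℕ} (hr : 1 ≤ r) {U : V → Finset (Fin N)}
    (hU : ∀ p p', p ≠ p' → Disjoint (U p) (U p')) {γ : V → V} (hγ : ∀ p, γ (γ p) = γ p)
    {y : V → ℝ} {w : Finset V → ℝ} (hy : ∀ g, 0 < y g) (hw : ∀ e, 1 ≤ w e)
    {ρ Λ β c2 c3 co E : ℝ} (hβ : β = 1 + (b : ℝ) / r)
    {Pr C : Finset (Finset V)} (hC : ∀ e ∈ C, e.card = 2 ∧ e ⊆ Gr γ)
    (hrm : ∀ g h, ({g, h} : Finset V) ∈ C → r * ((fib γ g).card * (fib γ h).card) ≤ m)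
    (hGr : 1 ≤ (Gr γ).card) (hΛ : 1 ≤ Λ) (hρ : 2 * r * β * Λ ≤ ρ)
    (hc20 : 0 ≤ c2) (hc30 : 0 ≤ c3) (hco0 : 0 ≤ co)
    (h2 : ∀ e ∈ C, env γ (fun g => 2 * y g) (wC β C w) ρ e ≤ c2)
    (h3 : ∀ D ⊆ Gr γ, 3 ≤ D.card → env γ (fun g => 2 * y g) (wC β C w) ρ D ≤ c3)
    (ho : ∀ e ⊆ Gr γ, e.card = 2 → e ∉ C → e ∉ Pr →
      env γ (fun g => 2 * y g) (wC β C w) ρ e ≤ co)
    (hmax : ∀ D ⊆ Gr γ, 2 ≤ D.card → env γ (fun g => 2 * y g) (wC β C w) ρ D ≤ 1)
    (hE : ∑ e ∈ C, ∏ g ∈ e, ((U g).card : ℝ) ≤ E)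
    (hloss : E * lossC r b β (β * Λ / ρ) c2 c3 co ≤ 1 / 8)
    (hWW : (N : ℝ) ^ (Fintype.card V) * 2 ^ (Fintype.card V) * (32 * Real.exp (-(Λ / 2))) ≤ 1)
    {M B : Finset (Sym2 (Fin N))} (h : Inv U γ y w ρ Pr M B) :
    Reach (edges N) m b (fun M' B' => Inv U γ (fun g => 2 * y g) (wC β C w) ρ (Pr ∪ C) M' B')
      M B := by
  obtain ⟨T, F, hT, h1, hS⟩ := h
  have hr0 : (1 : ℝ) ≤ r := by exact_mod_cast hr
  have hβ1 : 1 ≤ β := by
    rw [hβ]
    have : (0 : ℝ) ≤ (b : ℝ) / r := by positivity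
    linarith
  have hβ0 : 0 < β := lt_of_lt_of_le one_pos hβ1
  refine (phase_step hr hU hγ hy hw hT hβ hC hrm hGr h1 hΛ hρ hc20 hc30 hco0 h2 h3 ho hmax hE
    hloss hWW hS).bind ?_
  rintro M' B' ⟨F', hF'⟩
  apply Reach.here
  refine ⟨T * β⁻¹ ^ C.card / 2, F', by positivity, ?_, hF'⟩
  rw [uu_phase β (fun e he => (hC e he).1) y w (Gr γ)]
  have h5 : C.filter (fun e => e ⊆ Gr γ) = C :=
    Finset.filter_true_of_mem (fun e he => (hC e he).2)
  rw [h5]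
  have h6 : β⁻¹ ^ C.card * β ^ C.card = 1 := by
    rw [← mul_pow, inv_mul_cancel₀ hβ0.ne', one_pow]
  have h7 : (2 : ℝ) ≤ 2 ^ (Gr γ).card := by
    calc (2 : ℝ) = 2 ^ 1 := by norm_num
      _ ≤ 2 ^ (Gr γ).card := pow_le_pow_right₀ (by norm_num) hGr
  have h8 : T * β⁻¹ ^ C.card / 2 * (2 ^ (Gr γ).card * β ^ C.card * uu y w (Gr γ)) =
      (β⁻¹ ^ C.card * β ^ C.card) * ((2 ^ (Gr γ).card / 2) * (T * uu y w (Gr γ))) := by ring
  rw [h8, h6, one_mul]
  have h9 : (1 : ℝ) ≤ 2 ^ (Gr γ).card / 2 := by linarith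
  nlinarith

end Pool.Agent.Helper78.CP
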