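import Pool.Agent.Helper78.CP.SDefs
import Pool.Agent.Helper34.GC.Corner

set_option autoImplicit false

/-! Module SM-1: sums over pairs, the form `KK`.  Memo section 5. -/

namespace Pool.Agent.Helper78.CP

open Finset
open Pool.Agent.Helper5.CV (lam)

variable {V : Type*} [Fintype V] [DecidableEq V]

private theorem lam_nn (m b j : ℕ) : 0 ≤ lam m b j := by
  unfold lam
  apply Real.log_nonneg
  have : (0 : ℝ) ≤ (b : ℝ) * j / m := by positivity
  linarith

/-- Proof by induction on `D` (`Finset.powersetCard_succ_insert`: the new pairs are `{p, h}`,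
`h ∈ D`; the double sum over `insert p D` is at least the double sum over `D` plus
`2 ∑ h ∈ D, K p h`). -/
theorem log_prod_pairs_le (K : V → V → ℝ) (hK : ∀ g h, K g h = K h g) (hK0 : ∀ g h, 0 ≤ K g h)
    (w : Finset V → ℝ) (hw : ∀ e, 0 < w e) (D : Finset V)
    (h : ∀ g ∈ D, ∀ k ∈ D, g ≠ k → Real.log (w {g, k}) ≤ K g k) :
    Real.log (∏ e ∈ D.powersetCard 2, w e) ≤ (∑ g ∈ D, ∑ k ∈ D, K g k) / 2 := by
  induction D using Finset.induction_on with
  | empty =>
    have h0 : (∅ : Finset V).powersetCard 2 = ∅ := by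
      rw [powersetCard_eq_empty]
      simp
    rw [h0]
    simp
  | insert p D hp ih =>
    have h1 := ih (fun g hg k hk hgk => h g (mem_insert_of_mem hg) k (mem_insert_of_mem hk) hgk)
    have hdisj : Disjoint (D.powersetCard 2) ((D.powersetCard 1).image (insert p)) := by
      rw [Finset.disjoint_left]
      intro e he he'
      obtain ⟨e', _, rfl⟩ := mem_image.1 he'
      exact hp ((mem_powersetCard.1 he).1 (mem_insert_self p e'))
    have h2 : (insert p D).powersetCard 2 =
        D.powersetCard 2 ∪ (D.powersetCard 1).image (insert p) :=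
      Finset.powersetCard_succ_insert hp 1
    have h3 : (D.powersetCard 1).image (insert p) = D.image (fun k => ({p, k} : Finset V)) := by
      ext e
      simp only [mem_image, mem_powersetCard, card_eq_one]
      constructor
      · rintro ⟨e', ⟨h4, k, rfl⟩, rfl⟩
        exact ⟨k, h4 (mem_singleton_self k), rfl⟩
      · rintro ⟨k, hk, rfl⟩
        exact ⟨{k}, ⟨singleton_subset_iff.2 hk, k, rfl⟩, rfl⟩
    have h4 : ∏ e ∈ D.image (fun k => ({p, k} : Finset V)), w e = ∏ k ∈ D, w {p, k} := by
      rw [Finset.prod_image]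
      intro a ha b hb hab
      have h5 : a ∈ ({p, b} : Finset V) := by
        have : a ∈ ({p, a} : Finset V) := by simp
        have h6 : ({p, a} : Finset V) = {p, b} := hab
        rwa [h6] at this
      rcases mem_insert.1 h5 with h6 | h6
      · exact absurd (h6 ▸ ha) hp
      · exact mem_singleton.1 h6
    have hlog : Real.log (∏ k ∈ D, w {p, k}) = ∑ k ∈ D, Real.log (w {p, k}) :=
      Real.log_prod (fun k _ => (hw _).ne')
    rw [h2, prod_union hdisj, h3, h4, Real.log_mul
      (prod_ne_zero_iff.2 (fun e _ => (hw e).ne')) (prod_ne_zero_iff.2 (fun e _ => (hw _).ne')),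
      hlog]
    have h5 : ∑ k ∈ D, Real.log (w {p, k}) ≤ ∑ k ∈ D, K p k := by
      refine sum_le_sum fun k hk => h p (mem_insert_self p D) k (mem_insert_of_mem hk) ?_
      rintro rfl
      exact hp hk
    have h6 : ∑ g ∈ insert p D, ∑ k ∈ insert p D, K g k =
        K p p + ∑ k ∈ D, K p k + (∑ g ∈ D, K g p + ∑ g ∈ D, ∑ k ∈ D, K g k) := by
      rw [sum_insert hp, sum_insert hp, ← sum_add_distrib]
      congr 1
      exact sum_congr rfl fun g _ => sum_insert hp
    have h7 : ∑ g ∈ D, K g p = ∑ k ∈ D, K p k := sum_congr rfl fun g _ => hK g p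
    have h8 := hK0 p p
    rw [h6, h7]
    linarith

open Classical in
/-- The upper bound for the logarithm of the weight of a pair. -/
noncomputable def KK (m b : ℕ) (rt : V → ℕ) (t : ℕ) (g h : V) : ℝ :=
  (if rt g < t ∧ rt h = rt g then (m : ℝ) ^ 2 * lam m b 1 else 0) +
  (if rt g < t ∧ rt h < t then (m : ℝ) * lam m b m else 0) +
  (if rt g < t ∧ t ≤ rt h then lam m b m else 0) +
  (if t ≤ rt g ∧ rt h < t then lam m b m else 0) +
  (if t ≤ rt g ∧ rt h = rt g then lam m b 1 else 0)

/-- `rt h = rt g` and `rt g < t` is symmetric. -/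
theorem KK_symm (m b : ℕ) (rt : V → ℕ) (t : ℕ) (g h : V) :
    KK m b rt t g h = KK m b rt t h g := by
  unfold KK
  have e1 : (rt g < t ∧ rt h = rt g) ↔ (rt h < t ∧ rt g = rt h) := by
    constructor <;> rintro ⟨h1, h2⟩ <;> exact ⟨by omega, by omega⟩
  have e2 : (rt g < t ∧ rt h < t) ↔ (rt h < t ∧ rt g < t) := and_comm
  have e3 : (rt g < t ∧ t ≤ rt h) ↔ (t ≤ rt h ∧ rt g < t) := and_comm
  have e4 : (t ≤ rt g ∧ rt h < t) ↔ (rt h < t ∧ t ≤ rt g) := and_comm
  have e5 : (t ≤ rt g ∧ rt h = rt g) ↔ (t ≤ rt h ∧ rt g = rt h) := by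
    constructor <;> rintro ⟨h1, h2⟩ <;> exact ⟨by omega, by omega⟩
  rw [if_congr e1 rfl rfl, if_congr e2 rfl rfl, if_congr e3 rfl rfl, if_congr e4 rfl rfl,
    if_congr e5 rfl rfl]
  ring

/-- `0 ≤ lam`. -/
theorem KK_nonneg (m b : ℕ) (rt : V → ℕ) (t : ℕ) (g h : V) : 0 ≤ KK m b rt t g h := by
  have h1 := lam_nn m b 1
  have h2 := lam_nn m b m
  unfold KK
  split_ifs <;> positivity

/-- `1 + b / m ≤ 1 + b`, powers. -/
theorem wh_pos (m b : ℕ) (rt : V → ℕ) (t : ℕ) (e : Finset V) : 1 ≤ wh m b rt t e := by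
  have h1 : (1 : ℝ) ≤ 1 + (b : ℝ) / m := by
    have : (0 : ℝ) ≤ (b : ℝ) / m := by positivity
    linarith
  have h2 : (1 : ℝ) ≤ 1 + (b : ℝ) := by
    have : (0 : ℝ) ≤ (b : ℝ) := by positivity
    linarith
  unfold wh wt
  split_ifs
  · exact h1
  · exact le_refl _
  · exact h2
  · exact one_le_pow₀ h1
  · exact one_le_pow₀ h2

/-- Every case of the definition (`1 ≤ m`): `(1 + b / m) ^ (m ^ 2) ≤ (1 + b) ^ (m ^ 2)` etc. -/
theorem wh_le {m : ℕ} (hm : 1 ≤ m) (b : ℕ) (rt : V → ℕ) (t : ℕ) (e : Finset V) :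
    wh m b rt t e ≤ (1 + (b : ℝ)) ^ (m ^ 2) := by
  have hb : (0 : ℝ) ≤ (b : ℝ) := by positivity
  have hm1 : (1 : ℝ) ≤ (m : ℝ) := by exact_mod_cast hm
  have h1 : 1 + (b : ℝ) / m ≤ 1 + (b : ℝ) := by
    have : (b : ℝ) / m ≤ b := div_le_self hb hm1
    linarith
  have h1' : (1 : ℝ) ≤ 1 + (b : ℝ) / m := by
    have : (0 : ℝ) ≤ (b : ℝ) / m := by positivity
    linarith
  have h2 : (1 : ℝ) ≤ 1 + (b : ℝ) := by linarith
  have hm2 : m ^ 2 ≠ 0 := by positivity
  have h3 : 1 + (b : ℝ) ≤ (1 + (b : ℝ)) ^ (m ^ 2) := le_self_pow₀ h2 hm2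
  have h4 : m ≤ m ^ 2 := Nat.le_self_pow (by norm_num) m
  unfold wh wt
  split_ifs
  · exact h1.trans h3
  · exact h2.trans h3
  · exact h3
  · exact pow_le_pow_left₀ (by linarith) h1 _
  · exact pow_le_pow_right₀ h2 h4

private theorem lam_one' (m b : ℕ) : Real.log (1 + (b : ℝ) / m) = lam m b 1 := by
  unfold lam
  simp

private theorem lam_self' {m : ℕ} (hm : 1 ≤ m) (b : ℕ) :
    Real.log (1 + (b : ℝ)) = lam m b m := by
  unfold lam
  have h1 : (m : ℝ) ≠ 0 := by
    have : (1 : ℝ) ≤ (m : ℝ) := by exact_mod_cast hm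
    linarith
  rw [mul_div_assoc, div_self h1, mul_one]

private theorem kk_pair (rt : V → ℕ) (t : ℕ) {g h : V} (hgh : g ≠ h) :
    kk rt t {g, h} = (if rt g < t then 1 else 0) + (if rt h < t then 1 else 0) := by
  unfold kk
  rw [card_filter, sum_pair hgh]

/-- The cases: both regions `≥ t`: `1 + b / m` or `1`; one `< t`: `1 + b` (`lam m b m = log (1 + b)`);
both `< t`: `(1 + b / m) ^ (m ^ 2)` for the same region, `(1 + b) ^ m` otherwise.
`∃ a, ∀ g ∈ {g, h}, rt g = a` is `rt g = rt h`; `kk rt t {g, h}` is the number of the two elements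
with region `< t`. -/
theorem log_wh_le {m : ℕ} (hm : 1 ≤ m) (b : ℕ) (rt : V → ℕ) (t : ℕ) {g h : V} (hgh : g ≠ h) :
    Real.log (wh m b rt t {g, h}) ≤ KK m b rt t g h := by
  have h1 := lam_nn m b 1
  have h2 := lam_nn m b m
  have hm1 : (1 : ℝ) ≤ (m : ℝ) := by exact_mod_cast hm
  have hiff : (∃ a, ∀ k ∈ ({g, h} : Finset V), rt k = a) ↔ rt h = rt g := by
    constructor
    · rintro ⟨a, ha⟩
      rw [ha g (by simp), ha h (by simp)]
    · intro hh
      refine ⟨rt g, fun k hk => ?_⟩
      rcases mem_insert.1 hk with rfl | hk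
      · rfl
      · rw [mem_singleton.1 hk, hh]
  have hkk := kk_pair rt t hgh
  unfold wh wt
  simp only [hiff, hkk]
  unfold KK
  by_cases c1 : rt g < t <;> by_cases c2 : rt h < t <;> by_cases c3 : rt h = rt g
  · simp only [c1, c2, c3, not_le.2 c1, and_self, if_true, and_true, true_and, false_and,
      and_false, if_false]
    norm_num
    rw [lam_one' m b]
    have : 0 ≤ (m : ℝ) * lam m b m := by positivity
    linarith
  · simp only [c1, c2, c3, not_le.2 c1, not_le.2 c2, and_self, if_true, and_true, true_and,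
      false_and, and_false, if_false]
    norm_num
    rw [lam_self' hm b]
  · exact absurd (c3 ▸ c1) c2
  · simp only [c1, c2, c3, not_le.2 c1, not_lt.1 c2, and_self, if_true, and_true, true_and,
      false_and, and_false, if_false]
    norm_num
    rw [lam_self' hm b]
  · exact absurd (c3.symm ▸ c2) c1
  · simp only [c1, c2, c3, not_le.2 c2, not_lt.1 c1, and_self, if_true, and_true, true_and,
      false_and, and_false, if_false]
    norm_num
    rw [lam_self' hm b]
  · simp only [c1, c2, c3, not_lt.1 c1, and_self, if_true, and_true, true_and,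
      false_and, and_false, if_false]
    norm_num
    rw [lam_one' m b]
  · simp only [c1, c2, c3, not_lt.1 c1, and_self, if_true, and_true, true_and,
      false_and, and_false, if_false]
    norm_num

private theorem card_low {m A l s : ℕ} {rt : V → ℕ} {bl : V → V} (hL : Lay rt bl A m l s) {t : ℕ}
    (ht : t ≤ A) {D : Finset V} (hD : D ⊆ Gr (gam rt bl t)) {a : ℕ} (ha : a < t) :
    (D.filter (fun h => rt h = a)).card ≤ l := by
  refine le_trans (card_le_card ?_) (hL.num a (lt_of_lt_of_le ha ht))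
  intro h hh
  obtain ⟨h1, h2⟩ := mem_filter.1 hh
  have h3 := hD h1
  unfold Gr at h3
  have h4 := (mem_filter.1 h3).2
  unfold gam at h4
  rw [if_pos (by omega)] at h4
  exact mem_filter.2 ⟨mem_univ _, h4, h2⟩

private theorem card_mid {m A l s : ℕ} {rt : V → ℕ} {bl : V → V} (hL : Lay rt bl A m l s)
    {D : Finset V} {a : ℕ} (ha : a < A) :
    (D.filter (fun h => rt h = a)).card ≤ m * l := by
  have h1 : (D.filter (fun h => rt h = a)).card ≤
      m * (univ.filter (fun g => bl g = g ∧ rt g = a)).card := by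
    refine Finset.card_le_mul_card_image_of_maps_to (f := bl) ?_ m ?_
    · intro p hp
      have h2 := (mem_filter.1 hp).2
      exact mem_filter.2 ⟨mem_univ _, hL.idem p, by rw [hL.rt_bl p, h2]⟩
    · intro g hg
      obtain ⟨_, h3, h4⟩ := mem_filter.1 hg
      rw [← hL.size g h3 (by omega)]
      refine card_le_card ?_
      intro p hp
      exact mem_filter.2 ⟨mem_univ _, (mem_filter.1 hp).2⟩
  exact h1.trans (Nat.mul_le_mul_left m (hL.num a ha))

private theorem sum_ite_const (D : Finset V) (p : V → Prop) [DecidablePred p] (c : ℝ) :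
    ∑ g ∈ D, (if p g then c else 0) = ((D.filter p).card : ℝ) * c := by
  rw [← sum_filter, sum_const, nsmul_eq_mul]

/-- The three types of groups in `D`: blocks `J`, single positions of the regions `X`, single
positions of the last region `d`.
Proof: exchange the sums.  For `g ∈ D` with `rt g < t` there are at most `l` elements `h ∈ D` with
`rt h = rt g` (`h ∈ Gr (gam rt bl t)`, `rt h < t`, so `bl h = h`; `Lay.num`, `rt g < t ≤ A`);
for `t ≤ rt g < A` there are at most `m l` positions `h` with `rt h = rt g` (each lies in the fibre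
of one of the at most `l` representatives, `Lay.size`, `Lay.rt_bl`); for `rt g = A` there are `d`. -/
theorem sum_KK_le {m b A l s : ℕ} {rt : V → ℕ} {bl : V → V} (hL : Lay rt bl A m l s) {t : ℕ}
    (ht : t ≤ A) {D : Finset V} (hD : D ⊆ Gr (gam rt bl t)) {J X d : ℝ}
    (hJ : J = ((D.filter (fun g => rt g < t)).card : ℝ))
    (hX : X = ((D.filter (fun g => t ≤ rt g ∧ rt g < A)).card : ℝ))
    (hd : d = ((D.filter (fun g => rt g = A)).card : ℝ)) :
    ∑ g ∈ D, ∑ h ∈ D, KK m b rt t g h ≤
      (m : ℝ) ^ 2 * lam m b 1 * l * J + m * lam m b m * J ^ 2 + 2 * lam m b m * J * (X + d) +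
        lam m b 1 * (m * l) * X + lam m b 1 * d ^ 2 := by
  have hl1 := lam_nn m b 1
  have hlm := lam_nn m b m
  -- the number of positions with region `≥ t`
  have hXd : ((D.filter (fun g => t ≤ rt g)).card : ℝ) = X + d := by
    rw [hX, hd]
    have h1 : D.filter (fun g => t ≤ rt g) =
        D.filter (fun g => t ≤ rt g ∧ rt g < A) ∪ D.filter (fun g => rt g = A) := by
      ext g
      simp only [mem_filter, mem_union]
      have := hL.rt_le g
      constructor
      · rintro ⟨h2, h3⟩
        rcases this.lt_or_eq with h4 | h4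
        · exact Or.inl ⟨h2, h3, h4⟩
        · exact Or.inr ⟨h2, h4⟩
      · rintro (⟨h2, h3, _⟩ | ⟨h2, h3⟩)
        · exact ⟨h2, h3⟩
        · exact ⟨h2, by omega⟩
    rw [h1, card_union_of_disjoint]
    · push_cast
      ring
    · rw [Finset.disjoint_left]
      intro g hg hg'
      have h2 := (mem_filter.1 hg).2.2
      have h3 := (mem_filter.1 hg').2
      omega
  -- bound of one row
  have hrow : ∀ g ∈ D, ∑ h ∈ D, KK m b rt t g h ≤
      (if rt g < t then ((m : ℝ) ^ 2 * lam m b 1 * l + m * lam m b m * J + lam m b m * (X + d))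
        else 0) + (if t ≤ rt g then lam m b m * J else 0) +
      (if t ≤ rt g ∧ rt g < A then lam m b 1 * (m * l) else 0) +
      (if rt g = A then lam m b 1 * d else 0) := by
    intro g hg
    unfold KK
    simp only [sum_add_distrib]
    by_cases c1 : rt g < t
    · have c2 : ¬ t ≤ rt g := not_le.2 c1
      have c3 : ¬ rt g = A := by omega
      simp only [c1, c2, c3, true_and, false_and, if_true, if_false, sum_const_zero, add_zero]
      rw [sum_ite_const, sum_ite_const, sum_ite_const, ← hJ, hXd]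
      have h1 : ((D.filter (fun h => rt h = rt g)).card : ℝ) ≤ l := by
        exact_mod_cast card_low hL ht hD c1
      have h2 := mul_le_mul_of_nonneg_right h1 (mul_nonneg (sq_nonneg (m : ℝ)) hl1)
      nlinarith
    · have c2 : t ≤ rt g := not_lt.1 c1
      simp only [c1, c2, true_and, false_and, if_true, if_false, sum_const_zero, zero_add]
      rw [sum_ite_const, sum_ite_const, ← hJ]
      by_cases c3 : rt g < A
      · have c4 : ¬ rt g = A := by omega
        simp only [c3, c4, if_true, if_false, add_zero]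
        have h1 : ((D.filter (fun h => rt h = rt g)).card : ℝ) ≤ m * l := by
          exact_mod_cast card_mid hL c3
        have h2 := mul_le_mul_of_nonneg_right h1 hl1
        nlinarith
      · have c4 : rt g = A := by
          have := hL.rt_le g
          omega
        simp only [c4, lt_irrefl, if_true, if_false, add_zero]
        rw [← hd]
        nlinarith
  refine (sum_le_sum hrow).trans (le_of_eq ?_)
  simp only [sum_add_distrib]
  rw [sum_ite_const, sum_ite_const, sum_ite_const, sum_ite_const, ← hJ, ← hX, ← hd, hXd]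
  ring

/-- `J ≤ A l` (for each `a < A` at most `l` blocks), `d ≤ s`, `J + X + d = |D|`. -/
theorem counts_le {m A l s : ℕ} {rt : V → ℕ} {bl : V → V} (hL : Lay rt bl A m l s) {t : ℕ}
    (ht : t ≤ A) {D : Finset V} (hD : D ⊆ Gr (gam rt bl t)) :
    (D.filter (fun g => rt g < t)).card ≤ A * l ∧ (D.filter (fun g => rt g = A)).card ≤ s ∧
      (D.filter (fun g => rt g < t)).card + (D.filter (fun g => t ≤ rt g ∧ rt g < A)).card +
        (D.filter (fun g => rt g = A)).card = D.card := by
  refine ⟨?_, ?_, ?_⟩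
  · have h1 : (D.filter (fun g => rt g < t)).card ≤ l * (range t).card := by
      refine Finset.card_le_mul_card_image_of_maps_to (f := rt) ?_ l ?_
      · intro g hg
        exact mem_range.2 (mem_filter.1 hg).2
      · intro a ha
        refine le_trans (card_le_card ?_) (card_low hL ht hD (mem_range.1 ha))
        intro g hg
        obtain ⟨h2, h3⟩ := mem_filter.1 hg
        exact mem_filter.2 ⟨(mem_filter.1 h2).1, h3⟩
    rw [card_range] at h1
    calc (D.filter (fun g => rt g < t)).card ≤ l * t := h1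
      _ ≤ l * A := Nat.mul_le_mul_left l ht
      _ = A * l := Nat.mul_comm l A
  · refine le_trans (card_le_card ?_) hL.lastc
    intro g hg
    exact mem_filter.2 ⟨mem_univ _, (mem_filter.1 hg).2⟩
  · rw [card_filter, card_filter, card_filter, ← sum_add_distrib, ← sum_add_distrib,
      card_eq_sum_ones]
    refine sum_congr rfl fun g _ => ?_
    have := hL.rt_le g
    by_cases c1 : rt g < t
    · have c2 : ¬ (t ≤ rt g ∧ rt g < A) := by omega
      have c3 : ¬ rt g = A := by omega
      rw [if_pos c1, if_neg c2, if_neg c3]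
    · by_cases c2 : rt g = A
      · have c3 : ¬ (t ≤ rt g ∧ rt g < A) := by omega
        rw [if_neg c1, if_neg c3, if_pos c2]
      · have c3 : t ≤ rt g ∧ rt g < A := by omega
        rw [if_neg c1, if_pos c3, if_neg c2]

end Pool.Agent.Helper78.CP
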