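import Pool.Agent.Helper78.CP.SG1
import Pool.Agent.Helper78.CP.SM1

set_option autoImplicit false

/-! Module SG-3: bounds for the envelope at the stage `t`, the loss.  Memo section 6. -/

namespace Pool.Agent.Helper78.CP

open Finset Pool.Agent.Helper78.CH

variable {V : Type*} [Fintype V] [DecidableEq V]

/-- `1 ≤ Ys q m b t` for `q ≥ 1`, by induction. -/
theorem one_le_Ys {q m b : ℕ} (hq : 1 ≤ q) (t : ℕ) : 1 ≤ Ys q m b t := by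
  induction t with
  | zero => exact le_refl _
  | succ t ih =>
    change 1 ≤ 2 * (16 * (q : ℝ) * ((2 * Ys q m b t) ^ m * (1 + (b : ℝ)) ^ (m ^ 2)))
    have h1 : (1 : ℝ) ≤ q := by exact_mod_cast hq
    have h2 : (1 : ℝ) ≤ (2 * Ys q m b t) ^ m := one_le_pow₀ (by linarith)
    have h3 : (1 : ℝ) ≤ (1 + (b : ℝ)) ^ (m ^ 2) :=
      one_le_pow₀ (by have : (0 : ℝ) ≤ b := Nat.cast_nonneg b; linarith)
    have h4 : (1 : ℝ) ≤ (2 * Ys q m b t) ^ m * (1 + (b : ℝ)) ^ (m ^ 2) := one_le_mul_of_one_le_of_one_le h2 h3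
    have h5 : (1 : ℝ) ≤ (q : ℝ) * ((2 * Ys q m b t) ^ m * (1 + (b : ℝ)) ^ (m ^ 2)) :=
      one_le_mul_of_one_le_of_one_le h1 h4
    linarith

/-- `2 * Ys t ≤ Ys (t + 1)` (`1 ≤ m`, `q ≥ 1`): `Ys (t + 1) ≥ 2 (2 Ys t) ^ m`. -/
theorem two_Ys_le {q m b : ℕ} (hq : 1 ≤ q) (hm : 1 ≤ m) (t : ℕ) :
    2 * Ys q m b t ≤ Ys q m b (t + 1) := by
  change 2 * Ys q m b t ≤
    2 * (16 * (q : ℝ) * ((2 * Ys q m b t) ^ m * (1 + (b : ℝ)) ^ (m ^ 2)))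
  have h0 := one_le_Ys (m := m) (b := b) hq t
  have h1 : (1 : ℝ) ≤ q := by exact_mod_cast hq
  have h2 : 2 * Ys q m b t ≤ (2 * Ys q m b t) ^ m :=
    le_self_pow₀ (by linarith) (by omega)
  have h3 : (1 : ℝ) ≤ (1 + (b : ℝ)) ^ (m ^ 2) :=
    one_le_pow₀ (by have : (0 : ℝ) ≤ b := Nat.cast_nonneg b; linarith)
  have h4 : 2 * Ys q m b t ≤ (2 * Ys q m b t) ^ m * (1 + (b : ℝ)) ^ (m ^ 2) :=
    h2.trans (le_mul_of_one_le_right (by positivity) h3)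
  have h5 : 2 * Ys q m b t ≤ (q : ℝ) * ((2 * Ys q m b t) ^ m * (1 + (b : ℝ)) ^ (m ^ 2)) :=
    h4.trans (le_mul_of_one_le_left (by linarith) h1)
  linarith

/-- `nn a ≤ nn a'` for `a ≤ a' ≤ A + 1`. -/
theorem Nums.mono' {N A m b l q : ℕ} {nn : ℕ → ℕ} {ρ Λ δ : ℝ}
    (h : Nums N A m b l q nn ρ Λ δ) {a a' : ℕ} (h1 : a ≤ a') (h2 : a' ≤ A + 1) :
    nn a ≤ nn a' := by
  induction a', h1 using Nat.le_induction with
  | base => exact le_refl _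
  | succ c hc ih => exact (ih (by omega)).trans (h.mono c (by omega))

/-- `N ^ 2 * δ ≤ 1`: `n2` and `1 ≤ 24 * kst m b * q ^ 2` (`1 ≤ m`). -/
theorem Nums.N2 {N A m b l q : ℕ} {nn : ℕ → ℕ} {ρ Λ δ : ℝ} (hm : 1 ≤ m)
    (h : Nums N A m b l q nn ρ Λ δ) : (N : ℝ) ^ 2 * δ ≤ 1 := by
  have h1 : (1 : ℝ) ≤ q := by exact_mod_cast h.q1
  have h2 : (1 : ℝ) ≤ (q : ℝ) ^ 2 := one_le_pow₀ h1
  have hb : (0 : ℝ) ≤ b := Nat.cast_nonneg b
  have hmr : (1 : ℝ) ≤ m := by exact_mod_cast hm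
  have h3 : (1 : ℝ) ≤ kst m b := by
    unfold kst
    have h4 : (1 : ℝ) ≤ ((b : ℝ) + 1) ^ 2 := one_le_pow₀ (by linarith)
    have h5 : (1 : ℝ) ≤ ((b : ℝ) + 1) ^ 2 * (m + b) :=
      one_le_mul_of_one_le_of_one_le h4 (by linarith)
    linarith
  have h6 : (1 : ℝ) ≤ kst m b * (q : ℝ) ^ 2 := one_le_mul_of_one_le_of_one_le h3 h2
  have h7 : 0 ≤ (N : ℝ) ^ 2 * δ := mul_nonneg (by positivity) h.d0
  have h8 := h.n2
  have h9 : (N : ℝ) ^ 2 * δ ≤ 24 * kst m b * (q : ℝ) ^ 2 * ((N : ℝ) ^ 2 * δ) :=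
    le_mul_of_one_le_left h7 (by linarith)
  linarith

/-- The common part of the two bounds. -/
private theorem big_le {m b A l s : ℕ} {rt : V → ℕ} {bl : V → V} (_hL : Lay rt bl A m l s)
    {Y ρ δ : ℝ} {nn : ℕ → ℕ} (hρ : 1 ≤ ρ) (hSM : SM m b A rt bl Y nn ρ δ) {t : ℕ} (ht : t ≤ A)
    {y : V → ℝ} {w : Finset V → ℝ} (hy0 : ∀ g, 0 < y g) (hw0 : ∀ e, 1 ≤ w e)
    (hy : ∀ g ∈ Gr (gam rt bl t), y g ≤ Y / nn (rt g))
    (hw : ∀ e ∈ (Gr (gam rt bl t)).powersetCard 2, w e ≤ wh m b rt t e) {D' : Finset V}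
    (hD : D' ⊆ Gr (gam rt bl t)) (h3 : 3 ≤ D'.card) {k : ℕ} (hk : k ≤ D'.card) :
    uu y w D' * ρ ^ k ≤ δ := by
  have h1 : uu y w D' ≤ uu (fun g => Y / nn (rt g)) (wh m b rt t) D' :=
    uu_mono hy0 hw0 (fun g hg => hy g (hD hg))
      (fun e he => hw e (powersetCard_mono hD he))
  have h2 : ρ ^ k ≤ ρ ^ D'.card := pow_le_pow_right₀ hρ hk
  have h4 := uu_pos hy0 hw0 D'
  have h5 : 0 < ρ := by linarith
  calc uu y w D' * ρ ^ k ≤ uu y w D' * ρ ^ D'.card := mul_le_mul_of_nonneg_left h2 h4.le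
    _ ≤ uu (fun g => Y / nn (rt g)) (wh m b rt t) D' * ρ ^ D'.card :=
        mul_le_mul_of_nonneg_right h1 (by positivity)
    _ ≤ δ := hSM t ht D' hD h3

/-- The envelope of a set with at least three groups.
Proof: `env_eq`: `env D = uu D' * ρ ^ |D' \ D| ≤ uu D' * ρ ^ |D'|` and `uu_mono`, `SM`. -/
theorem env_three {m b A l s : ℕ} {rt : V → ℕ} {bl : V → V} (hL : Lay rt bl A m l s)
    {Y ρ δ : ℝ} {nn : ℕ → ℕ} (hρ : 1 ≤ ρ) (hSM : SM m b A rt bl Y nn ρ δ) {t : ℕ} (ht : t ≤ A)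
    {y : V → ℝ} {w : Finset V → ℝ} (hy0 : ∀ g, 0 < y g) (hw0 : ∀ e, 1 ≤ w e)
    (hy : ∀ g ∈ Gr (gam rt bl t), y g ≤ Y / nn (rt g))
    (hw : ∀ e ∈ (Gr (gam rt bl t)).powersetCard 2, w e ≤ wh m b rt t e) {D : Finset V}
    (hD : D ⊆ Gr (gam rt bl t)) (h3 : 3 ≤ D.card) :
    env (gam rt bl t) y w ρ D ≤ δ := by
  obtain ⟨D', h1, h2, he⟩ := env_eq (y := y) (w := w) (ρ := ρ) hD
  rw [he]
  exact big_le hL hρ hSM ht hy0 hw0 hy hw h2 (h3.trans (card_le_card h1))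
    (card_le_card sdiff_subset)

/-- The envelope of a pair.
Proof: `env_eq`: if `D' = e` the value is `uu y w e ≤ Y ^ 2 W / ∏ nn` (`uu_mono`, `wh_le`); otherwise
`|D'| ≥ 3` and the value is at most `δ ≤ 1 / N ^ 2 ≤ Y ^ 2 W / ∏ nn` (`1 ≤ Y`, `1 ≤ W`,
`0 < nn ≤ N`). -/
theorem env_pair {N m b A l s : ℕ} (hm : 1 ≤ m) {rt : V → ℕ} {bl : V → V}
    (hL : Lay rt bl A m l s) {Y ρ δ : ℝ} {nn : ℕ → ℕ} (hρ : 1 ≤ ρ) (hY : 1 ≤ Y)
    (hN2 : (N : ℝ) ^ 2 * δ ≤ 1) (hnn : ∀ a ≤ A, 1 ≤ nn a ∧ nn a ≤ N)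
    (hSM : SM m b A rt bl Y nn ρ δ) {t : ℕ} (ht : t ≤ A)
    {y : V → ℝ} {w : Finset V → ℝ} (hy0 : ∀ g, 0 < y g) (hw0 : ∀ e, 1 ≤ w e)
    (hy : ∀ g ∈ Gr (gam rt bl t), y g ≤ Y / nn (rt g))
    (hw : ∀ e ∈ (Gr (gam rt bl t)).powersetCard 2, w e ≤ wh m b rt t e) {e : Finset V}
    (he : e ⊆ Gr (gam rt bl t)) (h2 : e.card = 2) :
    env (gam rt bl t) y w ρ e ≤
      Y ^ 2 * (1 + (b : ℝ)) ^ (m ^ 2) / ∏ g ∈ e, (nn (rt g) : ℝ) := by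
  have hP1 : (1 : ℝ) ≤ ∏ g ∈ e, (nn (rt g) : ℝ) := by
    have h0 : 1 ≤ ∏ g ∈ e, nn (rt g) :=
      Nat.one_le_iff_ne_zero.2 (prod_ne_zero_iff.2 fun g _ => by
        have := (hnn (rt g) (hL.rt_le g)).1
        omega)
    exact_mod_cast h0
  have hP2 : ∏ g ∈ e, (nn (rt g) : ℝ) ≤ (N : ℝ) ^ 2 := by
    rw [← h2]
    refine (prod_le_prod (fun g _ => Nat.cast_nonneg _) (g := fun _ => (N : ℝ)) ?_).trans
      (le_of_eq (prod_const _))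
    intro g _
    exact_mod_cast (hnn (rt g) (hL.rt_le g)).2
  have hb : (0 : ℝ) ≤ b := Nat.cast_nonneg b
  have hW : (1 : ℝ) ≤ (1 + (b : ℝ)) ^ (m ^ 2) := one_le_pow₀ (by linarith)
  have hY2 : (1 : ℝ) ≤ Y ^ 2 := one_le_pow₀ hY
  rw [le_div_iff₀ (by linarith)]
  obtain ⟨D', h1, h3, he'⟩ := env_eq (y := y) (w := w) (ρ := ρ) he
  rw [he']
  by_cases hDe : D' = e
  · subst hDe
    rw [Finset.sdiff_self, card_empty, pow_zero, mul_one]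
    have h4 : uu y w D' ≤ uu (fun g => Y / nn (rt g)) (wh m b rt t) D' :=
      uu_mono hy0 hw0 (fun g hg => hy g (he hg))
        (fun e' he'' => hw e' (powersetCard_mono he he''))
    refine (mul_le_mul_of_nonneg_right h4 (by linarith)).trans ?_
    have h5 : uu (fun g => Y / nn (rt g)) (wh m b rt t) D' * ∏ g ∈ D', (nn (rt g) : ℝ) =
        Y ^ 2 * wh m b rt t D' := by
      unfold uu
      have h6 : D'.powersetCard 2 = {D'} := by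
        rw [← h2, powersetCard_self]
      rw [h6, prod_singleton, prod_div_distrib, prod_const, h2]
      field_simp
    rw [h5]
    exact mul_le_mul_of_nonneg_left (wh_le hm b rt t D') (by linarith)
  · have h4 : 3 ≤ D'.card := by
      have h5 := card_lt_card (Finset.ssubset_iff_subset_ne.2 ⟨h1, fun h => hDe h.symm⟩)
      omega
    have h5 := big_le hL hρ hSM ht hy0 hw0 hy hw h3 h4 (card_le_card sdiff_subset : (D' \ e).card ≤ _)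
    have h6 : 0 < uu y w D' * ρ ^ (D' \ e).card :=
      mul_pos (uu_pos hy0 hw0 D') (pow_pos (by linarith) _)
    have h7 : uu y w D' * ρ ^ (D' \ e).card * ∏ g ∈ e, (nn (rt g) : ℝ) ≤ δ * (N : ℝ) ^ 2 :=
      mul_le_mul h5 hP2 (by linarith) (by linarith)
    have h8 : (1 : ℝ) ≤ Y ^ 2 * (1 + (b : ℝ)) ^ (m ^ 2) := one_le_mul_of_one_le_of_one_le hY2 hW
    linarith

/-- `r β = r + b ≤ m + b`, `β ≤ 1 + b`; `4 (r β + b) + 4 (b + 1) (r + b) ≤ kst`,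
`4 (b + 1) (r + b) β ≤ kst`, `b ≤ kst`. -/
theorem lossC_le {m b r : ℕ} (hr : 1 ≤ r) (hrm : r ≤ m) {β Λ ρ c2 c3 co : ℝ}
    (hβ : β = 1 + (b : ℝ) / r) (hΛ : 0 ≤ Λ) (hρ : 0 < ρ) (hc2 : 0 ≤ c2) (hc3 : 0 ≤ c3)
    (hco : 0 ≤ co) :
    lossC r b β (β * Λ / ρ) c2 c3 co ≤ kst m b * ((1 + (b : ℝ)) * Λ / ρ * c2 + c3 + co) := by
  have hr' : (1 : ℝ) ≤ r := by exact_mod_cast hr
  have hm' : (r : ℝ) ≤ m := by exact_mod_cast hrm
  have hb : (0 : ℝ) ≤ b := Nat.cast_nonneg b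
  have hrβ : (r : ℝ) * β = r + b := by
    rw [hβ]
    field_simp
  have hβ1 : β ≤ 1 + b := by
    rw [hβ]
    have h1 : (b : ℝ) / r ≤ b := div_le_self hb hr'
    linarith
  have hβ0 : 0 ≤ β := by
    rw [hβ]
    positivity
  unfold lossC kst
  set ν := β * Λ / ρ with hν
  have hν0 : 0 ≤ ν := by positivity
  have hν1 : ν ≤ (1 + (b : ℝ)) * Λ / ρ := by
    rw [hν]
    exact div_le_div_of_nonneg_right (mul_le_mul_of_nonneg_right hβ1 hΛ) hρ.le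
  have hb1 : (b : ℝ) + 1 ≤ ((b : ℝ) + 1) ^ 2 := by nlinarith
  -- the three coefficients
  have k1 : 4 * ((r : ℝ) * β + b) + 4 * ((b + 1) * (r + b)) ≤ 12 * ((b : ℝ) + 1) ^ 2 * (m + b) := by
    rw [hrβ]
    have h1 : ((b : ℝ) + 1) * (r + b) ≤ ((b : ℝ) + 1) ^ 2 * (m + b) :=
      mul_le_mul hb1 (by linarith) (by linarith) (by positivity)
    have h2 : (r : ℝ) + b ≤ ((b : ℝ) + 1) * (r + b) := by nlinarith
    nlinarith
  have k2 : 4 * (((b : ℝ) + 1) * (r + b) * β) ≤ 12 * ((b : ℝ) + 1) ^ 2 * (m + b) := by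
    have h1 : ((b : ℝ) + 1) * (r + b) * β ≤ ((b : ℝ) + 1) * (r + b) * (1 + b) :=
      mul_le_mul_of_nonneg_left hβ1 (by positivity)
    have h2 : ((b : ℝ) + 1) * (r + b) * (1 + b) = ((b : ℝ) + 1) ^ 2 * (r + b) := by ring
    have h3 : ((b : ℝ) + 1) ^ 2 * (r + b) ≤ ((b : ℝ) + 1) ^ 2 * (m + b) :=
      mul_le_mul_of_nonneg_left (by linarith) (by positivity)
    have h4 : 0 ≤ ((b : ℝ) + 1) ^ 2 * (m + b) := by positivity
    linarith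
  have k3 : (b : ℝ) ≤ 12 * ((b : ℝ) + 1) ^ 2 * (m + b) := by
    have h1 : (1 : ℝ) ≤ ((b : ℝ) + 1) ^ 2 := one_le_pow₀ (by linarith)
    have h2 : (b : ℝ) ≤ ((b : ℝ) + 1) ^ 2 * (m + b) := by nlinarith
    have h4 : 0 ≤ ((b : ℝ) + 1) ^ 2 * (m + b) := by positivity
    linarith
  set Kk := 12 * ((b : ℝ) + 1) ^ 2 * (m + b) with hKk
  have hK0 : 0 ≤ Kk := by positivity
  have e1 : 4 * ((r : ℝ) * β + b) * ν * c2 + (b + 1) * (r + b) * (4 * ν * c2 + 4 * β * c3) +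
      b * co = (4 * ((r : ℝ) * β + b) + 4 * ((b + 1) * (r + b))) * (ν * c2) +
        4 * (((b : ℝ) + 1) * (r + b) * β) * c3 + b * co := by ring
  rw [e1]
  have t1 : (4 * ((r : ℝ) * β + b) + 4 * ((b + 1) * (r + b))) * (ν * c2) ≤
      Kk * ((1 + (b : ℝ)) * Λ / ρ * c2) :=
    mul_le_mul k1 (mul_le_mul_of_nonneg_right hν1 hc2) (by positivity) hK0
  have t2 : 4 * (((b : ℝ) + 1) * (r + b) * β) * c3 ≤ Kk * c3 :=
    mul_le_mul_of_nonneg_right k2 hc3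
  have t3 : (b : ℝ) * co ≤ Kk * co := mul_le_mul_of_nonneg_right k3 hco
  have e2 : Kk * ((1 + (b : ℝ)) * Λ / ρ * c2 + c3 + co) =
      Kk * ((1 + (b : ℝ)) * Λ / ρ * c2) + Kk * c3 + Kk * co := by ring
  rw [e2]
  linarith

/-- `(powersetCard 2).card ≤ q ^ 2`: a sum over pairs of numbers `≤ x`. -/
theorem sum_pairs_le {C : Finset (Finset V)} (hC : ∀ e ∈ C, e.card = 2) {f : Finset V → ℝ} {x : ℝ}
    (hx : 0 ≤ x) (hf : ∀ e ∈ C, f e ≤ x) :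
    ∑ e ∈ C, f e ≤ (Fintype.card V : ℝ) ^ 2 * x := by
  have h1 : C.card ≤ (Fintype.card V) ^ 2 := by
    have h2 : C ⊆ (univ : Finset V).powersetCard 2 := by
      intro e he
      rw [mem_powersetCard]
      exact ⟨subset_univ _, hC e he⟩
    refine (card_le_card h2).trans ?_
    rw [card_powersetCard, card_univ]
    exact Nat.choose_le_pow _ _
  have h3 : (C.card : ℝ) ≤ (Fintype.card V : ℝ) ^ 2 := by exact_mod_cast h1
  calc ∑ e ∈ C, f e ≤ ∑ _e ∈ C, x := sum_le_sum hf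
    _ = C.card * x := by rw [sum_const, nsmul_eq_mul]
    _ ≤ (Fintype.card V : ℝ) ^ 2 * x := mul_le_mul_of_nonneg_right h3 hx

end Pool.Agent.Helper78.CP
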