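import Pool.Agent.Helper78.CP.SG3

set_option autoImplicit false

/-! Module SG-4: the phase inside the region `t`. -/

namespace Pool.Agent.Helper78.CP

open Finset Pool.Agent.Helper25.CliqueGame Pool.Agent.Helper78.CH

variable {N : ℕ} {V : Type*} [Fintype V] [DecidableEq V]

/-- `1 ≤ wt`. -/
theorem one_le_wt (m b : ℕ) (rt : V → ℕ) (t : ℕ) (e : Finset V) : 1 ≤ wt m b rt t e := by
  unfold wt
  have hb : (0 : ℝ) ≤ b := Nat.cast_nonneg b
  have hbm : (0 : ℝ) ≤ (b : ℝ) / m := div_nonneg hb (Nat.cast_nonneg m)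
  split_ifs
  · exact le_rfl
  · linarith
  · exact one_le_pow₀ (by linarith)
  · exact one_le_pow₀ (by linarith)

/-- For `e ∈ C1` we have `kk rt t e = 0`, so `wt = 1` and `wC = 1 + b / m = wh`; for other pairs
`wC = wt ≤ wh`. -/
theorem wC_C1_le {m b : ℕ} {rt : V → ℕ} {bl : V → V} {t : ℕ} (e : Finset V) :
    wC (1 + (b : ℝ) / m) (C1 rt bl t) (wt m b rt t) e ≤ wh m b rt t e := by
  classical
  have hb : (0 : ℝ) ≤ b := Nat.cast_nonneg b
  have hbm : (0 : ℝ) ≤ (b : ℝ) / m := div_nonneg hb (Nat.cast_nonneg m)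
  unfold wC
  by_cases he : e ∈ C1 rt bl t
  · rw [if_pos he]
    have hall : ∀ g ∈ e, rt g = t := by
      unfold C1 at he
      exact (mem_filter.1 he).2
    have hkk : kk rt t e = 0 := by
      unfold kk
      rw [card_eq_zero, filter_eq_empty_iff]
      intro g hg hlt
      rw [hall g hg] at hlt
      exact lt_irrefl _ hlt
    unfold wt wh
    rw [if_pos hkk, if_pos hkk, if_pos ⟨t, hall⟩, mul_one]
  · rw [if_neg he]
    unfold wh
    by_cases hkk : kk rt t e = 0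
    · rw [if_pos hkk]
      unfold wt
      rw [if_pos hkk]
      split_ifs
      · linarith
      · exact le_rfl
    · rw [if_neg hkk]

/-- **Phase (t, t).**
Proof: `phase_inv` with `r = m`, `β = 1 + b / m`, `Y = Ys q m b (A + 1)`, `W = (1 + b) ^ (m ^ 2)`,
`c2 = Y ^ 2 * W / nn t ^ 2`, `c3 = δ`, `co = Y ^ 2 * W / (nn t * nn (t + 1))`,
`E = q ^ 2 * nn t ^ 2`.
`hrm`: both groups are single (`card_fib_single`).  `h2`: `env_pair`, the product is `nn t ^ 2`.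
`h3`: `env_three`.  `ho`: `e ∉ Prt`: all `rt g ≥ t`; `e ∉ C1`: some `rt g ≥ t + 1` (so `t + 1 ≤ A`);
`env_pair` and `Nums.mono'`: the product is at least `nn t * nn (t + 1)`.
`hmax`: `env_pair` and `n6` (`Y ^ 2 W ≤ nn 0 ≤ nn a`, `1 ≤ nn`), `env_three` and
`δ ≤ 1` (`N2`, `1 ≤ N`).  `hE`: `sum_pairs_le`.
`hloss`: `lossC_le`; the three terms are at most `1 / 24`:
`q ^ 2 nn t ^ 2 * kst * ((1 + b) Λ / ρ) * c2 = kst q ^ 2 (1 + b) Λ Y ^ 2 W / ρ` (`n1`),
`q ^ 2 nn t ^ 2 * kst * δ ≤ kst q ^ 2 N ^ 2 δ` (`n2`),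
`q ^ 2 nn t ^ 2 * kst * co = kst q ^ 2 Y ^ 2 W nn t / nn (t + 1)` (`n3`). -/
theorem phase_tt {m b A l s : ℕ} (hm : 1 ≤ m) {rt : V → ℕ} {bl : V → V}
    (hL : Lay rt bl A m l s) {nn : ℕ → ℕ} {ρ Λ δ : ℝ}
    (hN : Nums N A m b l (Fintype.card V) nn ρ Λ δ)
    (hSM : SM m b A rt bl (Ys (Fintype.card V) m b (A + 1)) nn ρ δ)
    {U : V → Finset (Fin N)} (hU : ∀ p p', p ≠ p' → Disjoint (U p) (U p'))
    (hUc : ∀ p, (U p).card = nn (rt p)) {t : ℕ} (ht : t ≤ A) {Y1 : ℝ} (hY1 : 0 < Y1)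
    (h2Y : 2 * Y1 ≤ Ys (Fintype.card V) m b (A + 1)) {M B : Finset (Sym2 (Fin N))}
    (h : Inv U (gam rt bl t) (fun g => Y1 / nn (rt g)) (wt m b rt t) ρ (Prt rt bl t) M B) :
    Reach (edges N) m b (fun M' B' => Inv U (gam rt bl t) (fun g => 2 * (Y1 / nn (rt g)))
      (wC (1 + (b : ℝ) / m) (C1 rt bl t) (wt m b rt t)) ρ (Prt rt bl t ∪ C1 rt bl t) M' B')
      M B := by
  classical
  have hm0 : (0 : ℝ) < m := by exact_mod_cast hm
  have hb : (0 : ℝ) ≤ b := Nat.cast_nonneg b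
  have hbm : (0 : ℝ) ≤ (b : ℝ) / m := div_nonneg hb hm0.le
  have hq1 := hN.q1
  have hq0 : (0 : ℝ) ≤ (Fintype.card V : ℝ) := Nat.cast_nonneg _
  set Y : ℝ := Ys (Fintype.card V) m b (A + 1) with hYd
  have hY1 : 1 ≤ Y := one_le_Ys hq1 _
  have hY0 : 0 < Y := by linarith
  set W : ℝ := (1 + (b : ℝ)) ^ (m ^ 2) with hWd
  have hW1 : 1 ≤ W := one_le_pow₀ (by linarith)
  have hW0 : 0 < W := by linarith
  have hnpos : ∀ a ≤ A, (0 : ℝ) < nn a := by
    intro a ha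
    have := hN.four a ha
    exact_mod_cast (by omega : 0 < nn a)
  have hnt : (0 : ℝ) < nn t := hnpos t ht
  have hnt1 : (0 : ℝ) < nn (t + 1) := by
    have h1 := hN.mono t ht
    have h2 := hN.four t ht
    exact_mod_cast (by omega : 0 < nn (t + 1))
  have hρ0 : (0 : ℝ) < ρ := by
    have := hN.rho1
    linarith
  have hk0 : 0 ≤ kst m b := by
    unfold kst
    positivity
  have hβ1 : (1 : ℝ) ≤ 1 + (b : ℝ) / m := by linarith
  have hN2 := hN.N2 hm
  have hnn : ∀ a ≤ A, 1 ≤ nn a ∧ nn a ≤ N := by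
    intro a ha
    have := hN.four a ha
    exact ⟨by omega, hN.le_N a ha⟩
  have hy0 : ∀ g, 0 < 2 * (Y1 / (nn (rt g) : ℝ)) := by
    intro g
    have := hnpos _ (hL.rt_le g)
    positivity
  have hyY : ∀ g ∈ Gr (gam rt bl t), 2 * (Y1 / (nn (rt g) : ℝ)) ≤ Y / nn (rt g) := by
    intro g _
    have h1 := hnpos _ (hL.rt_le g)
    rw [← mul_div_assoc]
    exact div_le_div_of_nonneg_right h2Y h1.le
  have hw0 : ∀ e, 1 ≤ wC (1 + (b : ℝ) / m) (C1 rt bl t) (wt m b rt t) e :=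
    one_le_wC hβ1 _ (one_le_wt m b rt t)
  have hwh : ∀ e ∈ (Gr (gam rt bl t)).powersetCard 2,
      wC (1 + (b : ℝ) / m) (C1 rt bl t) (wt m b rt t) e ≤ wh m b rt t e :=
    fun e _ => wC_C1_le e
  have hpair : ∀ e ⊆ Gr (gam rt bl t), e.card = 2 →
      env (gam rt bl t) (fun g => 2 * (Y1 / (nn (rt g) : ℝ)))
        (wC (1 + (b : ℝ) / m) (C1 rt bl t) (wt m b rt t)) ρ e ≤
        Y ^ 2 * W / ∏ g ∈ e, (nn (rt g) : ℝ) := by
    intro e he h2
    exact env_pair (N := N) hm hL hN.rho1 hY1 hN2 hnn hSM ht hy0 hw0 hyY hwh he h2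
  have hthree : ∀ D ⊆ Gr (gam rt bl t), 3 ≤ D.card →
      env (gam rt bl t) (fun g => 2 * (Y1 / (nn (rt g) : ℝ)))
        (wC (1 + (b : ℝ) / m) (C1 rt bl t) (wt m b rt t)) ρ D ≤ δ := by
    intro D hD h3
    exact env_three hL hN.rho1 hSM ht hy0 hw0 hyY hwh hD h3
  have hC1 : ∀ e ∈ C1 rt bl t, (e.card = 2 ∧ e ⊆ Gr (gam rt bl t)) ∧ ∀ g ∈ e, rt g = t := by
    intro e he
    unfold C1 at he
    obtain ⟨h1, h2⟩ := mem_filter.1 he
    obtain ⟨h3, h4⟩ := mem_powersetCard.1 h1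
    exact ⟨⟨h4, h3⟩, h2⟩
  have hprodC1 : ∀ e ∈ C1 rt bl t, ∏ g ∈ e, (nn (rt g) : ℝ) = (nn t : ℝ) ^ 2 := by
    intro e he
    obtain ⟨⟨h1, _⟩, h3⟩ := hC1 e he
    rw [← h1, Finset.prod_congr rfl fun g hg => by rw [h3 g hg], Finset.prod_const]
  have hYW0 : 0 < Y ^ 2 * W := by positivity
  have hYWn0 : Y ^ 2 * W ≤ nn 0 := hN.n6
  refine phase_inv (r := m) hm hU (gam_idem hL t) (fun g => ?_) (one_le_wt m b rt t)
    (Λ := Λ) (c2 := Y ^ 2 * W / (nn t : ℝ) ^ 2) (c3 := δ)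
    (co := Y ^ 2 * W / ((nn t : ℝ) * nn (t + 1)))
    (E := (Fintype.card V : ℝ) ^ 2 * (nn t : ℝ) ^ 2) rfl (fun e he => (hC1 e he).1)
    ?_ ?_ hN.lam1 ?_ (by positivity) hN.d0 (by positivity) ?_ hthree ?_ ?_ ?_ ?_ hN.big h
  · have := hnpos _ (hL.rt_le g)
    positivity
  · intro g k hgk
    have h1 := (hC1 _ hgk).2
    rw [card_fib_single hL (h1 g (by simp)).ge, card_fib_single hL (h1 k (by simp)).ge]
    simp
  · have hne : Nonempty V := Fintype.card_pos_iff.1 hq1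
    obtain ⟨p⟩ := hne
    exact card_pos.2 ⟨gam rt bl t p, mem_Gr.2 (gam_idem hL t p)⟩
  · have h1 : 2 * (m : ℝ) * (1 + (b : ℝ) / m) * Λ = 2 * ((m : ℝ) + b) * Λ := by
      field_simp
    rw [h1]
    exact hN.lam_rho
  · intro e he
    have h1 := hpair e (hC1 e he).1.2 (hC1 e he).1.1
    rwa [hprodC1 e he] at h1
  · intro e he h2 hnC hnP
    refine (hpair e he h2).trans ?_
    have hge : ∀ g ∈ e, t ≤ rt g := by
      intro g hg
      by_contra hlt
      push Not at hlt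
      apply hnP
      unfold Prt
      exact mem_filter.2 ⟨mem_powersetCard.2 ⟨he, h2⟩, g, hg, hlt⟩
    have hex : ∃ g ∈ e, rt g ≠ t := by
      by_contra hcon
      push Not at hcon
      apply hnC
      unfold C1
      exact mem_filter.2 ⟨mem_powersetCard.2 ⟨he, h2⟩, hcon⟩
    obtain ⟨g, hg, hgt⟩ := hex
    have hgt' : t + 1 ≤ rt g := by
      have := hge g hg
      omega
    have hprod : (nn t : ℝ) * nn (t + 1) ≤ ∏ g ∈ e, (nn (rt g) : ℝ) := by
      rw [← Finset.mul_prod_erase e _ hg]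
      have hc1 : (e.erase g).card = 1 := by
        rw [card_erase_of_mem hg, h2]
      obtain ⟨k, hk⟩ := card_eq_one.1 hc1
      have hke : k ∈ e := by
        have : k ∈ e.erase g := by rw [hk]; simp
        exact (mem_erase.1 this).2
      rw [hk, Finset.prod_singleton, mul_comm]
      have h3 : (nn (t + 1) : ℝ) ≤ nn (rt g) := by
        exact_mod_cast hN.mono' hgt' (by have := hL.rt_le g; omega)
      have h4 : (nn t : ℝ) ≤ nn (rt k) := by
        exact_mod_cast hN.mono' (hge k hke) (by have := hL.rt_le k; omega)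
      exact mul_le_mul h3 h4 hnt.le (by positivity)
    exact div_le_div_of_nonneg_left hYW0.le (by positivity) hprod
  · intro D hD h2
    rcases Nat.lt_or_ge D.card 3 with h3 | h3
    · have h2' : D.card = 2 := by omega
      refine (hpair D hD h2').trans ?_
      obtain ⟨g, k, hgk, rfl⟩ := card_eq_two.1 h2'
      rw [Finset.prod_pair hgk]
      have h4 : (nn 0 : ℝ) ≤ nn (rt g) := by
        exact_mod_cast hN.mono' (Nat.zero_le _) (by have := hL.rt_le g; omega)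
      have h5 : (1 : ℝ) ≤ nn (rt k) := by
        exact_mod_cast (hnn _ (hL.rt_le k)).1
      have h6 := hnpos _ (hL.rt_le g)
      rw [div_le_one (by positivity)]
      nlinarith
    · refine (hthree D hD h3).trans ?_
      have hN1 : (1 : ℝ) ≤ N := by
        have h4 := hnn t ht
        exact_mod_cast h4.1.trans h4.2
      have hN1' : (1 : ℝ) ≤ (N : ℝ) ^ 2 := one_le_pow₀ hN1
      have hd0 := hN.d0
      nlinarith
  · refine sum_pairs_le (fun e he => (hC1 e he).1.1) (by positivity) ?_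
    intro e he
    rw [← hprodC1 e he]
    refine le_of_eq (Finset.prod_congr rfl fun g _ => ?_)
    rw [hUc]
  · have hlc := lossC_le (m := m) (b := b) (r := m) hm le_rfl (β := 1 + (b : ℝ) / m) (Λ := Λ)
      (ρ := ρ) (c2 := Y ^ 2 * W / (nn t : ℝ) ^ 2) (c3 := δ)
      (co := Y ^ 2 * W / ((nn t : ℝ) * nn (t + 1))) rfl (by have := hN.lam1; linarith) hρ0
      (by positivity) hN.d0 (by positivity)
    have hE0 : 0 ≤ (Fintype.card V : ℝ) ^ 2 * (nn t : ℝ) ^ 2 := by positivity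
    refine (mul_le_mul_of_nonneg_left hlc hE0).trans ?_
    have e1 := hN.n1
    have e2 := hN.n2
    have e3 := hN.n3 t ht
    have hΛ1 := hN.lam1
    have f1 : kst m b * (Fintype.card V : ℝ) ^ 2 * ((1 + (b : ℝ)) * Λ * Y ^ 2 * W) / ρ ≤
        1 / 24 := by
      rw [div_le_iff₀ hρ0]
      linarith
    have hntN : (nn t : ℝ) ≤ N := by exact_mod_cast hN.le_N t ht
    have f2 : kst m b * (Fintype.card V : ℝ) ^ 2 * ((nn t : ℝ) ^ 2 * δ) ≤ 1 / 24 := by
      have h4 : (nn t : ℝ) ^ 2 ≤ (N : ℝ) ^ 2 := pow_le_pow_left₀ hnt.le hntN 2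
      have h5 : (nn t : ℝ) ^ 2 * δ ≤ (N : ℝ) ^ 2 * δ := mul_le_mul_of_nonneg_right h4 hN.d0
      have h6 : kst m b * (Fintype.card V : ℝ) ^ 2 * ((nn t : ℝ) ^ 2 * δ) ≤
          kst m b * (Fintype.card V : ℝ) ^ 2 * ((N : ℝ) ^ 2 * δ) :=
        mul_le_mul_of_nonneg_left h5 (by positivity)
      linarith
    have f3 : kst m b * (Fintype.card V : ℝ) ^ 2 * (Y ^ 2 * W * nn t) / nn (t + 1) ≤
        1 / 24 := by
      rw [div_le_iff₀ hnt1]
      linarith
    have f4 : (Fintype.card V : ℝ) ^ 2 * (nn t : ℝ) ^ 2 *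
        (kst m b * ((1 + (b : ℝ)) * Λ / ρ * (Y ^ 2 * W / (nn t : ℝ) ^ 2) + δ +
          Y ^ 2 * W / ((nn t : ℝ) * nn (t + 1)))) =
        kst m b * (Fintype.card V : ℝ) ^ 2 * ((1 + (b : ℝ)) * Λ * Y ^ 2 * W) / ρ +
        kst m b * (Fintype.card V : ℝ) ^ 2 * ((nn t : ℝ) ^ 2 * δ) +
        kst m b * (Fintype.card V : ℝ) ^ 2 * (Y ^ 2 * W * nn t) / nn (t + 1) := by
      field_simp
    rw [f4]
    linarith

end Pool.Agent.Helper78.CP
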