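import Pool.Agent.Helper78.CP.SG3

set_option autoImplicit false

/-! Module SG-5: the birth of the blocks of the region `t`. -/

namespace Pool.Agent.Helper78.CP

open Finset Pool.Agent.Helper25.CliqueGame Pool.Agent.Helper78.CH

variable {N : ℕ} {V : Type*} [Fintype V] [DecidableEq V]

open Classical in
/-- The weights after the birth: the pairs of `C3` are not yet processed. -/
noncomputable def w2 (m b : ℕ) (rt : V → ℕ) (bl : V → V) (t : ℕ) (e : Finset V) : ℝ :=
  if e ∈ C3 rt bl t then 1 else wt m b rt (t + 1) e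

/-- The processed pairs after the birth. -/
noncomputable def P2 (rt : V → ℕ) (bl : V → V) (t : ℕ) : Finset (Finset V) :=
  Prt rt bl (t + 1) \ C3 rt bl t

/-- The weight of a pair with the regions `x`, `y`. -/
private noncomputable def sgW (m b t x y : ℕ) : ℝ :=
  if x < t then
    if y < t then (if x = y then (1 + (b : ℝ) / m) ^ (m ^ 2) else (1 + (b : ℝ)) ^ m)
    else 1 + (b : ℝ)
  else if y < t then 1 + (b : ℝ) else 1

private theorem sg_kk_pair (rt : V → ℕ) (t : ℕ) {g h : V} (hgh : g ≠ h) :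
    kk rt t {g, h} = (if rt g < t then 1 else 0) + (if rt h < t then 1 else 0) := by
  unfold kk
  rw [card_filter, sum_pair hgh]

private theorem sg_wt_pair (m b : ℕ) (rt : V → ℕ) (t : ℕ) {g h : V} (hgh : g ≠ h) :
    wt m b rt t {g, h} = sgW m b t (rt g) (rt h) := by
  have hex : (∃ a, ∀ x ∈ ({g, h} : Finset V), rt x = a) ↔ rt g = rt h := by
    constructor
    · rintro ⟨a, ha⟩
      rw [ha g (by simp), ha h (by simp)]
    · intro h1
      refine ⟨rt h, ?_⟩
      intro x hx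
      rw [mem_insert, mem_singleton] at hx
      rcases hx with rfl | rfl
      · exact h1
      · rfl
  unfold wt sgW
  rw [sg_kk_pair rt t hgh]
  by_cases h1 : rt g < t
  · by_cases h2 : rt h < t
    · simp only [h1, h2, if_true, hex]
      norm_num
    · simp [h1, h2]
  · by_cases h2 : rt h < t
    · simp [h1, h2]
    · simp [h1, h2]

private theorem sg_mem_C1 {rt : V → ℕ} {bl : V → V} {t : ℕ} {g h : V} (hgh : g ≠ h) :
    {g, h} ∈ C1 rt bl t ↔ rt g = t ∧ rt h = t := by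
  unfold C1
  rw [mem_filter, mem_powersetCard]
  constructor
  · rintro ⟨_, h2⟩
    exact ⟨h2 g (by simp), h2 h (by simp)⟩
  · rintro ⟨h1, h2⟩
    refine ⟨⟨?_, card_pair hgh⟩, ?_⟩
    · intro x hx
      rw [mem_insert, mem_singleton] at hx
      rw [mem_Gr_gam]
      intro h3
      rcases hx with rfl | rfl <;> omega
    · intro x hx
      rw [mem_insert, mem_singleton] at hx
      rcases hx with rfl | rfl
      · exact h1
      · exact h2

/-- The weight `wC` of a pair. -/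
private theorem sg_wC_pair (m b : ℕ) (rt : V → ℕ) (bl : V → V) (t : ℕ) {g h : V} (hgh : g ≠ h) :
    wC (1 + (b : ℝ) / m) (C1 rt bl t) (wt m b rt t) {g, h} =
      if rt g = t ∧ rt h = t then 1 + (b : ℝ) / m else sgW m b t (rt g) (rt h) := by
  unfold wC
  rw [sg_wt_pair m b rt t hgh]
  by_cases h1 : rt g = t ∧ rt h = t
  · rw [if_pos ((sg_mem_C1 hgh).2 h1), if_pos h1]
    have h2 : sgW m b t (rt g) (rt h) = 1 := by
      unfold sgW
      rw [h1.1, h1.2]
      simp
    rw [h2, mul_one]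
  · rw [if_neg (fun h2 => h1 ((sg_mem_C1 hgh).1 h2)), if_neg h1]

/-- The elements of `lf`. -/
private theorem sg_lf {m A l s : ℕ} {rt : V → ℕ} {bl : V → V} (hL : Lay rt bl A m l s) {t : ℕ}
    (ht : t < A) {g a : V} (hg : g ∈ Gr (gam rt bl (t + 1)))
    (ha : a ∈ lf (gam rt bl (t + 1)) (univ.filter (fun p => rt p = t)) g) :
    rt a = rt g ∧ gam rt bl (t + 1) a = g ∧ a ∈ Gr (gam rt bl t) := by
  have h0 : gam rt bl (t + 1) g = g := mem_Gr.1 hg
  unfold lf at ha
  by_cases h1 : g ∈ (univ.filter (fun p => rt p = t))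
  · rw [if_pos h1, mem_fib] at ha
    rw [mem_filter] at h1
    have h2 : rt a = rt g := by rw [← rt_gam hL (t + 1) a, ha]
    refine ⟨h2, ha, ?_⟩
    rw [mem_Gr_gam]
    intro h3
    have := h1.2
    omega
  · rw [if_neg h1, mem_singleton] at ha
    subst ha
    refine ⟨rfl, h0, ?_⟩
    rw [mem_Gr_gam] at hg ⊢
    intro h3
    exact hg (by omega)

private theorem sg_card_lf {m A l s : ℕ} {rt : V → ℕ} {bl : V → V} (hL : Lay rt bl A m l s)
    {t : ℕ} (ht : t < A) {g : V} (hg : g ∈ Gr (gam rt bl (t + 1))) :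
    (lf (gam rt bl (t + 1)) (univ.filter (fun p => rt p = t)) g).card =
      if rt g = t then m else 1 := by
  unfold lf
  by_cases h1 : rt g = t
  · rw [if_pos (by rw [mem_filter]; exact ⟨mem_univ _, h1⟩), if_pos h1]
    exact card_fib_block hL (by omega) hg (by omega)
  · rw [if_neg (by rw [mem_filter]; exact fun h => h1 h.2), if_neg h1, card_singleton]

/-- `p` and `bl p` have the same region, `k` is different from both; the number of elements with
`rt < t` and the condition on the regions are the same for `{p, k}` and `{bl p, k}`, and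
`{p, k} ∈ C1` iff `rt k = t` iff `{bl p, k} ∈ C1`. -/
theorem wC_symm {m b A l s : ℕ} {rt : V → ℕ} {bl : V → V} (hL : Lay rt bl A m l s) {t : ℕ}
    (ht : t < A) {p k : V} (hp : rt p = t) (hk : k ∈ Gr (gam rt bl t))
    (hne : gam rt bl (t + 1) k ≠ gam rt bl (t + 1) p) :
    wC (1 + (b : ℝ) / m) (C1 rt bl t) (wt m b rt t) {p, k} =
      wC (1 + (b : ℝ) / m) (C1 rt bl t) (wt m b rt t) {gam rt bl (t + 1) p, k} := by
  have h1 : p ≠ k := by
    rintro rfl
    exact hne rfl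
  have h2 : gam rt bl (t + 1) p ≠ k := by
    rintro rfl
    exact hne (gam_idem hL (t + 1) p)
  rw [sg_wC_pair m b rt bl t h1, sg_wC_pair m b rt bl t h2, rt_gam hL (t + 1) p]

/-- `{p, p'} ∈ C1` and `wt {p, p'} = 1`. -/
theorem wC_in {m b A l s : ℕ} {rt : V → ℕ} {bl : V → V} (hL : Lay rt bl A m l s) {t : ℕ}
    (ht : t < A) {p p' : V} (hp : rt p = t) (hp' : rt p' = t) (hne : p ≠ p') :
    wC (1 + (b : ℝ) / m) (C1 rt bl t) (wt m b rt t) {p, p'} = 1 + (b : ℝ) / m := by
  rw [sg_wC_pair m b rt bl t hne, if_pos ⟨hp, hp'⟩]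

/-- The weight of a new block: `y = 2 Y1 / nn t` on the fibre, all pairs have weight `1 + b / m`,
`nn t ^ (m - 1) * (2 Y1 / nn t) ^ m = (2 Y1) ^ m / nn t`,
`(1 + b / m) ^ (m.choose 2) ≤ (1 + b) ^ (m ^ 2)`. -/
theorem block_weight {m b A l s : ℕ} (hm : 1 ≤ m) {rt : V → ℕ} {bl : V → V}
    (hL : Lay rt bl A m l s) {t : ℕ} (ht : t < A) {nn : ℕ → ℕ} (hn : 0 < nn t) {Y1 c : ℝ}
    (hY1 : 0 < Y1) (hc : 0 ≤ c) {g : V} (hg : rt g = t) (hg' : gam rt bl (t + 1) g = g) :
    c * ((nn t : ℝ) ^ (m - 1) * uu (fun g => 2 * (Y1 / nn (rt g)))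
      (wC (1 + (b : ℝ) / m) (C1 rt bl t) (wt m b rt t)) (fib (gam rt bl (t + 1)) g)) ≤
      c * ((2 * Y1) ^ m * (1 + (b : ℝ)) ^ (m ^ 2)) / nn (rt g) := by
  set F := fib (gam rt bl (t + 1)) g with hF
  have hcard : F.card = m := card_fib_block hL (by omega) (mem_Gr.2 hg') (by omega)
  have hrt : ∀ a ∈ F, rt a = t := by
    intro a ha
    rw [hF, mem_fib] at ha
    rw [← hg, ← ha, rt_gam hL (t + 1) a]
  have hb : (0 : ℝ) ≤ b := Nat.cast_nonneg b
  have hmr : (1 : ℝ) ≤ m := by exact_mod_cast hm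
  have hnr : (0 : ℝ) < nn t := by exact_mod_cast hn
  have hβ1 : (1 : ℝ) ≤ 1 + (b : ℝ) / m := by
    have : (0 : ℝ) ≤ (b : ℝ) / m := by positivity
    linarith
  have hβ2 : 1 + (b : ℝ) / m ≤ 1 + (b : ℝ) := by
    have : (b : ℝ) / m ≤ b := div_le_self hb hmr
    linarith
  have h1 : ∏ a ∈ F, (2 * (Y1 / nn (rt a)) : ℝ) = (2 * (Y1 / nn t)) ^ m := by
    rw [prod_congr rfl (fun a ha => by rw [hrt a ha]), prod_const, hcard]
  have h2 : ∏ e ∈ F.powersetCard 2, wC (1 + (b : ℝ) / m) (C1 rt bl t) (wt m b rt t) e =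
      (1 + (b : ℝ) / m) ^ (m.choose 2) := by
    rw [prod_congr rfl (g := fun _ => 1 + (b : ℝ) / m), prod_const, card_powersetCard, hcard]
    intro e he
    rw [mem_powersetCard] at he
    obtain ⟨x, y, hxy, rfl⟩ := card_eq_two.1 he.2
    exact wC_in hL ht (hrt x (he.1 (by simp))) (hrt y (he.1 (by simp))) hxy
  have h3 : (1 + (b : ℝ) / m) ^ (m.choose 2) ≤ (1 + (b : ℝ)) ^ (m ^ 2) := by
    refine (pow_le_pow_left₀ (by linarith) hβ2 _).trans ?_
    exact pow_le_pow_right₀ (by linarith) (Nat.choose_le_pow m 2)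
  have h4 : (nn t : ℝ) ^ (m - 1) * (2 * (Y1 / nn t)) ^ m = (2 * Y1) ^ m / nn t := by
    obtain ⟨k, rfl⟩ : ∃ k, m = k + 1 := ⟨m - 1, by omega⟩
    have h5 : 2 * (Y1 / (nn t : ℝ)) = (2 * Y1) / nn t := by ring
    rw [Nat.add_sub_cancel, h5, div_pow, mul_div_assoc',
      div_eq_div_iff (pow_pos hnr _).ne' hnr.ne']
    ring
  unfold uu
  rw [h1, h2, hg, mul_div_assoc]
  apply mul_le_mul_of_nonneg_left _ hc
  calc (nn t : ℝ) ^ (m - 1) * ((2 * (Y1 / nn t)) ^ m * (1 + (b : ℝ) / m) ^ (m.choose 2))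
      = (2 * Y1) ^ m / nn t * (1 + (b : ℝ) / m) ^ (m.choose 2) := by
        rw [← mul_assoc, h4]
    _ ≤ (2 * Y1) ^ m / nn t * (1 + (b : ℝ)) ^ (m ^ 2) :=
        mul_le_mul_of_nonneg_left h3 (by positivity)
    _ = (2 * Y1) ^ m * (1 + (b : ℝ)) ^ (m ^ 2) / nn t := by ring

/-- The new weights of the pairs.  Cases for `(rt g, rt k)`: both `< t`: `lf = {g}`, `{k}`, both sides
`wt t {g, k} = wt (t + 1) {g, k}`; `< t` and `= t`: `(1 + b) ^ m`; `< t` and `> t`: `1 + b`;
both `= t`: `((1 + b / m) ^ m) ^ m = (1 + b / m) ^ (m ^ 2)`; `= t` and `> t`: the left side is `1`;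
both `> t`: `1`.  (`lf = fib (gam (t + 1)) g` has `m` elements, all with `rt = t`, for `rt g = t`.) -/
theorem pair_weight {m b A l s : ℕ} (hm : 1 ≤ m) {rt : V → ℕ} {bl : V → V}
    (hL : Lay rt bl A m l s) {t : ℕ} (ht : t < A) {g k : V}
    (hg : g ∈ Gr (gam rt bl (t + 1))) (hk : k ∈ Gr (gam rt bl (t + 1))) (hgk : g ≠ k) :
    ∏ a ∈ lf (gam rt bl (t + 1)) (univ.filter (fun p => rt p = t)) g,
      ∏ a' ∈ lf (gam rt bl (t + 1)) (univ.filter (fun p => rt p = t)) k,
        wC (1 + (b : ℝ) / m) (C1 rt bl t) (wt m b rt t) {a, a'} ≤ w2 m b rt bl t {g, k} := by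
  have hval : ∀ a ∈ lf (gam rt bl (t + 1)) (univ.filter (fun p => rt p = t)) g,
      ∀ a' ∈ lf (gam rt bl (t + 1)) (univ.filter (fun p => rt p = t)) k,
        wC (1 + (b : ℝ) / m) (C1 rt bl t) (wt m b rt t) {a, a'} =
          if rt g = t ∧ rt k = t then 1 + (b : ℝ) / m else sgW m b t (rt g) (rt k) := by
    intro a ha a' ha'
    obtain ⟨h1, h2, _⟩ := sg_lf hL ht hg ha
    obtain ⟨h3, h4, _⟩ := sg_lf hL ht hk ha'
    have hne : a ≠ a' := by
      rintro rfl
      exact hgk (h2.symm.trans h4)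
    rw [sg_wC_pair m b rt bl t hne, h1, h3]
  rw [prod_congr rfl (fun a ha => prod_congr rfl (fun a' ha' => hval a ha a' ha'))]
  rw [prod_const, prod_const, sg_card_lf hL ht hg, sg_card_lf hL ht hk]
  have hC3 : {g, k} ∈ C3 rt bl t ↔ ((rt g = t ∨ rt k = t) ∧ (t < rt g ∨ t < rt k)) := by
    unfold C3
    rw [mem_filter, mem_powersetCard]
    have hs : ({g, k} : Finset V) ⊆ Gr (gam rt bl (t + 1)) := by
      intro x hx
      rw [mem_insert, mem_singleton] at hx
      rcases hx with rfl | rfl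
      · exact hg
      · exact hk
    simp [hs, card_pair hgk]
  unfold w2
  rw [sg_wt_pair m b rt (t + 1) hgk]
  apply le_of_eq
  unfold sgW
  rcases lt_trichotomy (rt g) t with h1 | h1 | h1 <;>
    rcases lt_trichotomy (rt k) t with h2 | h2 | h2
  · rw [if_neg (show ({g, k} : Finset V) ∉ C3 rt bl t by rw [hC3]; omega)]
    rw [if_neg (by omega : ¬ (rt g = t ∧ rt k = t)), if_pos h1, if_pos h2,
      if_neg (by omega : ¬ rt g = t), if_neg (by omega : ¬ rt k = t), pow_one, pow_one,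
      if_pos (by omega : rt g < t + 1), if_pos (by omega : rt k < t + 1)]
  · rw [if_neg (show ({g, k} : Finset V) ∉ C3 rt bl t by rw [hC3]; omega)]
    rw [if_neg (by omega : ¬ (rt g = t ∧ rt k = t)), if_pos h1, if_neg (by omega : ¬ rt k < t),
      if_neg (by omega : ¬ rt g = t), if_pos h2, pow_one,
      if_pos (by omega : rt g < t + 1), if_pos (by omega : rt k < t + 1),
      if_neg (by omega : ¬ rt g = rt k)]
  · rw [if_neg (show ({g, k} : Finset V) ∉ C3 rt bl t by rw [hC3]; omega)]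
    rw [if_neg (by omega : ¬ (rt g = t ∧ rt k = t)), if_pos h1, if_neg (by omega : ¬ rt k < t),
      if_neg (by omega : ¬ rt g = t), if_neg (by omega : ¬ rt k = t), pow_one, pow_one,
      if_pos (by omega : rt g < t + 1), if_neg (by omega : ¬ rt k < t + 1)]
  · rw [if_neg (show ({g, k} : Finset V) ∉ C3 rt bl t by rw [hC3]; omega)]
    rw [if_neg (by omega : ¬ (rt g = t ∧ rt k = t)), if_neg (by omega : ¬ rt g < t), if_pos h2,
      if_pos h1, if_neg (by omega : ¬ rt k = t), pow_one,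
      if_pos (by omega : rt g < t + 1), if_pos (by omega : rt k < t + 1),
      if_neg (by omega : ¬ rt g = rt k)]
  · rw [if_neg (show ({g, k} : Finset V) ∉ C3 rt bl t by rw [hC3]; omega)]
    rw [if_pos (⟨h1, h2⟩ : rt g = t ∧ rt k = t), if_pos h1, if_pos h2, ← pow_mul,
      if_pos (by omega : rt g < t + 1), if_pos (by omega : rt k < t + 1),
      if_pos (by omega : rt g = rt k), sq]
  · rw [if_pos (show ({g, k} : Finset V) ∈ C3 rt bl t by rw [hC3]; omega)]
    rw [if_neg (by omega : ¬ (rt g = t ∧ rt k = t)), if_neg (by omega : ¬ rt g < t),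
      if_neg (by omega : ¬ rt k < t), one_pow, one_pow]
  · rw [if_neg (show ({g, k} : Finset V) ∉ C3 rt bl t by rw [hC3]; omega)]
    rw [if_neg (by omega : ¬ (rt g = t ∧ rt k = t)), if_neg (by omega : ¬ rt g < t), if_pos h2,
      if_neg (by omega : ¬ rt g = t), if_neg (by omega : ¬ rt k = t), pow_one, pow_one,
      if_neg (by omega : ¬ rt g < t + 1), if_pos (by omega : rt k < t + 1)]
  · rw [if_pos (show ({g, k} : Finset V) ∈ C3 rt bl t by rw [hC3]; omega)]
    rw [if_neg (by omega : ¬ (rt g = t ∧ rt k = t)), if_neg (by omega : ¬ rt g < t),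
      if_neg (by omega : ¬ rt k < t), one_pow, one_pow]
  · rw [if_neg (show ({g, k} : Finset V) ∉ C3 rt bl t by rw [hC3]; omega)]
    rw [if_neg (by omega : ¬ (rt g = t ∧ rt k = t)), if_neg (by omega : ¬ rt g < t),
      if_neg (by omega : ¬ rt k < t), one_pow, one_pow,
      if_neg (by omega : ¬ rt g < t + 1), if_neg (by omega : ¬ rt k < t + 1)]

/-- The processed pairs.  If `rt g < t` or `rt k < t` then `{a, a'} ∈ Prt t`; otherwise one of them is
`t` (`Prt (t + 1)`) and the other not `> t` (not in `C3`), so both are `t` and `{a, a'} ∈ C1 t`.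
(`a ≠ a'` since `lf g`, `lf k` are disjoint; `a`, `a' ∈ Gr (gam t)`: `Glue.lift_sub`.) -/
theorem pair_proc {m A l s : ℕ} {rt : V → ℕ} {bl : V → V}
    (hL : Lay rt bl A m l s) {t : ℕ} (ht : t < A) {g k : V}
    (hg : g ∈ Gr (gam rt bl (t + 1))) (hk : k ∈ Gr (gam rt bl (t + 1))) (hgk : g ≠ k)
    (hP : {g, k} ∈ P2 rt bl t) :
    ∀ a ∈ lf (gam rt bl (t + 1)) (univ.filter (fun p => rt p = t)) g,
      ∀ a' ∈ lf (gam rt bl (t + 1)) (univ.filter (fun p => rt p = t)) k,
        {a, a'} ∈ Prt rt bl t ∪ C1 rt bl t := by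
  intro a ha a' ha'
  obtain ⟨h1, h2, h3⟩ := sg_lf hL ht hg ha
  obtain ⟨h4, h5, h6⟩ := sg_lf hL ht hk ha'
  have hne : a ≠ a' := by
    rintro rfl
    exact hgk (h2.symm.trans h5)
  unfold P2 at hP
  rw [mem_sdiff] at hP
  obtain ⟨hP1, hP2⟩ := hP
  have hs : ({g, k} : Finset V) ⊆ Gr (gam rt bl (t + 1)) := by
    intro x hx
    rw [mem_insert, mem_singleton] at hx
    rcases hx with rfl | rfl
    · exact hg
    · exact hk
  have hq1 : rt g < t + 1 ∨ rt k < t + 1 := by
    unfold Prt at hP1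
    rw [mem_filter] at hP1
    obtain ⟨x, hx, hx'⟩ := hP1.2
    rw [mem_insert, mem_singleton] at hx
    rcases hx with rfl | rfl
    · exact Or.inl hx'
    · exact Or.inr hx'
  have hq2 : ¬ ((rt g = t ∨ rt k = t) ∧ (t < rt g ∨ t < rt k)) := by
    rintro ⟨h7, h8⟩
    apply hP2
    unfold C3
    rw [mem_filter, mem_powersetCard]
    simpa [hs, card_pair hgk] using And.intro h7 h8
  rw [mem_union]
  by_cases hlt : rt g < t ∨ rt k < t
  · left
    unfold Prt
    rw [mem_filter, mem_powersetCard]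
    refine ⟨⟨?_, card_pair hne⟩, ?_⟩
    · intro x hx
      rw [mem_insert, mem_singleton] at hx
      rcases hx with rfl | rfl
      · exact h3
      · exact h6
    · rcases hlt with h7 | h7
      · exact ⟨a, by simp, by omega⟩
      · exact ⟨a', by simp, by omega⟩
  · right
    rw [sg_mem_C1 hne]
    omega

/-- **Birth of the region `t`.**
Proof: `birth_step` with `γ = gam t`, `γ' = gam (t + 1)`, `S = {rt = t}` (`glue_gam`), `n = nn t`,
`c = 16 q`, `ω = 1 + b / m`, `w' = w2`, `Pr' = P2`, `y' g = Y2 / nn (rt g)`;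
`wC_symm`, `wC_in`, `block_weight`, `pair_weight`, `pair_proc`, `card_Rp_le`, `Glue.card_S`;
`hy2`: `2 Y1 ≤ (2 Y1) ^ m (1 + b) ^ (m ^ 2)` because `1 ≤ Y1`. -/
theorem birth_t {m b A l s : ℕ} (hm : 1 ≤ m) {rt : V → ℕ} {bl : V → V}
    (hL : Lay rt bl A m l s) {nn : ℕ → ℕ} {ρ Λ δ : ℝ}
    (hN : Nums N A m b l (Fintype.card V) nn ρ Λ δ)
    {U : V → Finset (Fin N)} (hUc : ∀ p, (U p).card = nn (rt p)) {t : ℕ} (ht : t < A)
    {Y1 Y2 : ℝ} (hY1 : 1 ≤ Y1)
    (hY2 : Y2 = 16 * (Fintype.card V : ℝ) * ((2 * Y1) ^ m * (1 + (b : ℝ)) ^ (m ^ 2)))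
    {M B : Finset (Sym2 (Fin N))}
    (h : Inv U (gam rt bl t) (fun g => 2 * (Y1 / nn (rt g)))
      (wC (1 + (b : ℝ) / m) (C1 rt bl t) (wt m b rt t)) ρ (Prt rt bl t ∪ C1 rt bl t) M B) :
    Inv U (gam rt bl (t + 1)) (fun g => Y2 / nn (rt g)) (w2 m b rt bl t) ρ (P2 rt bl t) M B := by
  obtain ⟨T, F, hT, hu, hS⟩ := h
  have htA : t ≤ A := ht.le
  have hb : (0 : ℝ) ≤ b := Nat.cast_nonneg b
  have hβ1 : (1 : ℝ) ≤ 1 + (b : ℝ) / m := by
    have : (0 : ℝ) ≤ (b : ℝ) / m := by positivity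
    linarith
  have hb1 : (1 : ℝ) ≤ 1 + (b : ℝ) := by linarith
  have hwt : ∀ t' e, 1 ≤ wt m b rt t' e := by
    intro t' e
    unfold wt
    split_ifs
    · exact le_refl _
    · exact hb1
    · exact one_le_pow₀ hβ1
    · exact one_le_pow₀ hb1
  have hnn : ∀ g, (0 : ℝ) < nn (rt g) := by
    intro g
    have h1 := hN.four (rt g) (hL.rt_le g)
    have h2 : (4 : ℝ) ≤ nn (rt g) := by exact_mod_cast h1
    linarith
  have hq1 : (1 : ℝ) ≤ (Fintype.card V : ℝ) := by exact_mod_cast hN.q1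
  have hP1 : (2 * Y1) ≤ (2 * Y1) ^ m := le_self_pow₀ (by linarith) (by omega)
  have hP2 : (1 : ℝ) ≤ (1 + (b : ℝ)) ^ (m ^ 2) := one_le_pow₀ hb1
  have hP3 : 2 * Y1 ≤ (2 * Y1) ^ m * (1 + (b : ℝ)) ^ (m ^ 2) :=
    hP1.trans (le_mul_of_one_le_right (by positivity) hP2)
  have hY20 : 0 < Y2 := by
    rw [hY2]
    have : 0 < (2 * Y1) ^ m * (1 + (b : ℝ)) ^ (m ^ 2) := by linarith
    positivity
  have hc0 : (0 : ℝ) ≤ 16 * (Fintype.card V : ℝ) := by positivity
  have hmemS : ∀ p, p ∈ univ.filter (fun p => rt p = t) ↔ rt p = t := by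
    intro p
    rw [mem_filter]
    exact ⟨fun h => h.2, fun h => ⟨mem_univ _, h⟩⟩
  have hglue := glue_gam hL ht
  have hRp := card_Rp_le hL ht
  have hRp' : ((Rp (gam rt bl (t + 1)) (univ.filter (fun p => rt p = t))).card : ℝ) ≤ l := by
    exact_mod_cast hRp
  have key := birth_step (n := nn t) (y' := fun g => Y2 / nn (rt g)) (w' := w2 m b rt bl t)
    (ω := 1 + (b : ℝ) / m) (c := 16 * (Fintype.card V : ℝ)) (Pr' := P2 rt bl t) hm hglue
    (by
      intro p hp
      rw [hUc p, (hmemS p).1 hp])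
    (y := fun g => 2 * (Y1 / nn (rt g)))
    (w := wC (1 + (b : ℝ) / m) (C1 rt bl t) (wt m b rt t))
    (fun g => by
      have := hnn g
      have : 0 < Y1 / nn (rt g) := div_pos (by linarith) this
      linarith)
    (fun e => one_le_wC hβ1 _ (hwt t) e)
    (fun g => div_pos hY20 (hnn g))
    (fun e => by
      unfold w2
      split_ifs
      · exact le_refl _
      · exact hwt (t + 1) e)
    hN.rho1 (hN.rho_le t htA) (hN.four t htA)
    (by
      have := hN.l_le
      linarith)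
    (by
      rw [hglue.card_S]
      refine le_trans ?_ (hN.ml_le t htA)
      exact Nat.mul_le_mul_left 2 (Nat.mul_le_mul_left m hRp))
    (by
      have h1 : (Gr (gam rt bl t)).card ≤ Fintype.card V := card_le_univ _
      have h2 : ((Gr (gam rt bl t)).card : ℝ) ≤ Fintype.card V := by exact_mod_cast h1
      linarith)
    (by linarith) hT
    (by
      have h1 : 0 < Fintype.card V := hN.q1
      obtain ⟨p⟩ := Fintype.card_pos_iff.1 h1
      exact ⟨gam rt bl (t + 1) p, mem_Gr.2 (gam_idem hL (t + 1) p)⟩)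
    (by
      intro p _
      rw [rt_gam hL (t + 1) p])
    (fun p hp k hk hne => wC_symm hL ht ((hmemS p).1 hp) hk hne)
    (fun p hp p' hp' hne _ => wC_in hL ht ((hmemS p).1 hp) ((hmemS p').1 hp') hne)
    (by
      intro g hg hg'
      have h1 := block_weight (b := b) hm hL ht (nn := nn)
        (by have := hN.four t htA; omega) (Y1 := Y1) (by linarith) hc0 ((hmemS g).1 hg) hg'
      rw [← hY2] at h1
      exact h1)
    (by
      intro g _ _
      rw [le_div_iff₀ (hnn g)]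
      have h1 : 16 * (Fintype.card V : ℝ) * (2 * (Y1 / nn (rt g))) * nn (rt g) =
          16 * (Fintype.card V : ℝ) * (2 * Y1) := by
        have := (hnn g).ne'
        field_simp
      rw [h1, hY2]
      exact mul_le_mul_of_nonneg_left hP3 hc0)
    (fun g hg k hk hgk => pair_weight hm hL ht hg hk hgk)
    (by
      intro p hp p' hp' hne _
      rw [mem_union]
      right
      exact (sg_mem_C1 hne).2 ⟨(hmemS p).1 hp, (hmemS p').1 hp'⟩)
    (fun g hg k hk hgk hP => pair_proc hL ht hg hk hgk hP)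
    hu hS
  obtain ⟨⟨F', hF'⟩, hu'⟩ := key
  refine ⟨_, F', ?_, hu', hF'⟩
  have h4 : (0 : ℝ) < nn t := by
    have h1 := hN.four t htA
    have h2 : (4 : ℝ) ≤ nn t := by exact_mod_cast h1
    linarith
  positivity

end Pool.Agent.Helper78.CP
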