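import Pool.Agent.Helper78.CP.SG4
import Pool.Agent.Helper78.CP.SG5

set_option autoImplicit false

/-! Module SG-6: the phase between the blocks of the region `t` and the later positions. -/

namespace Pool.Agent.Helper78.CP

open Finset Pool.Agent.Helper25.CliqueGame Pool.Agent.Helper78.CH

variable {N : ℕ} {V : Type*} [Fintype V] [DecidableEq V]

/-- For `e ∈ C3` we have `kk rt (t + 1) e = 1`, so `wt (t + 1) e = 1 + b`; hence
`wC (1 + b) C3 w2 = wt (t + 1)` everywhere. -/
theorem wC_C3_eq {m b : ℕ} {rt : V → ℕ} {bl : V → V} {t : ℕ} (e : Finset V) :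
    wC (1 + (b : ℝ)) (C3 rt bl t) (w2 m b rt bl t) e = wt m b rt (t + 1) e := by
  classical
  unfold wC w2
  by_cases he : e ∈ C3 rt bl t
  · rw [if_pos he, if_pos he, mul_one]
    unfold C3 at he
    obtain ⟨h1, ⟨g, hg, hgt⟩, h, hh, hht⟩ := mem_filter.1 he
    have h2 := (mem_powersetCard.1 h1).2
    have hgh : g ≠ h := by
      rintro rfl
      omega
    have hee : e = {g, h} := by
      symm
      apply eq_of_subset_of_card_le
      · intro x hx
        rw [mem_insert, mem_singleton] at hx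
        rcases hx with rfl | rfl
        · exact hg
        · exact hh
      · rw [h2, card_pair hgh]
    have hkk : kk rt (t + 1) e = 1 := by
      unfold kk
      rw [card_eq_one]
      refine ⟨g, ?_⟩
      ext x
      rw [mem_filter, mem_singleton, hee, mem_insert, mem_singleton]
      constructor
      · rintro ⟨rfl | rfl, hx⟩
        · rfl
        · omega
      · rintro rfl
        exact ⟨Or.inl rfl, by omega⟩
    unfold wt
    rw [hkk]
    simp
  · rw [if_neg he, if_neg he]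

/-- `wt ≤ wh`. -/
theorem wt_le_wh (m b : ℕ) (rt : V → ℕ) (t : ℕ) (e : Finset V) :
    wt m b rt t e ≤ wh m b rt t e := by
  classical
  have hb : (0 : ℝ) ≤ b := Nat.cast_nonneg b
  have hbm : (0 : ℝ) ≤ (b : ℝ) / m := div_nonneg hb (Nat.cast_nonneg m)
  unfold wh
  by_cases hkk : kk rt t e = 0
  · rw [if_pos hkk]
    unfold wt
    rw [if_pos hkk]
    split_ifs
    · linarith
    · exact le_rfl
  · rw [if_neg hkk]

/-- **Phase (t, >).**
Proof: `phase_inv` with `r = 1`, `β = 1 + b`, `γ = gam (t + 1)`, `Y`, `W` as in `phase_tt`,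
`c2 = Y ^ 2 * W / (nn t * nn (t + 1))`, `c3 = δ`, `co = Y ^ 2 * W / nn (t + 1) ^ 2`,
`E = q ^ 2 * (nn t * N)`.
`hrm`: one group is a block (`card_fib_block`), the other is single (`card_fib_single`).
`h2`: the product is `nn t * nn (rt h)` with `rt h ≥ t + 1`.  `ho`: `e ∉ Prt (t + 1)`, so all regions
are `≥ t + 1`.  `hmax`, `hE`, `hloss` as in `phase_tt` (`n4`, `n2`, `n5`).
The weights and the processed pairs after the phase are at most `wt (t + 1)`, `Prt (t + 1)`
(`wC_C3_eq`, `Inv.mono`, `P2 ∪ C3 ⊇ Prt (t + 1)`). -/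
theorem phase_gt {m b A l s : ℕ} (hm : 1 ≤ m) {rt : V → ℕ} {bl : V → V}
    (hL : Lay rt bl A m l s) {nn : ℕ → ℕ} {ρ Λ δ : ℝ}
    (hN : Nums N A m b l (Fintype.card V) nn ρ Λ δ)
    (hSM : SM m b A rt bl (Ys (Fintype.card V) m b (A + 1)) nn ρ δ)
    {U : V → Finset (Fin N)} (hU : ∀ p p', p ≠ p' → Disjoint (U p) (U p'))
    (hUc : ∀ p, (U p).card = nn (rt p)) {t : ℕ} (ht : t < A) {Y2 : ℝ} (hY2 : 0 < Y2)
    (h2Y : 2 * Y2 ≤ Ys (Fintype.card V) m b (A + 1)) {M B : Finset (Sym2 (Fin N))}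
    (h : Inv U (gam rt bl (t + 1)) (fun g => Y2 / nn (rt g)) (w2 m b rt bl t) ρ
      (P2 rt bl t) M B) :
    Reach (edges N) m b (fun M' B' => Inv U (gam rt bl (t + 1)) (fun g => 2 * Y2 / nn (rt g))
      (wt m b rt (t + 1)) ρ (Prt rt bl (t + 1)) M' B') M B := by
  classical
  have hm1 : (1 : ℝ) ≤ m := by exact_mod_cast hm
  have hm0 : (0 : ℝ) < m := by linarith
  have hb : (0 : ℝ) ≤ b := Nat.cast_nonneg b
  have hbm : (0 : ℝ) ≤ (b : ℝ) / m := div_nonneg hb hm0.le
  have hq1 := hN.q1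
  have ht1 : t + 1 ≤ A := ht
  set Y : ℝ := Ys (Fintype.card V) m b (A + 1) with hYd
  have hY1 : 1 ≤ Y := one_le_Ys hq1 _
  have hY0 : 0 < Y := by linarith
  set W : ℝ := (1 + (b : ℝ)) ^ (m ^ 2) with hWd
  have hW1 : 1 ≤ W := one_le_pow₀ (by linarith)
  have hW0 : 0 < W := by linarith
  have hnpos : ∀ a ≤ A, (0 : ℝ) < nn a := by
    intro a ha
    have := hN.four a ha
    exact_mod_cast (by omega : 0 < nn a)
  have hnt : (0 : ℝ) < nn t := hnpos t (by omega)
  have hnt1 : (0 : ℝ) < nn (t + 1) := hnpos (t + 1) ht1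
  have hρ0 : (0 : ℝ) < ρ := by
    have := hN.rho1
    linarith
  have hk0 : 0 ≤ kst m b := by
    unfold kst
    positivity
  have hβ1 : (1 : ℝ) ≤ 1 + (b : ℝ) := by linarith
  have hN2 := hN.N2 hm
  have hnn : ∀ a ≤ A, 1 ≤ nn a ∧ nn a ≤ N := by
    intro a ha
    have := hN.four a ha
    exact ⟨by omega, hN.le_N a ha⟩
  have hwCe : ∀ e, wC (1 + (b : ℝ)) (C3 rt bl t) (w2 m b rt bl t) e = wt m b rt (t + 1) e :=
    fun e => wC_C3_eq e
  have hw2 : ∀ e, 1 ≤ w2 m b rt bl t e := by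
    intro e
    unfold w2
    split_ifs
    · exact le_rfl
    · exact one_le_wt m b rt (t + 1) e
  have hy0 : ∀ g, 0 < 2 * (Y2 / (nn (rt g) : ℝ)) := by
    intro g
    have := hnpos _ (hL.rt_le g)
    positivity
  have hyY : ∀ g ∈ Gr (gam rt bl (t + 1)), 2 * (Y2 / (nn (rt g) : ℝ)) ≤ Y / nn (rt g) := by
    intro g _
    have h1 := hnpos _ (hL.rt_le g)
    rw [← mul_div_assoc]
    exact div_le_div_of_nonneg_right h2Y h1.le
  have hw0 : ∀ e, 1 ≤ wC (1 + (b : ℝ)) (C3 rt bl t) (w2 m b rt bl t) e :=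
    one_le_wC hβ1 _ hw2
  have hwh : ∀ e ∈ (Gr (gam rt bl (t + 1))).powersetCard 2,
      wC (1 + (b : ℝ)) (C3 rt bl t) (w2 m b rt bl t) e ≤ wh m b rt (t + 1) e := by
    intro e _
    rw [hwCe]
    exact wt_le_wh m b rt (t + 1) e
  have hpair : ∀ e ⊆ Gr (gam rt bl (t + 1)), e.card = 2 →
      env (gam rt bl (t + 1)) (fun g => 2 * (Y2 / (nn (rt g) : ℝ)))
        (wC (1 + (b : ℝ)) (C3 rt bl t) (w2 m b rt bl t)) ρ e ≤
        Y ^ 2 * W / ∏ g ∈ e, (nn (rt g) : ℝ) := by
    intro e he h2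
    exact env_pair (N := N) hm hL hN.rho1 hY1 hN2 hnn hSM ht1 hy0 hw0 hyY hwh he h2
  have hthree : ∀ D ⊆ Gr (gam rt bl (t + 1)), 3 ≤ D.card →
      env (gam rt bl (t + 1)) (fun g => 2 * (Y2 / (nn (rt g) : ℝ)))
        (wC (1 + (b : ℝ)) (C3 rt bl t) (w2 m b rt bl t)) ρ D ≤ δ := by
    intro D hD h3
    exact env_three hL hN.rho1 hSM ht1 hy0 hw0 hyY hwh hD h3
  -- the pairs in `C3`
  have hC3 : ∀ e ∈ C3 rt bl t, e ⊆ Gr (gam rt bl (t + 1)) ∧
      ∃ g k, g ≠ k ∧ e = {g, k} ∧ rt g = t ∧ t < rt k := by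
    intro e he
    unfold C3 at he
    obtain ⟨h1, ⟨g, hg, hgt⟩, k, hk, hkt⟩ := mem_filter.1 he
    obtain ⟨h3, h4⟩ := mem_powersetCard.1 h1
    have hgk : g ≠ k := by
      rintro rfl
      omega
    refine ⟨h3, g, k, hgk, ?_, hgt, hkt⟩
    symm
    apply eq_of_subset_of_card_le
    · intro x hx
      rw [mem_insert, mem_singleton] at hx
      rcases hx with rfl | rfl
      · exact hg
      · exact hk
    · rw [h4, card_pair hgk]
  have hYW0 : 0 < Y ^ 2 * W := by positivity
  have hYWn0 : Y ^ 2 * W ≤ nn 0 := hN.n6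
  have hphase := phase_inv (N := N) (m := m) (b := b) (r := 1) le_rfl hU (gam_idem hL (t + 1))
    (y := fun g => Y2 / (nn (rt g) : ℝ)) (w := w2 m b rt bl t)
    (fun g => by
      have := hnpos _ (hL.rt_le g)
      positivity) hw2
    (ρ := ρ) (Λ := Λ) (β := 1 + (b : ℝ)) (c2 := Y ^ 2 * W / ((nn t : ℝ) * nn (t + 1))) (c3 := δ)
    (co := Y ^ 2 * W / (nn (t + 1) : ℝ) ^ 2)
    (E := (Fintype.card V : ℝ) ^ 2 * ((nn t : ℝ) * N)) (Pr := P2 rt bl t) (C := C3 rt bl t)
    (by simp)
    (fun e he => by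
      obtain ⟨h1, g, k, hgk, rfl, _, _⟩ := hC3 e he
      exact ⟨card_pair hgk, h1⟩)
    (by
      intro g k hgk
      obtain ⟨hsub, g', k', hgk', he, hg't, hk't⟩ := hC3 _ hgk
      have hgG : g ∈ Gr (gam rt bl (t + 1)) := hsub (by simp)
      have hkG : k ∈ Gr (gam rt bl (t + 1)) := hsub (by simp)
      have hg'm : g' ∈ ({g, k} : Finset V) := by
        rw [he]
        simp
      have hk'm : k' ∈ ({g, k} : Finset V) := by
        rw [he]
        simp
      rw [mem_insert, mem_singleton] at hg'm hk'm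
      rw [one_mul]
      rcases hg'm with rfl | rfl
      · rcases hk'm with rfl | rfl
        · exact absurd rfl hgk'
        · rw [card_fib_block hL ht1 hgG (by omega), card_fib_single hL (by omega), mul_one]
      · rcases hk'm with rfl | rfl
        · rw [card_fib_block hL ht1 hkG (by omega), card_fib_single hL (by omega), one_mul]
        · exact absurd rfl hgk')
    (by
      have hne : Nonempty V := Fintype.card_pos_iff.1 hq1
      obtain ⟨p⟩ := hne
      exact card_pos.2 ⟨gam rt bl (t + 1) p, mem_Gr.2 (gam_idem hL (t + 1) p)⟩)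
    hN.lam1
    (by
      have h1 := hN.lam_rho
      have h2 := hN.lam1
      have h3 : (1 + (b : ℝ)) * Λ ≤ ((m : ℝ) + b) * Λ :=
        mul_le_mul_of_nonneg_right (by linarith) (by linarith)
      push_cast
      linarith)
    (by positivity) hN.d0 (by positivity)
    (by
      intro e he
      obtain ⟨hsub, g, k, hgk, rfl, hgt, hkt⟩ := hC3 e he
      refine (hpair _ hsub (card_pair hgk)).trans ?_
      rw [Finset.prod_pair hgk, hgt]
      have h3 : (nn (t + 1) : ℝ) ≤ nn (rt k) := by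
        exact_mod_cast hN.mono' hkt (by have := hL.rt_le k; omega)
      exact div_le_div_of_nonneg_left hYW0.le (by positivity)
        (mul_le_mul_of_nonneg_left h3 hnt.le))
    hthree
    (by
      intro e he h2 hnC hnP
      refine (hpair e he h2).trans ?_
      have hge : ∀ g ∈ e, t + 1 ≤ rt g := by
        intro g hg
        by_contra hlt
        push Not at hlt
        apply hnP
        unfold P2 Prt
        exact mem_sdiff.2 ⟨mem_filter.2 ⟨mem_powersetCard.2 ⟨he, h2⟩, g, hg, hlt⟩, hnC⟩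
      obtain ⟨g, k, hgk, rfl⟩ := card_eq_two.1 h2
      rw [Finset.prod_pair hgk]
      have h3 : (nn (t + 1) : ℝ) ≤ nn (rt g) := by
        exact_mod_cast hN.mono' (hge g (by simp)) (by have := hL.rt_le g; omega)
      have h4 : (nn (t + 1) : ℝ) ≤ nn (rt k) := by
        exact_mod_cast hN.mono' (hge k (by simp)) (by have := hL.rt_le k; omega)
      refine div_le_div_of_nonneg_left hYW0.le (by positivity) ?_
      rw [sq]
      exact mul_le_mul h3 h4 hnt1.le (by positivity))
    (by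
      intro D hD h2
      rcases Nat.lt_or_ge D.card 3 with h3 | h3
      · have h2' : D.card = 2 := by omega
        refine (hpair D hD h2').trans ?_
        obtain ⟨g, k, hgk, rfl⟩ := card_eq_two.1 h2'
        rw [Finset.prod_pair hgk]
        have h4 : (nn 0 : ℝ) ≤ nn (rt g) := by
          exact_mod_cast hN.mono' (Nat.zero_le _) (by have := hL.rt_le g; omega)
        have h5 : (1 : ℝ) ≤ nn (rt k) := by
          exact_mod_cast (hnn _ (hL.rt_le k)).1
        have h6 := hnpos _ (hL.rt_le g)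
        rw [div_le_one (by positivity)]
        nlinarith
      · refine (hthree D hD h3).trans ?_
        have hN1 : (1 : ℝ) ≤ N := by
          have h4 := hnn t (by omega)
          exact_mod_cast h4.1.trans h4.2
        have hN1' : (1 : ℝ) ≤ (N : ℝ) ^ 2 := one_le_pow₀ hN1
        have hd0 := hN.d0
        nlinarith)
    (by
      refine sum_pairs_le (fun e he => ?_) (by positivity) ?_
      · obtain ⟨_, g, k, hgk, rfl, _, _⟩ := hC3 e he
        exact card_pair hgk
      · intro e he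
        obtain ⟨_, g, k, hgk, rfl, hgt, hkt⟩ := hC3 e he
        rw [Finset.prod_pair hgk, hUc, hUc, hgt]
        have h3 : (nn (rt k) : ℝ) ≤ N := by exact_mod_cast (hnn _ (hL.rt_le k)).2
        exact mul_le_mul_of_nonneg_left h3 hnt.le)
    (by
      have hlc := lossC_le (m := m) (b := b) (r := 1) le_rfl hm (β := 1 + (b : ℝ)) (Λ := Λ)
        (ρ := ρ) (c2 := Y ^ 2 * W / ((nn t : ℝ) * nn (t + 1))) (c3 := δ)
        (co := Y ^ 2 * W / (nn (t + 1) : ℝ) ^ 2) (by simp) (by have := hN.lam1; linarith) hρ0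
        (by positivity) hN.d0 (by positivity)
      have hN0 : (0 : ℝ) ≤ N := Nat.cast_nonneg N
      have hE0 : 0 ≤ (Fintype.card V : ℝ) ^ 2 * ((nn t : ℝ) * N) := by positivity
      refine (mul_le_mul_of_nonneg_left hlc hE0).trans ?_
      have e1 := hN.n4 t (by omega)
      have e2 := hN.n2
      have e3 := hN.n5 t (by omega)
      have hΛ1 := hN.lam1
      have f1 : kst m b * (Fintype.card V : ℝ) ^ 2 * ((1 + (b : ℝ)) * Λ * Y ^ 2 * W * N) /
          (ρ * nn (t + 1)) ≤ 1 / 24 := by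
        rw [div_le_iff₀ (by positivity)]
        linarith
      have hntN : (nn t : ℝ) ≤ N := by exact_mod_cast hN.le_N t (by omega)
      have f2 : kst m b * (Fintype.card V : ℝ) ^ 2 * ((nn t : ℝ) * N * δ) ≤ 1 / 24 := by
        have h4 : (nn t : ℝ) * N ≤ (N : ℝ) ^ 2 := by
          rw [sq]
          exact mul_le_mul_of_nonneg_right hntN hN0
        have h5 : (nn t : ℝ) * N * δ ≤ (N : ℝ) ^ 2 * δ := mul_le_mul_of_nonneg_right h4 hN.d0
        have h6 : kst m b * (Fintype.card V : ℝ) ^ 2 * ((nn t : ℝ) * N * δ) ≤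
            kst m b * (Fintype.card V : ℝ) ^ 2 * ((N : ℝ) ^ 2 * δ) :=
          mul_le_mul_of_nonneg_left h5 (by positivity)
        linarith
      have f3 : kst m b * (Fintype.card V : ℝ) ^ 2 * (Y ^ 2 * W * (nn t * N)) /
          (nn (t + 1) : ℝ) ^ 2 ≤ 1 / 24 := by
        rw [div_le_iff₀ (by positivity)]
        linarith
      have f4 : (Fintype.card V : ℝ) ^ 2 * ((nn t : ℝ) * N) *
          (kst m b * ((1 + (b : ℝ)) * Λ / ρ * (Y ^ 2 * W / ((nn t : ℝ) * nn (t + 1))) + δ +
            Y ^ 2 * W / (nn (t + 1) : ℝ) ^ 2)) =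
          kst m b * (Fintype.card V : ℝ) ^ 2 * ((1 + (b : ℝ)) * Λ * Y ^ 2 * W * N) /
            (ρ * nn (t + 1)) +
          kst m b * (Fintype.card V : ℝ) ^ 2 * ((nn t : ℝ) * N * δ) +
          kst m b * (Fintype.card V : ℝ) ^ 2 * (Y ^ 2 * W * (nn t * N)) /
            (nn (t + 1) : ℝ) ^ 2 := by
        field_simp
      rw [f4]
      linarith)
    hN.big h
  refine hphase.bind fun M' B' hG => Reach.here ?_
  refine Inv.mono (gam_idem hL (t + 1)) hρ0.le hy0 hw0 ?_ ?_ ?_ hG
  · intro g _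
    exact le_of_eq (mul_div_assoc _ _ _).symm
  · intro e _
    exact le_of_eq (hwCe e)
  · intro g _ k _ _ hgk
    by_cases h3 : ({g, k} : Finset V) ∈ C3 rt bl t
    · exact mem_union_right _ h3
    · refine mem_union_left _ ?_
      unfold P2
      exact mem_sdiff.2 ⟨hgk, h3⟩

end Pool.Agent.Helper78.CP
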