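import Pool.Agent.Helper78.CP.SG6

set_option autoImplicit false

/-! Module SG-7: start, induction over the stages, end. -/

namespace Pool.Agent.Helper78.CP

open Finset Pool.Agent.Helper25.CliqueGame Pool.Agent.Helper78.CH

variable {N : ℕ} {V : Type*} [Fintype V] [DecidableEq V]

omit [Fintype V] [DecidableEq V] in
theorem gam_zero (rt : V → ℕ) (bl : V → V) : gam rt bl 0 = id := by
  funext p
  simp [gam]

omit [Fintype V] [DecidableEq V] in
theorem wt_zero (m b : ℕ) (rt : V → ℕ) (e : Finset V) : wt m b rt 0 e = 1 := by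
  have h : kk rt 0 e = 0 := by simp [kk]
  unfold wt
  rw [if_pos h]

theorem Ys_mono {q m b : ℕ} (hq : 1 ≤ q) (hm : 1 ≤ m) {t t' : ℕ} (h : t ≤ t') :
    Ys q m b t ≤ Ys q m b t' := by
  induction t', h using Nat.le_induction with
  | base => exact le_refl _
  | succ c _ ih =>
    have h1 := two_Ys_le (b := b) hq hm c
    have h2 := one_le_Ys (m := m) (b := b) hq c
    linarith

theorem cnt_piFinset (U : V → Finset (Fin N)) {f : V → Fin N} (hf : ∀ p, f p ∈ U p)
    (D : Finset V) : cnt (Fintype.piFinset U) id f D = ∏ p, if p ∈ D then 1 else (U p).card := by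
  have h1 : (Fintype.piFinset U).filter (fun f' => ∀ p, id p ∈ D → f' p = f p) =
      Fintype.piFinset (fun p => if p ∈ D then {f p} else U p) := by
    ext f'
    simp only [mem_filter, Fintype.mem_piFinset, id]
    constructor
    · rintro ⟨h2, h3⟩ p
      by_cases hp : p ∈ D
      · rw [if_pos hp, mem_singleton]
        exact h3 p hp
      · rw [if_neg hp]
        exact h2 p
    · intro h2
      refine ⟨fun p => ?_, fun p hp => ?_⟩
      · have h3 := h2 p
        by_cases hp : p ∈ D
        · rw [if_pos hp, mem_singleton] at h3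
          rw [h3]
          exact hf p
        · rwa [if_neg hp] at h3
      · have h3 := h2 p
        rwa [if_pos hp, mem_singleton] at h3
  unfold cnt
  rw [h1, Fintype.card_piFinset]
  refine Finset.prod_congr rfl fun p _ => ?_
  split_ifs
  · exact card_singleton _
  · rfl

/-- The start.  `F = Fintype.piFinset U`, `T = ∏ p, nn (rt p)`, `gam rt bl 0 = id`, `wt .. 0 = 1`.
`uu y w D = ∏ p ∈ D, 1 / nn (rt p)`; `T * uu (Gr) = 1` (`Gr = univ`);
`cnt F γ f D = ∏ p ∉ D, nn (rt p) = T * uu D ≤ T * env D` (`le_env` with `D' = D`);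
`coh`: `γ = id`; `alive`, `disj`: `B = ∅`; `proc`: `Prt .. 0 = ∅` and `γ p = γ p'` means `p = p'`. -/
theorem start_inv {m b A l s : ℕ} {rt : V → ℕ} {bl : V → V} (hL : Lay rt bl A m l s)
    {nn : ℕ → ℕ} (hnn : ∀ a ≤ A, 1 ≤ nn a) {ρ : ℝ} (hρ : 1 ≤ ρ) {U : V → Finset (Fin N)}
    (hUc : ∀ p, (U p).card = nn (rt p)) :
    Inv U (gam rt bl 0) (fun g => Ys (Fintype.card V) m b 0 / nn (rt g)) (wt m b rt 0) ρ
      (Prt rt bl 0) ∅ ∅ := by
  classical
  have hn0 : ∀ p, (0 : ℝ) < nn (rt p) := fun p => by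
    exact_mod_cast hnn _ (hL.rt_le p)
  have huu : ∀ D : Finset V, uu (fun g => Ys (Fintype.card V) m b 0 / (nn (rt g) : ℝ))
      (wt m b rt 0) D = ∏ g ∈ D, 1 / (nn (rt g) : ℝ) := by
    intro D
    unfold uu
    rw [Finset.prod_congr rfl fun e _ => wt_zero m b rt e, Finset.prod_const_one, mul_one]
    rfl
  have hTuu : ∀ D : Finset V, (∏ p, (nn (rt p) : ℝ)) * ∏ g ∈ D, 1 / (nn (rt g) : ℝ) =
      ∏ p, if p ∈ D then (1 : ℝ) else nn (rt p) := by
    intro D
    have h1 : ∏ g ∈ D, 1 / (nn (rt g) : ℝ) =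
        ∏ p, if p ∈ D then 1 / (nn (rt p) : ℝ) else 1 := by
      rw [Finset.prod_ite_mem, Finset.univ_inter]
    rw [h1, ← Finset.prod_mul_distrib]
    refine Finset.prod_congr rfl fun p _ => ?_
    have h2 := hn0 p
    split_ifs
    · field_simp
    · rw [mul_one]
  have hPrt : Prt rt bl 0 = ∅ := by
    unfold Prt
    rw [Finset.filter_eq_empty_iff]
    rintro e _ ⟨g, _, hg⟩
    exact absurd hg (Nat.not_lt_zero _)
  rw [gam_zero, hPrt]
  refine ⟨∏ p, (nn (rt p) : ℝ), Fintype.piFinset U, Finset.prod_pos fun p _ => hn0 p, ?_, ?_⟩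
  · have hGr : Gr (id : V → V) = univ := by simp [Gr]
    rw [hGr, huu, hTuu]
    simp
  · refine ⟨?_, ?_, ?_, ?_, ?_, ?_, ?_⟩
    · intro f hf p
      exact Fintype.mem_piFinset.1 hf p
    · intro f _ f' _ p p' hp hfp
      have hpp : p = p' := hp
      rw [← hpp]
      exact hfp
    · rw [Fintype.card_piFinset]
      push_cast
      exact le_of_eq (Finset.prod_congr rfl fun p _ => by rw [hUc])
    · intro f hf D hD _
      have hf' : ∀ p, f p ∈ U p := Fintype.mem_piFinset.1 hf
      have h1 : uu (fun g => Ys (Fintype.card V) m b 0 / (nn (rt g) : ℝ)) (wt m b rt 0) D ≤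
          env id (fun g => Ys (Fintype.card V) m b 0 / (nn (rt g) : ℝ)) (wt m b rt 0) ρ D := by
        have h2 := le_env (γ := id) (y := fun g => Ys (Fintype.card V) m b 0 / (nn (rt g) : ℝ))
          (w := wt m b rt 0) (ρ := ρ) (Finset.Subset.refl D) hD
        rwa [Finset.sdiff_self, Finset.card_empty, pow_zero, mul_one] at h2
      have hT0 : 0 ≤ ∏ p, (nn (rt p) : ℝ) := Finset.prod_nonneg fun p _ => (hn0 p).le
      refine le_trans (le_of_eq ?_) (mul_le_mul_of_nonneg_left h1 hT0)
      rw [huu, hTuu, cnt_piFinset U hf' D]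
      push_cast
      refine Finset.prod_congr rfl fun p _ => ?_
      rw [hUc]
    · intro f _ p p' _
      exact Finset.notMem_empty _
    · rintro f _ p p' hne (h1 | h1)
      · exact absurd h1 hne
      · exact absurd h1 (Finset.notMem_empty _)
    · exact Finset.disjoint_empty_left _

/-- One stage: `phase_tt` with `Y1 = Ys t`, `birth_t` with `Y2`, `phase_gt`, `2 * Y2 = Ys (t + 1)`
(the definition of `Ys`), `Ys (t + 1) ≤ Ys (A + 1)` (`two_Ys_le`, `one_le_Ys`); `Reach.bind`. -/
theorem stage {m b A l s : ℕ} (hm : 1 ≤ m) {rt : V → ℕ} {bl : V → V}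
    (hL : Lay rt bl A m l s) {nn : ℕ → ℕ} {ρ Λ δ : ℝ}
    (hN : Nums N A m b l (Fintype.card V) nn ρ Λ δ)
    (hSM : SM m b A rt bl (Ys (Fintype.card V) m b (A + 1)) nn ρ δ)
    {U : V → Finset (Fin N)} (hU : ∀ p p', p ≠ p' → Disjoint (U p) (U p'))
    (hUc : ∀ p, (U p).card = nn (rt p)) {t : ℕ} (ht : t < A) {M B : Finset (Sym2 (Fin N))}
    (h : Inv U (gam rt bl t) (fun g => Ys (Fintype.card V) m b t / nn (rt g)) (wt m b rt t) ρ
      (Prt rt bl t) M B) :
    Reach (edges N) m b (fun M' B' => Inv U (gam rt bl (t + 1))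
      (fun g => Ys (Fintype.card V) m b (t + 1) / nn (rt g))
      (wt m b rt (t + 1)) ρ (Prt rt bl (t + 1)) M' B') M B := by
  have hq := hN.q1
  have hY1 : 1 ≤ Ys (Fintype.card V) m b t := one_le_Ys hq t
  have hY2 : (1 : ℝ) ≤ Ys (Fintype.card V) m b (t + 1) := one_le_Ys hq (t + 1)
  have h2Y : 2 * Ys (Fintype.card V) m b t ≤ Ys (Fintype.card V) m b (A + 1) :=
    (two_Ys_le hq hm t).trans (Ys_mono hq hm (by omega))
  refine (phase_tt hm hL hN hSM hU hUc ht.le (by linarith) h2Y h).bind fun M' B' h' => ?_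
  have h3 := birth_t hm hL hN hUc ht hY1 rfl h'
  have hYs : Ys (Fintype.card V) m b (t + 1) = 2 * (16 * (Fintype.card V : ℝ) *
      ((2 * Ys (Fintype.card V) m b t) ^ m * (1 + (b : ℝ)) ^ (m ^ 2))) := rfl
  have h4 := phase_gt hm hL hN hSM hU hUc ht (by linarith) (by
    rw [← hYs]
    exact Ys_mono hq hm (by omega)) h3
  exact h4

/-- At the end all pairs are processed.  `phase_tt` with `t = A`; every pair of different groups
`g`, `h` is in `Prt A` (if one region is `< A`) or in `C1 A` (`Lay.rt_le`).  `F` is nonempty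
(`0 < T ≤ |F|`); for `f ∈ F` the set `univ.image f` is a clique with `Fintype.card V` vertices
(`f` is injective because the sets `U p` are disjoint). -/
theorem finish {m b A l s : ℕ} (hm : 1 ≤ m) {rt : V → ℕ} {bl : V → V}
    (hL : Lay rt bl A m l s) {nn : ℕ → ℕ} {ρ Λ δ : ℝ}
    (hN : Nums N A m b l (Fintype.card V) nn ρ Λ δ)
    (hSM : SM m b A rt bl (Ys (Fintype.card V) m b (A + 1)) nn ρ δ)
    {U : V → Finset (Fin N)} (hU : ∀ p p', p ≠ p' → Disjoint (U p) (U p'))
    (hUc : ∀ p, (U p).card = nn (rt p)) {M B : Finset (Sym2 (Fin N))}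
    (h : Inv U (gam rt bl A) (fun g => Ys (Fintype.card V) m b A / nn (rt g)) (wt m b rt A) ρ
      (Prt rt bl A) M B) :
    Reach (edges N) m b (fun M' _ => HasClique N (Fintype.card V) M') M B := by
  classical
  have hq := hN.q1
  have hY1 : 1 ≤ Ys (Fintype.card V) m b A := one_le_Ys hq A
  refine (phase_tt hm hL hN hSM hU hUc le_rfl (by linarith) (two_Ys_le hq hm A) h).bind
    fun M' B' h' => Reach.here ?_
  obtain ⟨T, F, hT, _, hS⟩ := h'
  have hF : F.Nonempty := by
    rw [← Finset.card_pos]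
    have h1 := hS.card
    have h2 : (0 : ℝ) < F.card := lt_of_lt_of_le hT h1
    exact_mod_cast h2
  obtain ⟨f, hf⟩ := hF
  have hinj : Function.Injective f := by
    intro p p' hpp
    by_contra hne
    have h1 := hS.mem f hf p
    have h2 := hS.mem f hf p'
    rw [← hpp] at h2
    exact Finset.disjoint_left.1 (hU p p' hne) h1 h2
  refine ⟨univ.image f, ?_, ?_⟩
  · rw [Finset.card_image_of_injective _ hinj, Finset.card_univ]
  · intro u hu v hv huv
    obtain ⟨p, _, rfl⟩ := Finset.mem_image.1 hu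
    obtain ⟨p', _, rfl⟩ := Finset.mem_image.1 hv
    have hne : p ≠ p' := fun h1 => huv (by rw [h1])
    refine hS.proc f hf p p' hne ?_
    by_cases hg : gam rt bl A p = gam rt bl A p'
    · exact Or.inl hg
    · right
      have h1 : gam rt bl A p ∈ Gr (gam rt bl A) := mem_Gr.2 (gam_idem hL A p)
      have h2 : gam rt bl A p' ∈ Gr (gam rt bl A) := mem_Gr.2 (gam_idem hL A p')
      have h3 : ({gam rt bl A p, gam rt bl A p'} : Finset V) ∈
          (Gr (gam rt bl A)).powersetCard 2 := by
        rw [mem_powersetCard]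
        refine ⟨?_, card_pair hg⟩
        intro x hx
        rw [mem_insert, mem_singleton] at hx
        rcases hx with rfl | rfl
        · exact h1
        · exact h2
      rw [mem_union]
      by_cases h4 : ∃ g ∈ ({gam rt bl A p, gam rt bl A p'} : Finset V), rt g < A
      · left
        unfold Prt
        exact mem_filter.2 ⟨h3, h4⟩
      · right
        unfold C1
        refine mem_filter.2 ⟨h3, fun g hg' => ?_⟩
        push Not at h4
        exact le_antisymm (hL.rt_le g) (h4 g hg')

/-- Induction over the stages (`start_inv`, `stage`, `finish`), then `Reach.forces`. -/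
theorem makerWins {m b A l s : ℕ} (hm : 1 ≤ m) {rt : V → ℕ} {bl : V → V}
    (hL : Lay rt bl A m l s) {nn : ℕ → ℕ} {ρ Λ δ : ℝ}
    (hN : Nums N A m b l (Fintype.card V) nn ρ Λ δ)
    (hSM : SM m b A rt bl (Ys (Fintype.card V) m b (A + 1)) nn ρ δ)
    {U : V → Finset (Fin N)} (hU : ∀ p p', p ≠ p' → Disjoint (U p) (U p'))
    (hUc : ∀ p, (U p).card = nn (rt p)) : MakerWins N m b (Fintype.card V) := by
  have hreach : ∀ t ≤ A, Reach (edges N) m b (fun M' B' => Inv U (gam rt bl t)
      (fun g => Ys (Fintype.card V) m b t / nn (rt g))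
      (wt m b rt t) ρ (Prt rt bl t) M' B') ∅ ∅ := by
    intro t
    induction t with
    | zero =>
      intro _
      exact Reach.here (start_inv hL (fun a ha => by have := hN.four a ha; omega) hN.rho1 hUc)
    | succ t ih =>
      intro ht
      exact (ih (by omega)).bind fun M' B' h' => stage hm hL hN hSM hU hUc (by omega) h'
  have hfin : Reach (edges N) m b (fun M' _ => HasClique N (Fintype.card V) M') ∅ ∅ :=
    (hreach A le_rfl).bind fun M' B' h' => finish hm hL hN hSM hU hUc h'
  refine Reach.forces (by omega) ?_ hfin _ ?_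
  · rintro M M' hMM ⟨S, hS, hS'⟩
    exact ⟨S, hS, fun u hu v hv huv => hMM (hS' u hu v hv huv)⟩
  · exact Finset.card_le_card Finset.sdiff_subset

end Pool.Agent.Helper78.CP
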