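import Pool.Agent.Helper78.CP.SM1

set_option autoImplicit false

/-! Module SM-2: the second moment condition.  Memo section 5. -/

namespace Pool.Agent.Helper78.CP

open Finset
open Pool.Agent.Helper5.CV (lam Sst Qst)
open Pool.Agent.Helper34.GC (lst)

variable {V : Type*} [Fintype V] [DecidableEq V]

/-- Pure numbers.  Proof: `corner_scaled` with `c = θ L`, `J`, `T = d`:
`m Λm J² / 2 + J d Λm + d² Λ1 / 2 ≤ θ L (J + d)`;
`Λm J X ≤ (θ l* L) Λm X ≤ θ L X` because `m l* Λm ≤ 2` (`lst_le`) and `2 ≤ m`;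
`m² Λ1 l J / 2 ≤ (m² Λ1 l* / (2 A)) L J` because `l ≤ θ l* L / A ≤ l* L / A`; in the same way
`Λ1 m l X / 2 ≤ (m² Λ1 l* / (2 A)) L X` (`m ≤ m²`). -/
theorem corner_sum {m b A : ℕ} (hm : 2 ≤ m) (hb : 1 ≤ b) (hSQ : Sst m b ≤ Qst m b)
    (hQ : (m : ℝ) / lam m b m ≤ Qst m b) (hA : 1 ≤ A) {θ L c l J X d : ℝ} (hθ0 : 0 ≤ θ)
    (hθ1 : θ ≤ 1) (hL : 0 ≤ L) (hl0 : 0 ≤ l) (hl : A * l ≤ θ * lst m b * L)
    (hJ0 : 0 ≤ J) (hJ : J ≤ A * l) (hX0 : 0 ≤ X) (hd0 : 0 ≤ d) (hd : d ≤ θ * Sst m b * L)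
    (hc : (m : ℝ) ^ 2 * lam m b 1 * lst m b / (2 * A) ≤ c) :
    ((m : ℝ) ^ 2 * lam m b 1 * l * J + m * lam m b m * J ^ 2 + 2 * lam m b m * J * (X + d) +
        lam m b 1 * (m * l) * X + lam m b 1 * d ^ 2) / 2 ≤ (θ + c) * L * (J + X + d) := by
  have hm0 : (0 : ℝ) < m := by
    have : 0 < m := by omega
    exact_mod_cast this
  have hm2 : (2 : ℝ) ≤ m := by exact_mod_cast hm
  have hA0 : (0 : ℝ) < A := by
    have : 0 < A := by omega
    exact_mod_cast this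
  have hΛ : 0 < lam m b m := Pool.Agent.Helper34.GC.L_pos (by omega) hb (by omega)
  have hΛ1 : 0 < lam m b 1 := Pool.Agent.Helper34.GC.L_pos (by omega) hb (by omega)
  have hls : 0 ≤ lst m b := Pool.Agent.Helper34.GC.lst_nonneg hSQ
  have hls2 := Pool.Agent.Helper34.GC.lst_le hm hb hQ
  have h1 := Pool.Agent.Helper34.GC.corner_scaled hm hb hSQ hQ (J := J) (T := d) (c := θ * L)
    (mul_nonneg hθ0 hL) hJ0 (by linarith) hd0 (by linarith)
  -- the mixed term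
  have h2 : lam m b m * J ≤ θ * L := by
    have e1 : lst m b * lam m b m ≤ 1 := by
      have e2 : 0 ≤ lst m b * lam m b m := mul_nonneg hls hΛ.le
      nlinarith
    have e3 : lam m b m * J ≤ lam m b m * (θ * lst m b * L) :=
      mul_le_mul_of_nonneg_left (hJ.trans hl) hΛ.le
    have e4 : lam m b m * (θ * lst m b * L) = (lst m b * lam m b m) * (θ * L) := by ring
    have e5 : (lst m b * lam m b m) * (θ * L) ≤ 1 * (θ * L) :=
      mul_le_mul_of_nonneg_right e1 (mul_nonneg hθ0 hL)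
    linarith
  have h2' : lam m b m * J * X ≤ θ * L * X := mul_le_mul_of_nonneg_right h2 hX0
  -- the small terms
  have h3 : (m : ℝ) ^ 2 * lam m b 1 * l / 2 ≤ c * L := by
    have e1 : (A : ℝ) * l ≤ lst m b * L := by
      have : θ * (lst m b * L) ≤ 1 * (lst m b * L) :=
        mul_le_mul_of_nonneg_right hθ1 (mul_nonneg hls hL)
      linarith
    have e2 : (m : ℝ) ^ 2 * lam m b 1 * lst m b / (2 * A) * L ≤ c * L :=
      mul_le_mul_of_nonneg_right hc hL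
    have e3 : (m : ℝ) ^ 2 * lam m b 1 * l / 2 ≤ (m : ℝ) ^ 2 * lam m b 1 * lst m b / (2 * A) * L := by
      have e4 : (m : ℝ) ^ 2 * lam m b 1 * lst m b / (2 * A) * L
          = (m : ℝ) ^ 2 * lam m b 1 * (lst m b * L) / (2 * A) := by ring
      rw [e4, le_div_iff₀ (by positivity)]
      have e5 : (m : ℝ) ^ 2 * lam m b 1 * l / 2 * (2 * A) = (m : ℝ) ^ 2 * lam m b 1 * (A * l) := by
        ring
      rw [e5]
      exact mul_le_mul_of_nonneg_left e1 (by positivity)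
    linarith
  have h3' : (m : ℝ) ^ 2 * lam m b 1 * l / 2 * J ≤ c * L * J := mul_le_mul_of_nonneg_right h3 hJ0
  have h4 : lam m b 1 * (m * l) / 2 ≤ c * L := by
    have e1 : lam m b 1 * (m * l) ≤ (m : ℝ) ^ 2 * lam m b 1 * l := by
      have e2 : (m : ℝ) ≤ (m : ℝ) ^ 2 := by nlinarith
      have e3 : (m : ℝ) * (lam m b 1 * l) ≤ (m : ℝ) ^ 2 * (lam m b 1 * l) :=
        mul_le_mul_of_nonneg_right e2 (mul_nonneg hΛ1.le hl0)
      linarith
    linarith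
  have h4' : lam m b 1 * (m * l) / 2 * X ≤ c * L * X := mul_le_mul_of_nonneg_right h4 hX0
  have hc0 : 0 ≤ c := le_trans (by positivity) hc
  have h5 : 0 ≤ c * L * d := mul_nonneg (mul_nonneg hc0 hL) hd0
  linarith

/-- `log_prod_pairs_le` with `KK` (`log_wh_le`), `sum_KK_le`, `counts_le`, `corner_sum`. -/
theorem log_prod_wh_le {m b A l s : ℕ} (hm : 2 ≤ m) (hb : 1 ≤ b) (hSQ : Sst m b ≤ Qst m b)
    (hQ : (m : ℝ) / lam m b m ≤ Qst m b) (hA : 1 ≤ A) {rt : V → ℕ} {bl : V → V}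
    (hL : Lay rt bl A m l s) {θ L c : ℝ} (hθ0 : 0 ≤ θ) (hθ1 : θ ≤ 1) (hL0 : 0 ≤ L)
    (hl : (A : ℝ) * l ≤ θ * lst m b * L) (hs : (s : ℝ) ≤ θ * Sst m b * L)
    (hc : (m : ℝ) ^ 2 * lam m b 1 * lst m b / (2 * A) ≤ c) {t : ℕ} (ht : t ≤ A)
    {D : Finset V} (hD : D ⊆ Gr (gam rt bl t)) :
    Real.log (∏ e ∈ D.powersetCard 2, wh m b rt t e) ≤ (θ + c) * L * D.card := by
  set J : ℝ := ((D.filter (fun g => rt g < t)).card : ℝ) with hJ
  set X : ℝ := ((D.filter (fun g => t ≤ rt g ∧ rt g < A)).card : ℝ) with hX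
  set d : ℝ := ((D.filter (fun g => rt g = A)).card : ℝ) with hd
  obtain ⟨c1, c2, c3⟩ := counts_le hL ht hD
  have c1' : J ≤ (A : ℝ) * l := by rw [hJ]; exact_mod_cast c1
  have c2' : d ≤ (s : ℝ) := by rw [hd]; exact_mod_cast c2
  have c3' : J + X + d = (D.card : ℝ) := by rw [hJ, hX, hd]; exact_mod_cast c3
  have h1 := log_prod_pairs_le (KK m b rt t) (KK_symm m b rt t) (KK_nonneg m b rt t)
    (wh m b rt t) (fun e => lt_of_lt_of_le one_pos (wh_pos m b rt t e)) D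
    (fun g _ k _ hgk => log_wh_le (by omega) b rt t hgk)
  have h2 := sum_KK_le (b := b) hL ht hD hJ hX hd
  have h3 := corner_sum (θ := θ) (L := L) (c := c) (l := (l : ℝ)) (J := J) (X := X) (d := d)
    hm hb hSQ hQ hA hθ0 hθ1 hL0 (Nat.cast_nonneg l) hl (Nat.cast_nonneg _) c1'
    (Nat.cast_nonneg _) (Nat.cast_nonneg _) (c2'.trans hs) hc
  rw [c3'] at h3
  linarith

/-- Each factor is at most `(1 + b) ^ (m ^ 2)` (`wh_le`) and there are at most `k0 ^ 2` pairs. -/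
theorem log_prod_wh_le' {m b k0 : ℕ} (hm : 1 ≤ m) {rt : V → ℕ} {t : ℕ} {D : Finset V}
    (hD : D.card ≤ k0) :
    Real.log (∏ e ∈ D.powersetCard 2, wh m b rt t e) ≤
      (k0 : ℝ) ^ 2 * Real.log ((1 + (b : ℝ)) ^ (m ^ 2)) := by
  have hb1 : (1 : ℝ) ≤ 1 + (b : ℝ) := by
    have : (0 : ℝ) ≤ b := Nat.cast_nonneg b
    linarith
  have hW1 : (1 : ℝ) ≤ (1 + (b : ℝ)) ^ (m ^ 2) := one_le_pow₀ hb1
  have hW : 0 ≤ Real.log ((1 + (b : ℝ)) ^ (m ^ 2)) := Real.log_nonneg hW1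
  rw [Real.log_prod (fun e _ => (lt_of_lt_of_le one_pos (wh_pos m b rt t e)).ne')]
  have h1 : ∑ e ∈ D.powersetCard 2, Real.log (wh m b rt t e) ≤
      ∑ _e ∈ D.powersetCard 2, Real.log ((1 + (b : ℝ)) ^ (m ^ 2)) := by
    refine Finset.sum_le_sum (fun e _ => ?_)
    exact Real.log_le_log (lt_of_lt_of_le one_pos (wh_pos m b rt t e)) (wh_le hm b rt t e)
  rw [Finset.sum_const, nsmul_eq_mul, Finset.card_powersetCard] at h1
  refine h1.trans (mul_le_mul_of_nonneg_right ?_ hW)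
  have h2 : D.card.choose 2 ≤ k0 ^ 2 :=
    (Nat.choose_le_pow D.card 2).trans (Nat.pow_le_pow_left hD 2)
  exact_mod_cast h2

/-- **The second moment condition.**
Proof: `uu .. D * ρ ^ |D| = (∏ g ∈ D, Y / nn (rt g) * ρ) * ∏ pairs ≤ exp (- z L |D|) * ∏ pairs`
(`hz`, `Lay.rt_le`).  If `|D| ≥ k0`: `∏ pairs ≤ exp ((θ + c) L |D|)` with `c = (1 - θ) / 4`
(`log_prod_wh_le`), so the product is at most
`exp (- |D| L (z - θ - c)) ≤ exp (- |D| L (1 - θ) / 2) ≤ exp (- (9 / 4) L)` by `hz1`, `hk`.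
If `3 ≤ |D| ≤ k0`: at most `exp (- 3 (7 / 8) L + (3 / 8) L) = exp (- (9 / 4) L)` by `hz2`, `hk2`,
`log_prod_wh_le'`. -/
theorem SM_all {m b A l s k0 : ℕ} (hm : 2 ≤ m) (hb : 1 ≤ b) (hSQ : Sst m b ≤ Qst m b)
    (hQ : (m : ℝ) / lam m b m ≤ Qst m b) (hA : 1 ≤ A) {rt : V → ℕ} {bl : V → V}
    (hLay : Lay rt bl A m l s) {θ z L Y ρ : ℝ} {nn : ℕ → ℕ} (hθ0 : 0 < θ) (hθ1 : θ < 1)
    (hL0 : 0 ≤ L) (hl : (A : ℝ) * l ≤ θ * lst m b * L) (hs : (s : ℝ) ≤ θ * Sst m b * L)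
    (hY : 0 < Y) (hρ : 0 < ρ) (hnn : ∀ a ≤ A, 1 ≤ nn a)
    (hz : ∀ a ≤ A, Y / nn a * ρ ≤ Real.exp (-(z * L)))
    (hz1 : 1 - (1 - θ) / 4 ≤ z) (hz2 : 7 / 8 ≤ z)
    (hcA : (m : ℝ) ^ 2 * lam m b 1 * lst m b / (2 * A) ≤ (1 - θ) / 4)
    (hk : 9 / 4 ≤ k0 * (1 - θ) / 2)
    (hk2 : (k0 : ℝ) ^ 2 * Real.log ((1 + (b : ℝ)) ^ (m ^ 2)) ≤ 3 / 8 * L) :
    SM m b A rt bl Y nn ρ (Real.exp (-(9 / 4 * L))) := by
  intro t ht D hD h3
  have hYn : ∀ g ∈ D, 0 ≤ Y / nn (rt g) * ρ := fun g _ =>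
    mul_nonneg (div_nonneg hY.le (Nat.cast_nonneg _)) hρ.le
  have hP0 : 0 < ∏ e ∈ D.powersetCard 2, wh m b rt t e :=
    Finset.prod_pos (fun e _ => lt_of_lt_of_le one_pos (wh_pos m b rt t e))
  have e1 : uu (fun g => Y / nn (rt g)) (wh m b rt t) D * ρ ^ D.card =
      (∏ g ∈ D, Y / nn (rt g) * ρ) * ∏ e ∈ D.powersetCard 2, wh m b rt t e := by
    unfold uu
    rw [Finset.prod_mul_distrib, Finset.prod_const]
    ring
  have e2 : ∏ g ∈ D, Y / nn (rt g) * ρ ≤ Real.exp (-(z * L)) ^ D.card := by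
    rw [← Finset.prod_const]
    exact Finset.prod_le_prod hYn (fun g _ => hz _ (hLay.rt_le g))
  have e3 : ∏ e ∈ D.powersetCard 2, wh m b rt t e =
      Real.exp (Real.log (∏ e ∈ D.powersetCard 2, wh m b rt t e)) := (Real.exp_log hP0).symm
  set P := ∏ e ∈ D.powersetCard 2, wh m b rt t e with hP
  rw [e1]
  have key : (D.card : ℝ) * (-(z * L)) + Real.log P ≤ -(9 / 4 * L) := by
    have h3' : (3 : ℝ) ≤ D.card := by exact_mod_cast h3
    rcases le_total D.card k0 with hk0 | hk0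
    · have f1 := log_prod_wh_le' (b := b) (rt := rt) (t := t) (show 1 ≤ m by omega) hk0
      have f2 : (3 : ℝ) * (7 / 8 * L) ≤ D.card * (z * L) :=
        mul_le_mul h3' (mul_le_mul_of_nonneg_right hz2 hL0) (mul_nonneg (by norm_num) hL0)
          (Nat.cast_nonneg _)
      linarith
    · have f1 := log_prod_wh_le (c := (1 - θ) / 4) hm hb hSQ hQ hA hLay hθ0.le hθ1.le hL0 hl hs
        hcA ht hD
      have hk0' : (k0 : ℝ) ≤ D.card := by exact_mod_cast hk0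
      have f2 : (1 - θ) / 2 ≤ z - (θ + (1 - θ) / 4) := by linarith
      have f3 : 9 / 4 ≤ (D.card : ℝ) * (z - (θ + (1 - θ) / 4)) := by
        have g1 : (k0 : ℝ) * ((1 - θ) / 2) ≤ (D.card : ℝ) * (z - (θ + (1 - θ) / 4)) :=
          mul_le_mul hk0' f2 (by linarith) (Nat.cast_nonneg _)
        linarith
      have f4 : 9 / 4 * L ≤ (D.card : ℝ) * (z - (θ + (1 - θ) / 4)) * L :=
        mul_le_mul_of_nonneg_right f3 hL0
      have f5 : (D.card : ℝ) * (z - (θ + (1 - θ) / 4)) * L =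
          D.card * (z * L) - (θ + (1 - θ) / 4) * L * D.card := by ring
      linarith
  calc (∏ g ∈ D, Y / nn (rt g) * ρ) * P
      ≤ Real.exp (-(z * L)) ^ D.card * P := mul_le_mul_of_nonneg_right e2 hP0.le
    _ = Real.exp ((D.card : ℝ) * (-(z * L)) + Real.log P) := by
        rw [Real.exp_add, ← e3, Real.exp_nat_mul]
    _ ≤ Real.exp (-(9 / 4 * L)) := Real.exp_le_exp.2 key

end Pool.Agent.Helper78.CP
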