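import Pool.Agent.Helper78.CP.SG7
import Pool.Agent.Helper78.CP.SM2
import Pool.Agent.Helper78.CP.Par

set_option autoImplicit false

/-! Module SG-8: the concrete positions and the lower bound. -/

namespace Pool.Agent.Helper78.CP

open Finset Filter Pool.Agent.Helper25.CliqueGame
open Pool.Agent.Helper5.CV (lam Sst Qst cst)
open Pool.Agent.Helper34.GC (lst)

/-- Pairwise disjoint sets of given sizes with sum at most `N`.
Proof: `Fintype.card (Σ p, Fin (k p)) = ∑ p, k p ≤ N`, so there is an injection into `Fin N`;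
take the images of the fibres. -/
theorem exists_disjoint {N : ℕ} {V : Type*} [Fintype V] [DecidableEq V] (k : V → ℕ)
    (h : ∑ p, k p ≤ N) :
    ∃ U : V → Finset (Fin N), (∀ p p', p ≠ p' → Disjoint (U p) (U p')) ∧
      ∀ p, (U p).card = k p := by
  classical
  have hc : Fintype.card (Σ p, Fin (k p)) ≤ Fintype.card (Fin N) := by
    rw [Fintype.card_sigma, Fintype.card_fin]
    simpa using h
  obtain ⟨f⟩ := Function.Embedding.nonempty_of_card_le hc
  refine ⟨fun p => univ.image (fun i : Fin (k p) => f ⟨p, i⟩), ?_, ?_⟩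
  · intro p p' hp
    rw [Finset.disjoint_left]
    intro x hx hx'
    obtain ⟨i, _, hi⟩ := Finset.mem_image.1 hx
    obtain ⟨j, _, hj⟩ := Finset.mem_image.1 hx'
    have h1 := f.injective (hi.trans hj.symm)
    exact hp (congrArg Sigma.fst h1)
  · intro p
    rw [Finset.card_image_of_injective, Finset.card_univ, Fintype.card_fin]
    intro i j hij
    have h1 := f.injective hij
    exact eq_of_heq (Sigma.mk.inj h1).2

/-- The positions: `A` regions with `l` blocks of `m` positions and `s` single positions. -/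
abbrev Pos (A l m s : ℕ) : Type := (Fin A × Fin l × Fin m) ⊕ Fin s

/-- The region of a position. -/
def rtc (A l m s : ℕ) : Pos A l m s → ℕ
  | Sum.inl x => x.1
  | Sum.inr _ => A

/-- The representative of the block. -/
def blc (A l m s : ℕ) (hm : 1 ≤ m) : Pos A l m s → Pos A l m s
  | Sum.inl x => Sum.inl (x.1, x.2.1, ⟨0, hm⟩)
  | Sum.inr x => Sum.inr x

/-- Direct verification. -/
theorem lay_c (A l m s : ℕ) (hm : 1 ≤ m) :
    Lay (rtc A l m s) (blc A l m s hm) A m l s := by
  refine ⟨?_, ?_, ?_, ?_, ?_, ?_, ?_⟩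
  · rintro (x | x) <;> rfl
  · rintro (x | x) <;> rfl
  · rintro (x | x)
    · exact x.1.2.le
    · exact le_refl A
  · rintro (x | x) hx
    · exact absurd hx (Nat.ne_of_lt x.1.2)
    · rfl
  · rintro (⟨a, i, j⟩ | x) hg hx
    · have hj : j = ⟨0, hm⟩ := by
        have h1 := Sum.inl.inj hg
        exact (congrArg (fun y => y.2.2) h1).symm
      have h2 : univ.filter (fun p => blc A l m s hm p = Sum.inl (a, i, j)) =
          univ.image (fun j' : Fin m => (Sum.inl (a, i, j') : Pos A l m s)) := by
        ext p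
        simp only [Finset.mem_filter, Finset.mem_univ, true_and, Finset.mem_image]
        constructor
        · intro h
          rcases p with ⟨a', i', j'⟩ | x
          · have h3 := Sum.inl.inj h
            refine ⟨j', ?_⟩
            have ha : a' = a := congrArg (fun y => y.1) h3
            have hi : i' = i := congrArg (fun y => y.2.1) h3
            rw [ha, hi]
          · cases h
        · rintro ⟨j', rfl⟩
          rw [hj]
          rfl
      rw [h2, Finset.card_image_of_injective, Finset.card_univ, Fintype.card_fin]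
      intro j1 j2 h
      exact congrArg (fun y => y.2.2) (Sum.inl.inj h)
    · exact absurd hx (lt_irrefl A)
  · intro a ha
    have h2 : univ.filter (fun g => blc A l m s hm g = g ∧ rtc A l m s g = a) ⊆
        univ.image (fun i' : Fin l => (Sum.inl (⟨a, ha⟩, i', ⟨0, hm⟩) : Pos A l m s)) := by
      intro p hp
      simp only [Finset.mem_filter, Finset.mem_univ, true_and] at hp
      rw [Finset.mem_image]
      obtain ⟨h1, h3⟩ := hp
      rcases p with ⟨a', i', j'⟩ | x
      · refine ⟨i', Finset.mem_univ _, ?_⟩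
        have ha' : a' = ⟨a, ha⟩ := Fin.ext h3
        have hj : j' = ⟨0, hm⟩ := (congrArg (fun y => y.2.2) (Sum.inl.inj h1)).symm
        rw [ha', hj]
      · exact absurd h3 (Nat.ne_of_gt ha)
    refine (Finset.card_le_card h2).trans (Finset.card_image_le.trans ?_)
    rw [Finset.card_univ, Fintype.card_fin]
  · have h2 : univ.filter (fun p => rtc A l m s p = A) ⊆
        univ.image (fun i' : Fin s => (Sum.inr i' : Pos A l m s)) := by
      intro p hp
      simp only [Finset.mem_filter, Finset.mem_univ, true_and] at hp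
      rw [Finset.mem_image]
      rcases p with ⟨a', i', j'⟩ | x
      · exact absurd hp (Nat.ne_of_lt a'.2)
      · exact ⟨x, Finset.mem_univ _, rfl⟩
    refine (Finset.card_le_card h2).trans (Finset.card_image_le.trans ?_)
    rw [Finset.card_univ, Fintype.card_fin]

theorem card_Pos (A l m s : ℕ) : Fintype.card (Pos A l m s) = A * (l * m) + s := by
  rw [Fintype.card_sum, Fintype.card_prod, Fintype.card_prod, Fintype.card_fin, Fintype.card_fin,
    Fintype.card_fin, Fintype.card_fin]

/-- **Lower bound in the mixture region.**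
Proof: `exists_params`, `SM_all`, `lay_c`, `exists_disjoint` (`∑ nn (rt p) ≤ q nn A ≤ N` by `n7` and
`Nums.mono'`), `makerWins`, `card_Pos`; `q ≤ N` (`n7`, `1 ≤ nn A`), `Nat.le_findGreatest`. -/
theorem value_lower_mix {m b : ℕ} (hm : 2 ≤ m) (hb : 1 ≤ b) (hSQ : Sst m b ≤ Qst m b)
    (hQ : (m : ℝ) / lam m b m ≤ Qst m b) {ε : ℝ} (hε : 0 < ε) :
    ∀ᶠ N : ℕ in atTop, (Qst m b - ε) * Real.log N ≤ value N m b := by
  classical
  obtain ⟨θ, z, A, k0, hθ0, hθ1, hA, hz1, hz2, hcA, hk, hev⟩ := exists_params hm hb hSQ hQ hε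
  filter_upwards [hev] with N hN
  obtain ⟨l, s, nn, ρ, Λ, hNums, hl, hs, hz, hk2, hq⟩ := hN
  have hm1 : 1 ≤ m := by omega
  have hcard : Fintype.card (Pos A l m s) = A * (l * m) + s := card_Pos A l m s
  have hL := lay_c A l m s hm1
  have hmono : ∀ a ≤ A, nn a ≤ nn A := by
    intro a ha
    obtain ⟨d, rfl⟩ := Nat.exists_eq_add_of_le ha
    have : ∀ j ≤ d, nn a ≤ nn (a + j) := by
      intro j
      induction j with
      | zero => exact fun _ => le_refl _
      | succ j ih =>
        intro hj
        exact (ih (by omega)).trans (hNums.mono (a + j) (by omega))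
    exact this d le_rfl
  have hqN : (A * (l * m) + s) * nn A ≤ N := hNums.n7
  have hnnA : 4 ≤ nn A := hNums.four A le_rfl
  have hsum : ∑ p : Pos A l m s, nn (rtc A l m s p) ≤ N := by
    calc ∑ p : Pos A l m s, nn (rtc A l m s p) ≤ ∑ _p : Pos A l m s, nn A :=
          Finset.sum_le_sum fun p _ => hmono _ (hL.rt_le p)
      _ = (A * (l * m) + s) * nn A := by
          rw [Finset.sum_const, Finset.card_univ, hcard, smul_eq_mul]
      _ ≤ N := hqN
  obtain ⟨U, hU, hUc⟩ := exists_disjoint (fun p : Pos A l m s => nn (rtc A l m s p)) hsum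
  have hq1 : 1 ≤ A * (l * m) + s := hNums.q1
  have hY : 0 < Ys (Fintype.card (Pos A l m s)) m b (A + 1) := by
    rw [hcard]
    have h1 : Ys (A * (l * m) + s) m b 0 ≤ Ys (A * (l * m) + s) m b (A + 1) :=
      Ys_mono hq1 hm1 (Nat.zero_le _)
    have h2 : Ys (A * (l * m) + s) m b 0 = 1 := rfl
    rw [h2] at h1
    linarith
  have hN1 : (1 : ℝ) ≤ N := by
    have h4 : 1 ≤ N := by
      have h3 : nn A ≤ N := hNums.le_N A le_rfl
      omega
    exact_mod_cast h4
  have hSM : SM m b A (rtc A l m s) (blc A l m s hm1)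
      (Ys (Fintype.card (Pos A l m s)) m b (A + 1)) nn ρ (Real.exp (-(9 / 4 * Real.log N))) := by
    refine SM_all hm hb hSQ hQ hA hL hθ0 hθ1 (Real.log_nonneg hN1) hl hs hY
      (by linarith [hNums.rho1]) (fun a ha => ?_) ?_ hz1 hz2 hcA hk hk2
    · exact le_trans (by norm_num) (hNums.four a ha)
    · rw [hcard]
      exact hz
  have hNums' : Nums N A m b l (Fintype.card (Pos A l m s)) nn ρ Λ
      (Real.exp (-(9 / 4 * Real.log N))) := by
    rw [hcard]
    exact hNums
  have hwin := makerWins hm1 hL hNums' hSM hU hUc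
  rw [hcard] at hwin
  have hle : A * (l * m) + s ≤ value N m b := by
    refine Nat.le_findGreatest ?_ hwin
    calc A * (l * m) + s = (A * (l * m) + s) * 1 := (mul_one _).symm
      _ ≤ (A * (l * m) + s) * nn A := Nat.mul_le_mul_left _ (by omega)
      _ ≤ N := hqN
  refine hq.trans ?_
  exact_mod_cast hle

end Pool.Agent.Helper78.CP
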