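import Pool.Agent.Helper78.CP.SG8
import Pool.Agent.Helper78.CG.Final
import Pool.Agent.Helper25.CliqueGame.Final
import Pool.Agent.Helper34.GC.Cmp
import Pool.Agent.Helper5.CV.Q1Fin

set_option autoImplicit false

/-! Module SG-9: the lower bound `c*`. -/

namespace Pool.Agent.Helper78.CP

open Finset Filter Pool.Agent.Helper25.CliqueGame
open Pool.Agent.Helper5.CV (lam Sst Qst cst)
open Pool.Agent.Helper34.GC (lst low)

/-- The two landed lower bounds.  `value_lower_random` (Helper78/CG) gives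
`2 / Λ_1`, `value_lower` (Helper25) gives `m / Λ_m`; `CG.ev_small` for the lower order terms. -/
theorem value_lower_low {m b : ℕ} (hm : 1 ≤ m) (hb : 1 ≤ b) {ε : ℝ} (hε : 0 < ε) :
    ∀ᶠ N : ℕ in atTop, (low m b - ε) * Real.log N ≤ value N m b := by
  exact Pool.Agent.Helper5.CV.value_lower_low hm hb hε

/-- **The lower bound.**  `Helper34.GC.cst_cases`; for `m = 1` the second case of `cst_cases` must be
excluded or treated directly: `cst 1 b = 2 / Λ_1 = low 1 b` (`Helper34.GC.cst_one` or by hand: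
`Sst 1 b = 0`, `Qst 1 b = 2 / lam 1 b 1`). -/
theorem value_lower_cst {m b : ℕ} (hm : 1 ≤ m) (hb : 1 ≤ b) {ε : ℝ} (hε : 0 < ε) :
    ∀ᶠ N : ℕ in atTop, (cst m b - ε) * Real.log N ≤ value N m b := by
  exact Pool.Agent.Helper5.CV.value_lower_cst hm hb
    (fun hm2 h1 h2 ε' hε' => value_lower_mix hm2 hb h1 h2 hε') hε

end Pool.Agent.Helper78.CP
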